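import Pool.Agent.Lib.MP_c86c76_al.Q.St

/-!
An entry without error has the class of its key.
-/

set_option autoImplicit false

noncomputable section

namespace Pool.Agent.MQ

open Pool.Agent.MC Finset

variable {P G : Type} [Group P] [Group G] {E : Env P G} {D : Dat} {r : ℕ → G}

theorem ent_ev0 (X : ℕ → P) : ev X 0 = 1 := by simp [ev]

theorem ent_ob (hG : Geo E D) {b s : ℕ} (hb : b < D.nB) (hs : s < D.sz b) : D.ob b + s < D.nP := by
  have mono : ∀ n, b + 1 ≤ n → n ≤ D.nB → D.ob (b + 1) ≤ D.ob n := fun n h => by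
    induction n, h using Nat.le_induction with
    | base => exact fun _ => le_rfl
    | succ n _ ih => exact fun h2 => (ih (by omega)).trans (by have := (hG.ob n h2).1; omega)
  have h1 := mono D.nB hb le_rfl
  have h2 := (hG.ob b hb).1
  show _ < D.ob D.nB
  omega

theorem ent_core (hW : Wrd E D) (hG : Geo E D) {H : Type} [NormedAddCommGroup H] {f : G → H}
    (hf : Eqv (kp E D) f) {d g o s o' s' t y : ℕ} (hr : Rep E (r d)⁻¹ (D.vw d))
    (hu : D.gU g < D.nU) (hv : D.gV g < D.nU) (hj : o + s < D.nP) (hj' : o' + s' < D.nP)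
    (h : Dat.er1 (D.ctr d g o s) (D.lt5 g o s) (D.rc g o' s') (5 * t) y = 0) :
    ph f ((del E D (o + s))⁻¹ * ((E.η (D.gU g))⁻¹ * r d * E.ι (ev E.X (D.gM g))⁻¹ * E.η (D.gV g)) *
      del E D (o' + s')) = ph f (cls E D r d y) := by
  have l5 : D.lt5 g o s = 32 * (D.am (D.gU g) (o + s) % 2 ^ 5) := by
    rw [← land_eq]; rfl
  have l6 : Dat.aT (D.am (D.gU g) (o + s)) = D.am (D.gU g) (o + s) % 2 ^ 5 := by
    rw [← land_eq]; rfl
  obtain ⟨e1, e2, e3⟩ := hW.er _ _ _ t y (by omega) (by omega) h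
  have e4 : ev E.X (D.ctr d g o s) =
      E.ρ (r d)⁻¹ (ev E.X (Dat.aM (D.am (D.gU g) (o + s)))) * (ev E.X (D.gM g))⁻¹ := by
    show ev E.X (D.mvs (dv (si (tb (D.vw d)) 0 (rv (Dat.aM (D.am (D.gU g) (o + s))))) (D.gM g))
      (D.cw g s)) = _
    rw [hW.mvs, hW.dv, hW.si (E.ρ (r d)⁻¹).toMonoidHom _ (hW.tb _ _ hr), hW.rv, ent_ev0, one_mul,
      map_inv, inv_inv]
    rfl
  obtain ⟨c1, a1⟩ := hG.am _ hu _ hj
  obtain ⟨c2, a2⟩ := hG.am _ hv _ hj'
  have e5 : y / 32 % 32 = Dat.aT (D.am (D.gU g) (o + s)) := by omega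
  have e6 : D.rc g o' s' = D.am (D.gV g) (o' + s') := rfl
  rw [← hf.left' (cls E D r d y) c1, ← hf.right (_ * cls E D r d y) c2, cls, e1, e2, e5, e4, e6,
    map_mul, map_mul, ← hW.cj, eq_inv_mul_iff_mul_eq.2 a1, eq_inv_mul_iff_mul_eq.2 a2]
  congr 1
  simp only [map_inv]
  group

theorem entSt : EntSt := by
  intro P G _ _ E D r _ hW hG hF H _ f hf
  refine ⟨fun d hd B h1 h2 s hs s' hs' q y h => ?_, fun t ht => ?_, fun d y y' w h1 h2 => ?_⟩
  · obtain ⟨b1, b2, -, b3, b4⟩ := hF.blk d hd B h1 h2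
    have hr := hF.rep d hd (by omega)
    obtain ⟨hu, hv, hw⟩ := b4 _ (Nat.mod_lt (bits q 56 511) b3)
    have j1 := ent_ob hG b1 hs
    have j2 := ent_ob hG (b2.trans_lt b1) hs'
    change D.er0 d (Dat.kG (D.bk B) + bits q 56 511 % Dat.kN (D.bk B)) _ _ _ _ _ _ = 0 at h
    generalize Dat.kG (D.bk B) + bits q 56 511 % Dat.kN (D.bk B) = g at h hu hv hw
    rw [Dat.er0] at h
    generalize D.gE g = e at h hw
    rcases e with _ | e
    · rw [← ent_core hW hG hf hr hu hv j1 j2 h, ← hw, zz]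
      rfl
    · rw [← ent_core hW hG hf hr hu hv j2 j1 h, ← hw, ← hf.inv, zz, pw, if_neg e.succ_ne_zero]
      congr 1
      group
  · rw [cls, hF.r0, show 33 * t / 32 = t by omega, Nat.mod_eq_of_lt ht, show 33 * t % 32 = t by omega,
      show 33 * t / 1024 = 0 by omega, ent_ev0, map_one, mul_one, mul_one, inv_mul_cancel, ph_one]
  · rw [Nat.and_xor_distrib_right, Nat.xor_eq_zero_iff, show 1023 = 2 ^ 10 - 1 from rfl,
      Nat.and_two_pow_sub_one_eq_mod, Nat.and_two_pow_sub_one_eq_mod] at h1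
    have h3 := hW.mvs (y >>> 10) w
    rw [h2, Nat.shiftRight_eq_div_pow, Nat.shiftRight_eq_div_pow] at h3
    rw [cls, cls, show y / 32 % 32 = y' / 32 % 32 by omega, show y % 32 = y' % 32 by omega]
    exact congrArg (fun x => _ * E.ι x * _) h3.symm

end Pool.Agent.MQ
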