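import Pool.Agent.Lib.MP_c86c76_al.Q.St

/-!
The facts of the blocks and the enumeration of the blocks.
-/

set_option autoImplicit false

noncomputable section

namespace Pool.Agent.MQ

open Pool.Agent.MC Finset

section

variable {P G : Type} [Group P] [Group G] {E : Env P G} {D : Dat}

theorem fac_ev0 (X : ℕ → P) : ev X 0 = 1 := by simp [ev]

theorem fac_tb (hW : Wrd E D) {φ : G} {Wp : ℕ} (h : Rep E φ Wp) :
    ∀ d < 32, (E.ρ φ).toMonoidHom (lt E.X d) = ev E.X (tb Wp d) := hW.tb _ Wp h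

theorem fac_si (hW : Wrd E D) {φ : G} {W : ℕ → ℕ}
    (h : ∀ d < 32, (E.ρ φ).toMonoidHom (lt E.X d) = ev E.X (W d)) (w : ℕ) :
    ev E.X (si W 0 w) = (E.ρ φ (ev E.X w))⁻¹ := by
  rw [hW.si _ W h, fac_ev0, one_mul]
  rfl

theorem fac_odd (V l : ℕ) : tb V (Nat.succ (Nat.mul 2 l)) = rv (lane V l) := by
  have h1 : Nat.land (Nat.succ (Nat.mul 2 l)) 1 = 1 := by
    rw [show (1 : ℕ) = 2 ^ 1 - 1 from rfl, land_eq]
    show (2 * l + 1) % 2 = 1
    omega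
  have h2 : Nat.shiftRight (Nat.succ (Nat.mul 2 l)) 1 = l := by
    show (2 * l + 1) >>> 1 = l
    rw [Nat.shiftRight_eq_div_pow]
    omega
  rw [tb, h1, h2]
  rfl

/-- The table of `d` lists the images under `y`. -/
def FacY (E : Env P G) (D : Dat) (d : ℕ) (y : G) : Prop :=
  ∀ l, 1 ≤ l → l ≤ D.nX → E.ρ y (E.X l) = ev E.X (lane (D.vw d) l)

theorem fac_one (hM : Model E D) (hW : Wrd E D) (hX : D.nX ≤ 15) {d b k c g u v : ℕ}
    (hb : b < D.nB) (hk : k < D.nU) (hc : c < D.nB) (h : D.fact1 d b k c g u v = true) :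
    u < D.nU ∧ v < D.nU ∧
      FacY E D d (E.ι (ev E.X (D.gM g))⁻¹ * E.η v * (wB E b k c)⁻¹ * (E.η u)⁻¹) := by
  simp only [Dat.fact1, an_iff, allIn_iff, Nat.blt_eq, Nat.beq_eq] at h
  obtain ⟨hu, hv, h⟩ := h
  refine ⟨hu, hv, fun l h1 h2 => ?_⟩
  have hck : ∀ e < 32, (E.ρ (E.η k * E.b c * (E.η v)⁻¹)).toMonoidHom (lt E.X e) =
      ev E.X (D.ck k c v e) := fun e he => by
    rw [Dat.ck, fac_si hW (fac_tb hW (hM.wh k hk).1), fac_si hW (fac_tb hW (hM.wb c hc)),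
      ← fac_tb hW (hM.wh v hv).2 e he]
    simp
  have e := congrArg (ev E.X) (h l h1 (by omega))
  rw [hW.mvs, fac_si hW hck, fac_si hW (fac_tb hW (hM.wb b hb)), hW.dv, hW.dv, fac_odd, hW.rv,
    ← (hM.wh u hu).2 l (by omega), inv_inj, inv_inv] at e
  have e2 : E.ι (ev E.X (D.gM g))⁻¹ * E.η v * (wB E b k c)⁻¹ * (E.η u)⁻¹ =
      E.ι (ev E.X (D.gM g))⁻¹ * (E.η k * E.b c * (E.η v)⁻¹)⁻¹ * (E.b b * (E.η u)⁻¹) := by
    rw [wB]
    group
  rw [e2, map_mul, map_mul, map_mul E.ρ (E.b b), MulAut.mul_apply, MulAut.mul_apply,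
    MulAut.mul_apply, ← e, map_inv E.ρ, MulAut.inv_apply_self, hM.inn, MulAut.conj_apply]
  group

theorem fac_blk {d B : ℕ} (h : D.blkOk d B = true) :
    Dat.kB (D.bk B) < D.nB ∧ Dat.kC (D.bk B) ≤ Dat.kB (D.bk B) ∧ Dat.kK (D.bk B) < D.nK ∧
      0 < Dat.kN (D.bk B) ∧ D.ip (D.ad (D.bk B)) = B ∧ D.vOk (D.vw d) = true ∧
      ∀ g, Dat.kG (D.bk B) ≤ g → g < Dat.kG (D.bk B) + Dat.kN (D.bk B) →
        D.fact d (Dat.kB (D.bk B)) (Dat.kK (D.bk B)) (Dat.kC (D.bk B)) g = true := by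
  simpa only [Dat.blkOk, Dat.blk1, fc_eq, an_iff, allIn_iff, Nat.blt_eq, Nat.beq_eq,
    Nat.ble_eq] using h

theorem fac_fact (hM : Model E D) (hW : Wrd E D) (hG : Geo E D) (hX : D.nX ≤ 15) {d b k c g : ℕ}
    (hb : b < D.nB) (hk : k < D.nK) (hc : c ≤ b) (h : D.fact d b k c g = true) :
    D.gU g < D.nU ∧ D.gV g < D.nU ∧ FacY E D d (E.ι (ev E.X (D.gM g))⁻¹ * E.η (D.gV g) *
      (pw (wB E b k c) (D.gE g))⁻¹ * (E.η (D.gU g))⁻¹) := by
  simp only [Dat.fact, fc_eq] at h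
  generalize D.gE g = e at h ⊢
  rcases e with _ | e
  · exact fac_one hM hW hX hb (hk.trans_le hG.kU) (hc.trans_lt hb) h
  · have := fac_one hM hW hX (hc.trans_lt hb) ((hG.kinv k hk).1.trans_le hG.kU) hb h
    have e1 : wB E c (D.inv k) b = pw (wB E b k c) (e + 1) := by
      rw [pw, if_neg (Nat.succ_ne_zero e), wB, wB, (hG.kinv k hk).2.2]
      group
    rwa [e1] at this

end

theorem facSt : FacSt := by
  intro P G _ _ E D hM hW hO hG hB
  classical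
  have hg := hO.grp
  simp only [Dat.grpOk, an_iff, Nat.ble_eq, Dat.idOk, allIn_iff, Nat.beq_eq] at hg
  have hX := hg.1
  have hid := hg.2.2.2.2.2.2.2.2.2.2.1
  have spec : ∀ d y, FacY E D d y →
      (if h : ∃ y, FacY E D d y then h.choose⁻¹ else 1) = y⁻¹ := fun d y hy => by
    have h : ∃ y, FacY E D d y := ⟨y, hy⟩
    rw [dif_pos h, hW.ext h.choose y fun l h1 h2 => (h.choose_spec l h1 h2).trans (hy l h1 h2).symm]
  refine ⟨fun d => if h : ∃ y, FacY E D d y then h.choose⁻¹ else 1, ?_, fun d hd hlt => ?_,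
    fun d hd B h1 h2 => ?_⟩
  · rw [spec 0 1 fun l h1 h2 => ?_, inv_one]
    rw [hid l h1 (by omega), map_one, MulAut.one_apply]
    exact (hW.two l (by omega)).symm
  · obtain ⟨a1, a2, a3, a4, -, a6, a7⟩ := fac_blk (hB d hd _ le_rfl hlt)
    have hy := (fac_fact hM hW hG hX a1 a3 a2 (a7 _ le_rfl (Nat.lt_add_of_pos_right a4))).2.2
    rw [spec d _ hy, inv_inv]
    simp only [Dat.vOk, an_iff, isz, Nat.beq_eq, Nat.blt_eq] at a6
    intro l _
    rcases Nat.eq_zero_or_pos l with rfl | h0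
    · rw [hM.x0 0 (Or.inl rfl), map_one, a6.1, fac_ev0]
    rcases le_or_gt l D.nX with h1 | h1
    · exact hy l h0 h1
    have e : lane (D.vw d) l = 0 := by
      have h3 : D.vw d < 2 ^ (320 * (D.nX + 1)) := by
        have := a6.2
        rwa [← Nat.one_shiftLeft]
      have h4 : D.vw d < 2 ^ (320 * l) :=
        h3.trans_le (Nat.pow_le_pow_right two_pos (Nat.mul_le_mul_left _ h1))
      have h5 : Nat.shiftRight (D.vw d) (Nat.mul 320 l) = 0 := by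
        show D.vw d >>> (320 * l) = 0
        rw [Nat.shiftRight_eq_div_pow, Nat.div_eq_of_lt h4]
      rw [lane, bits, h5]
      exact Nat.zero_and _
    rw [hM.x0 l (Or.inr h1), map_one, e, fac_ev0]
  · obtain ⟨a1, a2, a3, a4, -, -, a7⟩ := fac_blk (hB d hd B h1 h2)
    refine ⟨a1, a2, a3, a4, fun f hf => ?_⟩
    obtain ⟨b1, b2, b3⟩ := fac_fact hM hW hG hX a1 a3 a2
      (a7 _ (Nat.le_add_right _ f) (Nat.add_lt_add_left hf _))
    refine ⟨b1, b2, ?_⟩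
    rw [spec d _ b3]
    group

theorem fac_ranges {M : Type} [AddCommMonoid M] (bo : ℕ → ℕ) (h0 : bo 0 = 0) (f : ℕ → M) (n : ℕ)
    (hm : ∀ d < n, bo d ≤ bo (d + 1)) :
    ∑ d ∈ range n, ∑ B ∈ Ico (bo d) (bo (d + 1)), f B = ∑ B ∈ range (bo n), f B ∧
      ∀ B < bo n, ∃ d < n, bo d ≤ B ∧ B < bo (d + 1) := by
  induction n with
  | zero => simp [h0]
  | succ n ih =>
    obtain ⟨i1, i2⟩ := ih fun d hd => hm d (by omega)
    refine ⟨by rw [sum_range_succ, i1, sum_range_add_sum_Ico _ (hm n (by omega))], fun B hB => ?_⟩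
    rcases lt_or_ge B (bo n) with h | h
    · obtain ⟨d, a, b⟩ := i2 B h
      exact ⟨d, by omega, b⟩
    · exact ⟨n, by omega, h, hB⟩

theorem permSt : PermSt := by
  intro D hO hB hL M _ F
  simp only [Dat.offOk, an_iff, isz, Nat.beq_eq, Nat.ble_eq] at hO
  obtain ⟨i1, i2⟩ := fac_ranges D.bo hO.2.1
    (fun B => F (Dat.kB (D.bk B)) (Dat.kK (D.bk B)) (Dat.kC (D.bk B))) D.nD fun d hd => by
      have := hL d hd
      simp only [Dat.balOk, an_iff, Nat.ble_eq] at this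
      exact this.1
  have hb := fun B (h : B < D.bo D.nD) => (i2 B h).elim fun d hd =>
    (⟨(fac_blk (hB d hd.1 B hd.2.1 hd.2.2)).1, (fac_blk (hB d hd.1 B hd.2.1 hd.2.2)).2.1,
      (fac_blk (hB d hd.1 B hd.2.1 hd.2.2)).2.2.1,
      (fac_blk (hB d hd.1 B hd.2.1 hd.2.2)).2.2.2.2.1⟩ : _ ∧ _ ∧ _ ∧ _)
  have e : sumB D F = ∑ t ∈ (range D.nB).sigma fun b => range (b + 1) ×ˢ range D.nK,
      F t.1 t.2.2 t.2.1 := by
    rw [sumB, sum_sigma]
    exact sum_congr rfl fun b _ => (sum_product _ _ fun t : ℕ × ℕ => F b t.2 t.1).symm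
  rw [i1, e]
  have maps : Set.MapsTo
      (fun B => (⟨Dat.kB (D.bk B), Dat.kC (D.bk B), Dat.kK (D.bk B)⟩ : Σ _ : ℕ, ℕ × ℕ))
      (range (D.bo D.nD) : Finset ℕ)
      ((range D.nB).sigma fun b => range (b + 1) ×ˢ range D.nK : Finset (Σ _ : ℕ, ℕ × ℕ)) := by
    intro B h
    obtain ⟨a1, a2, a3, -⟩ := hb B (mem_range.1 h)
    exact mem_sigma.2 ⟨mem_range.2 a1,
      mem_product.2 ⟨mem_range.2 (Nat.lt_succ_of_le a2), mem_range.2 a3⟩⟩
  have inj : Set.InjOn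
      (fun B => (⟨Dat.kB (D.bk B), Dat.kC (D.bk B), Dat.kK (D.bk B)⟩ : Σ _ : ℕ, ℕ × ℕ))
      (range (D.bo D.nD) : Finset ℕ) := by
    intro B h B' h' heq
    simp only [Sigma.mk.injEq, heq_eq_eq, Prod.mk.injEq] at heq
    rw [← (hb B (mem_range.1 h)).2.2.2, ← (hb B' (mem_range.1 h')).2.2.2, Dat.ad, Dat.ad,
      heq.1, heq.2.1, heq.2.2]
  refine sum_nbij _ maps inj (surjOn_of_injOn_of_card_le _ maps inj (le_of_eq ?_)) fun _ _ => rfl
  rw [card_range, hO.2.2.2, card_sigma]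
  simp only [card_product, card_range, ← sum_mul]
  have h2 := sum_range_id_mul_two (D.nB + 1)
  rw [sum_range_succ', add_zero, Nat.add_sub_cancel, mul_comm (D.nB + 1)] at h2
  show _ = (D.nB * (D.nB + 1) / 2 + 0) * D.nK + 0
  rw [← h2, Nat.mul_div_cancel _ two_pos, add_zero, add_zero]

end Pool.Agent.MQ
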