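import Pool.Agent.Lib.MP_c86c76_al.Q.St

/-!
The sums over the classes vanish.
-/

set_option autoImplicit false

noncomputable section

namespace Pool.Agent.MQ

open Pool.Agent.MC Finset

theorem gat_lane (w n : ℕ) (f : ℕ → ℕ) (h : ∀ i < n, f i < 2 ^ w) (l : ℕ) :
    pk w n f / 2 ^ (w * l) % 2 ^ w = if l < n then f l else 0 := by
  induction n with
  | zero =>
    show 0 / _ % _ = _
    rw [Nat.zero_div, Nat.zero_mod, if_neg (Nat.not_lt_zero l)]
  | succ n ih =>
    rcases lt_trichotomy l n with h1 | rfl | h1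
    · obtain ⟨r, rfl⟩ : ∃ r, n = l + 1 + r := ⟨n - (l + 1), by omega⟩
      rw [pk_succ, show w * (l + 1 + r) = w * l + (w + w * r) by ring, pow_add, pow_add,
        mul_assoc, Nat.add_mul_div_left _ _ (by positivity), mul_assoc, Nat.add_mul_mod_self_left,
        ih fun i hi => h i (by omega), if_pos h1, if_pos (by omega)]
    · rw [pk_succ, Nat.add_mul_div_left _ _ (by positivity),
        Nat.div_eq_of_lt (pk_lt w l f fun i hi => h i (by omega)), zero_add,
        Nat.mod_eq_of_lt (h _ (by omega)), if_pos (by omega)]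
    · rw [Nat.div_eq_of_lt ((pk_lt w _ f h).trans_le
        (Nat.pow_le_pow_right two_pos (Nat.mul_le_mul_left w h1))), Nat.zero_mod, if_neg (by omega)]

theorem gat_split (x a b k : ℕ) (hb : b < 2 ^ k) :
    x &&& (b + 2 ^ k * a) = (x &&& b) + 2 ^ k * (x / 2 ^ k &&& a) := by
  apply Nat.eq_of_testBit_eq
  intro j
  rw [add_comm b, add_comm (x &&& b), Nat.testBit_and, Nat.testBit_two_pow_mul_add _ hb,
    Nat.testBit_two_pow_mul_add _ (lt_of_le_of_lt Nat.and_le_right hb)]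
  split_ifs with hj
  · rw [Nat.testBit_and]
  · rw [Nat.testBit_and, Nat.testBit_div_two_pow, show j - k + k = j by omega]

theorem gat_mask (n x : ℕ) : x &&& pk 80 n (fun _ => 2 ^ 24 - 1) =
    pk 80 n fun l => x / 2 ^ (80 * l) % 2 ^ 24 := by
  induction n with
  | zero => exact Nat.and_zero x
  | succ n ih =>
    rw [pk_succ, pk_succ, gat_split _ _ _ _ (pk_lt 80 n _ fun _ _ => by norm_num), ih,
      Nat.and_two_pow_sub_one_eq_mod]

theorem gat_pkmul (w n k : ℕ) (f : ℕ → ℕ) : pk w n f * k = pk w n fun l => f l * k := by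
  rw [pk_eq, pk_eq, sum_mul]
  exact sum_congr rfl fun l _ => mul_assoc _ _ _

theorem gat_sumIn (a b : ℕ) (f : ℕ → ℕ) : sumIn a b f = ∑ x ∈ Ico a b, f x := by
  rw [sum_Ico_eq_sum_range, sumIn, sumLT_eq]
  rfl

/-- The lanes of the number `T` record the real number `S` unless there is an error. -/
def gatG (F : ℕ → ℝ) (N T n : ℕ) (S : ℝ) : Prop := ∃ v w : ℕ → ℕ,
  T = ∑ c ∈ range N, 2 ^ (80 * c) * (v c + 2 ^ 56 * w c) ∧ w 0 = 0 ∧
  (∀ c, 0 < c → v c ≤ 2 ^ 32 * w c) ∧ v 0 + ∑ c ∈ range N, w c ≤ n ∧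
  (v 0 = 0 → S = ∑ c ∈ range N, ((v c : ℝ) - 2 ^ 31 * w c) * F c)

section Good

variable {F : ℕ → ℝ} {N : ℕ}

theorem gatG_zero (n : ℕ) : gatG F N 0 n 0 :=
  ⟨fun _ => 0, fun _ => 0, by simp, rfl, fun _ _ => by simp, by simp, fun _ => by simp⟩

theorem gatG_add {T T' n n' : ℕ} {S S' : ℝ} (h : gatG F N T n S) (h' : gatG F N T' n' S') :
    gatG F N (T + T') (n + n') (S + S') := by
  obtain ⟨v, w, h1, h2, h3, h4, h5⟩ := h
  obtain ⟨v', w', k1, k2, k3, k4, k5⟩ := h'
  refine ⟨fun c => v c + v' c, fun c => w c + w' c, ?_, by simp only [h2, k2], fun c hc => ?_, ?_,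
    fun h0 => ?_⟩
  · rw [h1, k1, ← sum_add_distrib]
    exact sum_congr rfl fun c _ => by ring
  · have := h3 c hc
    have := k3 c hc
    beta_reduce
    omega
  · rw [sum_add_distrib]
    beta_reduce
    omega
  · beta_reduce at h0
    rw [h5 (by omega), k5 (by omega), ← sum_add_distrib]
    exact sum_congr rfl fun c _ => by push_cast; ring

theorem gatG_sum (s : Finset ℕ) {T n : ℕ → ℕ} {S : ℕ → ℝ}
    (h : ∀ x ∈ s, gatG F N (T x) (n x) (S x)) :
    gatG F N (∑ x ∈ s, T x) (∑ x ∈ s, n x) (∑ x ∈ s, S x) := by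
  induction s using Finset.induction_on with
  | empty => exact gatG_zero _
  | insert a s ha ih =>
    rw [sum_insert ha, sum_insert ha, sum_insert ha]
    exact gatG_add (h a (mem_insert_self a s)) (ih fun x hx => h x (mem_insert_of_mem hx))

theorem gatG_err (hN : 0 < N) {n : ℕ} (hn : 1 ≤ n) (S : ℝ) : gatG F N 1 n S := by
  refine ⟨fun c => if c = 0 then 1 else 0, fun _ => 0, ?_, rfl, fun c hc => ?_, by simpa using hn,
    fun h0 => by simp at h0⟩
  · rw [sum_eq_single 0 (fun c _ hc => by simp [hc]) fun h => absurd (mem_range.2 hN) h]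
    simp
  · simp [hc.ne']

theorem gatG_one {m X : ℕ} (hm : m + 1 < N) (hX : X ≤ 2 ^ 32) :
    gatG F N (Nat.shiftLeft (Nat.add X 72057594037927936) (Nat.add (Nat.mul 80 m) 80)) 1
      (((X : ℝ) - 2 ^ 31) * F (m + 1)) := by
  have hm' : m + 1 ∈ range N := mem_range.2 hm
  refine ⟨fun c => if c = m + 1 then X else 0, fun c => if c = m + 1 then 1 else 0, ?_, by simp,
    fun c _ => ?_, ?_, fun _ => ?_⟩
  · rw [sum_eq_single (m + 1) (fun c _ hc => by simp [hc]) fun h => absurd hm' h]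
    show (X + 72057594037927936) <<< (80 * m + 80) = _
    beta_reduce
    rw [Nat.shiftLeft_eq, if_pos rfl, if_pos rfl, mul_comm, mul_add 80 m 1]
    norm_num
  · beta_reduce
    split_ifs
    exacts [by omega, le_rfl]
  · rw [sum_eq_single (m + 1) (fun c _ hc => by simp [hc]) fun h => absurd hm' h]
    simp
  · rw [sum_eq_single (m + 1) (fun c _ hc => by simp [hc]) fun h => absurd hm' h]
    simp

theorem gatG_fin {a n nl : ℕ} {S : ℝ} (h : gatG F N a n S) (hN : 0 < N) (hn : n < 16777216)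
    (hf : Dat.fin2 a (on8 nl) = true) : S = 0 := by
  obtain ⟨v, w, h1, h2, h3, h4, h5⟩ := h
  have hw : ∀ c < N, w c < 2 ^ 24 := fun c hc => by
    have := single_le_sum (f := w) (fun _ _ => Nat.zero_le _) (mem_range.2 hc)
    omega
  have hv : ∀ c < N, v c < 2 ^ 56 := fun c hc => by
    rcases Nat.eq_zero_or_pos c with rfl | h0
    · omega
    · have := h3 c h0
      have := hw c hc
      omega
  have e1 : a = (a >>> 56 &&& pk 80 nl (fun _ => 1) * 16777215) * 72057596185411584 :=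
    Nat.eq_of_beq_eq_true hf
  rw [gat_pkmul, show (fun _ : ℕ => 1 * 16777215) = fun _ => 2 ^ 24 - 1 from rfl, gat_mask,
    gat_pkmul] at e1
  generalize a >>> 56 = x at e1
  have e2 : ∀ c < N, v c = 2 ^ 31 * w c := fun c hc => by
    have k1 := gat_lane 80 N (fun c => v c + 2 ^ 56 * w c) (fun i hi => by
      have := hw i hi
      have := hv i hi
      omega) c
    have k2 := gat_lane 80 nl (fun l => x / 2 ^ (80 * l) % 2 ^ 24 * 72057596185411584)
      (fun i _ => by omega) c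
    rw [pk_eq, ← h1, if_pos hc] at k1
    rw [← e1, k1] at k2
    have := hv c hc
    split_ifs at k2 <;> omega
  have e3 := e2 0 hN
  rw [h5 (by omega)]
  exact sum_eq_zero fun c hc => by rw [e2 c (mem_range.1 hc)]; push_cast; ring

end Good

theorem gat_x32 (r : ℕ) : Nat.land r 4294967295 = r % 2 ^ 32 := land_eq r 32

theorem gat_b20 (r s : ℕ) : bits r s 1048575 + 1 < 1048577 :=
  Nat.succ_lt_succ (Nat.lt_succ_of_le (bits_le _ _ _))

theorem gat_xr (D : Dat) (A n s s' : ℕ) (h : s' < n) :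
    l96 (D.xr A n s) s' % 2 ^ 32 = D.xb A / 2 ^ (96 * (n * s + s')) % 2 ^ 32 := by
  have e1 : D.xr A n s = D.xb A / 2 ^ (96 * n * s) % 2 ^ (96 * n) := by
    show D.xb A >>> (96 * n * s) % 1 <<< (96 * n) = _
    rw [Nat.shiftRight_eq_div_pow, Nat.one_shiftLeft]
  have e2 : ∀ x, l96 x s' = x / 2 ^ (96 * s') % 2 ^ 96 := fun x => bits_eq x _ 96
  rw [e2, e1]
  apply Nat.eq_of_testBit_eq
  intro j
  simp only [Nat.testBit_mod_two_pow, Nat.testBit_div_two_pow]
  by_cases hj : j < 32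
  · rw [show j + 96 * s' + 96 * n * s = j + 96 * (n * s + s') by ring]
    simp [hj, show j < 96 by omega, show j + 96 * s' < 96 * n by omega]
  · simp [hj]

theorem gat_xor {a b : ℕ} (h : Nat.xor a b = 0) : a = b := Nat.xor_eq_zero_iff.1 h

theorem gat_ent (D : Dat) (Φ : ℕ → ℝ) (d g0 nf o s o' s' r : ℕ) (ψ : ℝ)
    (h1 : ∀ y, D.er d g0 nf o s o' s' r y = 0 → ψ = Φ y)
    (h2 : d = 0 → ∀ t < 32, Φ (33 * t) = 0) :
    gatG (fun c => Φ (D.key d (c - 1))) 1048577 (D.ent1 d g0 nf o s o' s' r) 1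
      ((((r % 2 ^ 32 : ℕ) : ℝ) - 2 ^ 31) * ψ) := by
  have hb := gat_b20 r 32
  have hX : Nat.land r 4294967295 ≤ 2 ^ 32 := by rw [gat_x32]; omega
  rw [Dat.ent1, ← gat_x32]
  generalize bits r 32 1048575 = m at hb
  generalize Nat.land r 4294967295 = X at hX
  rcases m with _ | m
  · show gatG _ _ (Nat.rec (motive := fun _ => ℕ) 0 (fun _ _ => Nat.rec (motive := fun _ => ℕ) 0
      (fun _ _ => 1) (Nat.add d (D.er d g0 nf o s o' s' r (Nat.mul 33 (bits r 65 31)))))
      (Nat.xor X 2147483648)) _ _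
    generalize hx : Nat.xor X 2147483648 = z
    rcases z with _ | z
    · rw [gat_xor hx, show (((2147483648 : ℕ) : ℝ) - 2 ^ 31) * ψ = 0 by norm_num]
      exact gatG_zero _
    · show gatG _ _ (Nat.rec (motive := fun _ => ℕ) 0 (fun _ _ => 1)
        (Nat.add d (D.er d g0 nf o s o' s' r (Nat.mul 33 (bits r 65 31))))) _ _
      generalize he : Nat.add d (D.er d g0 nf o s o' s' r (Nat.mul 33 (bits r 65 31))) = e
      rcases e with _ | e
      · obtain ⟨e1, e2⟩ := Nat.add_eq_zero_iff.1 he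
        rw [h1 _ e2, show Φ (Nat.mul 33 (bits r 65 31)) = 0 from
          h2 e1 _ (Nat.lt_succ_of_le (bits_le _ _ _)), mul_zero]
        exact gatG_zero _
      · exact gatG_err (by norm_num) le_rfl _
  · show gatG _ _ (Nat.rec (motive := fun _ => ℕ)
      (Nat.shiftLeft (Nat.add X 72057594037927936) (Nat.add (Nat.mul 80 m) 80))
      (fun _ _ => 1) (D.er d g0 nf o s o' s' r (D.key d m))) _ _
    generalize he : D.er d g0 nf o s o' s' r (D.key d m) = e
    rcases e with _ | e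
    · rw [h1 _ he]
      exact gatG_one (F := fun c => Φ (D.key d (c - 1))) (by omega) hX
    · exact gatG_err (by norm_num) le_rfl _

theorem gat_trm (D : Dat) (Φ : ℕ → ℝ) (d z : ℕ)
    (h3 : ∀ y y' w, (y ^^^ y') &&& 1023 = 0 → D.mvs (y >>> 10) w = y' >>> 10 → Φ y = Φ y') :
    gatG (fun c => Φ (D.key d (c - 1))) 1048577 (D.trm d z) 2 0 := by
  show gatG _ _ (D.trm1 (D.tr z) (bits (D.tr z) 32 1048575) (bits (D.tr z) 52 1048575)
    (D.key d (bits (D.tr z) 32 1048575)) (D.key d (bits (D.tr z) 52 1048575))) _ _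
  have hb := gat_b20 (D.tr z) 32
  have hb' := gat_b20 (D.tr z) 52
  have hX : Nat.land (D.tr z) 4294967295 ≤ 2 ^ 32 := by rw [gat_x32]; omega
  rw [Dat.trm1]
  generalize bits (D.tr z) 32 1048575 = m at hb
  generalize bits (D.tr z) 52 1048575 = m' at hb'
  generalize Nat.land (D.tr z) 4294967295 = X at hX
  generalize he : Nat.add (Nat.land (Nat.xor (D.key d m) (D.key d m')) 1023)
    (Nat.xor (D.mvs (Nat.shiftRight (D.key d m) 10) (Nat.shiftRight (D.tr z) 72))
      (Nat.shiftRight (D.key d m') 10)) = e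
  rcases e with _ | e
  · obtain ⟨e1, e2⟩ := Nat.add_eq_zero_iff.1 he
    have e3 := h3 _ _ _ e1 (gat_xor e2)
    have k := gatG_add (gatG_one (F := fun c => Φ (D.key d (c - 1))) hb hX)
      (gatG_one (X := 2 ^ 32 - X) hb' (Nat.sub_le _ _))
    have e4 : Nat.add (2 ^ 32 - X) 72057594037927936 = Nat.sub 72057598332895232 X := by
      show 2 ^ 32 - X + 72057594037927936 = 72057598332895232 - X
      omega
    have e5 : ((X : ℝ) - 2 ^ 31) * Φ (D.key d (m + 1 - 1)) +
        (((2 ^ 32 - X : ℕ) : ℝ) - 2 ^ 31) * Φ (D.key d (m' + 1 - 1)) = 0 := by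
      rw [Nat.cast_sub hX, Nat.add_sub_cancel, Nat.add_sub_cancel, e3]
      push_cast
      ring
    rw [e4] at k
    exact e5 ▸ k
  · exact gatG_err (by norm_num) one_le_two _

theorem gatSt : GatSt := by
  intro D d hg Φ Ψ h1 h2 h3
  obtain ⟨k1, k2⟩ := (an_iff _ _).1 (show an (Nat.blt (D.cnt d) 16777216)
    (Dat.fin2 (D.acc d) (on8 (D.nl d))) = true from hg)
  have k3 : D.cnt d = ∑ B ∈ Ico (D.bo d) (D.bo (d + 1)),
      (∑ s ∈ range (D.sz (Dat.kB (D.bk B))), ∑ s' ∈ range (D.sz (Dat.kC (D.bk B))), 1) +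
      ∑ z ∈ Ico (D.tz d) (D.tz (d + 1)), 2 := by
    rw [Dat.cnt, gat_sumIn]
    simp [mul_comm]
  have k4 : D.acc d = ∑ B ∈ Ico (D.bo d) (D.bo (d + 1)),
      (∑ s ∈ range (D.sz (Dat.kB (D.bk B))), ∑ s' ∈ range (D.sz (Dat.kC (D.bk B))),
        D.ent1 d (Dat.kG (D.bk B)) (Dat.kN (D.bk B)) (D.ob (Dat.kB (D.bk B))) s
          (D.ob (Dat.kC (D.bk B))) s' (l96 (D.xr (D.ad (D.bk B)) (D.sz (Dat.kC (D.bk B))) s) s')) +
      ∑ z ∈ Ico (D.tz d) (D.tz (d + 1)), D.trm d z := by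
    rw [Dat.acc, gat_sumIn, gat_sumIn]
    refine congrArg₂ Nat.add (sum_congr rfl fun B _ => ?_) rfl
    simp only [Dat.bac, Dat.bac1, fc_eq, sumLT_eq]
  have k5 := gatG_add (gatG_sum (F := fun c => Φ (D.key d (c - 1))) (N := 1048577)
    (Ico (D.bo d) (D.bo (d + 1))) fun B hB => gatG_sum (range (D.sz (Dat.kB (D.bk B))))
      fun s hs => gatG_sum (range (D.sz (Dat.kC (D.bk B)))) fun s' hs' =>
        gat_ent D Φ d _ _ _ s _ s' (l96 (D.xr (D.ad (D.bk B)) (D.sz (Dat.kC (D.bk B))) s) s')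
          (Ψ B s s') (h1 B (mem_Ico.1 hB).1 (mem_Ico.1 hB).2 s (mem_range.1 hs) s'
            (mem_range.1 hs') _) h2)
    (gatG_sum (Ico (D.tz d) (D.tz (d + 1))) fun z _ => gat_trm D Φ d z h3)
  rw [← k3, ← k4] at k5
  have k6 := gatG_fin k5 (by norm_num) (Nat.blt_eq.mp k1) k2
  rw [sum_const_zero, add_zero] at k6
  rw [← k6]
  refine sum_congr rfl fun B _ => sum_congr rfl fun s _ => sum_congr rfl fun s' hs' => ?_
  rw [gat_xr D _ _ _ _ (mem_range.1 hs'), Xz, d32, Int.cast_sub, Int.cast_natCast, Dat.ad]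
  norm_num

end Pool.Agent.MQ
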