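import Pool.Agent.Lib.MP_c86c76_al.Q.St

/-!
The geometry of the fibres follows from the checks.
-/

set_option autoImplicit false

noncomputable section

namespace Pool.Agent.MQ

open Pool.Agent.MC Finset

/-- The content of the check of the tables. -/
structure geoGr (D : Dat) : Prop where
  nX : D.nX ≤ 15
  nU : D.nU ≤ 1024
  k0 : 0 < D.nK
  kU : D.nK ≤ D.nU
  c0 : 0 < D.nC
  s0 : D.sg 0 = 0
  m0 : D.me 0 = 0
  id : ∀ l, 1 ≤ l → l < 1 + D.nX → lane (D.wh 0) l = 2 * l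
  ki : ∀ a < D.nK, D.inv a < D.nK ∧ D.inv (D.inv a) = a
  ci : ∀ a < D.nC, D.ic a < D.nC ∧ D.ic (D.ic a) = a
  g : ∀ a < D.ng, D.gOk a = true
  mu : ∀ u < D.nU, D.mu u < D.nM ∧ D.me (D.mu u) = u
  mx : ∀ l, 1 ≤ l → l < 1 + D.nX → D.mx l < D.nM ∧ D.me (D.mx l) = 2048 * l
  me : ∀ t, 1 ≤ t → t < 1 + (D.nM - 1) → D.meOk t = true
  ht : ∀ t < D.nT, ∀ x < D.nS, D.htOk t x = true

theorem geo_gr {D : Dat} (h : D.grpOk = true) : geoGr D := by
  simp only [Dat.grpOk, an_iff, isz, Nat.beq_eq, Nat.blt_eq, Nat.ble_eq, allLT_iff, allIn_iff,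
    Dat.idOk, Dat.kiOk, Dat.ciOk, Dat.muOk, Dat.mxOk] at h
  obtain ⟨h1, h2, h3, h4, h5, -, -, h8, h9, h10, -, h12, h13, h14, h15, h16, h17, h18⟩ := h
  exact ⟨h1, h2, h3, h4, h5, h8, h9, h10, h12, h13, h14, h15, h16, h17, h18⟩

theorem geo_fib {D : Dat} {b : ℕ} (h : D.fibOk b = true) : D.ob (b + 1) = D.ob b + D.sz b ∧
    D.sz b ≤ 1024 ∧ D.WW * D.ni b ≤ 65536 ∧ (∀ s < D.sz b, D.paOk b (D.ob b + s) = true) ∧
      ∀ e < D.ni b, D.inOk b e = true := by
  simp only [Dat.fibOk, an_iff, Nat.ble_eq, allLT_iff, allIn_iff] at h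
  obtain ⟨h1, h2, h3, h4, h5⟩ := h
  exact ⟨(Nat.add_sub_cancel' h1).symm, h2, h3, fun s hs => h4 _ (by omega) (by omega), h5⟩

theorem geo_pt {D : Dat} (h : GeoOk D) {j : ℕ} (hj : j < D.nP) :
    ∃ b < D.nB, ∃ s < D.sz b, j = D.ob b + s := by
  have h0 := h.off
  simp only [Dat.offOk, an_iff, isz, Nat.beq_eq] at h0
  have : ∀ n ≤ D.nB, j < D.ob n → ∃ b < n, ∃ s < D.sz b, j = D.ob b + s := fun n hn hj => by
    induction n with
    | zero => omega
    | succ n ih =>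
      rcases lt_or_ge j (D.ob n) with k | k
      · obtain ⟨b, hb, r⟩ := ih (by omega) k
        exact ⟨b, by omega, r⟩
      · have := (geo_fib (h.fib n hn)).1
        exact ⟨n, by omega, j - D.ob n, by omega, by omega⟩
  exact this _ le_rfl hj

theorem geo_t {D : Dat} {b j : ℕ} (h : D.paOk b j = true) : D.pt j < D.nT :=
  Nat.blt_eq ▸ ((an_iff _ _).1 h).1

variable {P G : Type} [Group P] [Group G] {E : Env P G} {D : Dat}

theorem geo_ev0 (X : ℕ → P) : ev X 0 = 1 := by simp [ev]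

theorem geo_el {a : ℕ} (h : a < 1024) : el E a = E.η a := by
  rw [el, Nat.div_eq_of_lt h, Nat.mod_eq_of_lt h, geo_ev0, map_one, one_mul]

theorem geo_e0 (hM : Model E D) (hW : Wrd E D) (g : geoGr D) : E.η 0 = 1 := by
  refine hW.ext _ _ fun l h1 h2 => ?_
  have := g.nX
  rw [(hM.wh 0 (g.k0.trans_le g.kU)).1 l (by omega), g.id l h1 (by omega), hW.two l (by omega),
    map_one, MulAut.one_apply]

theorem geo_sh (e0 : E.η 0 = 1) (w : ℕ) : el E (Nat.shiftLeft w 10) = E.ι (ev E.X w) := by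
  rw [el, show Nat.shiftLeft w 10 = w * 1024 from Nat.shiftLeft_eq w 10,
    Nat.mul_div_cancel _ (by norm_num), Nat.mul_mod_left, e0, mul_one]

theorem geo_kp {c : ℕ} (h : c < D.nC) : el E (D.kc c) = kp E D c := (if_pos h).symm

theorem geo_cc (hW : Wrd E D) (hG : GeoOk D) (e0 : E.η 0 = 1) {a b : ℕ} (ha : a < D.nC)
    (hb : b < D.nC) : D.mc a b < D.nC ∧ D.mc (D.ic a) (D.mc a b) = b ∧
      kp E D (D.mc a b) = kp E D a * kp E D b := by
  have h := hG.cc a ha b hb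
  simp only [Dat.cOk, an_iff, Nat.beq_eq, Nat.blt_eq] at h
  have := hW.rel _ _ _ _ _ _ _ (geo_gr hG.grp).nX h.2.2
  rw [geo_kp ha, geo_kp hb, geo_kp h.1, geo_el (a := 0) (by norm_num), e0] at this
  exact ⟨h.1, h.2.1, by simpa using this.symm⟩

theorem geo_cinv (hW : Wrd E D) (hG : GeoOk D) (e0 : E.η 0 = 1) (c : ℕ) :
    ∃ c', (kp E D c)⁻¹ = kp E D c' := by
  have g := geo_gr hG.grp
  by_cases h : c < D.nC
  · obtain ⟨h1, h2, h3⟩ := geo_cc hW hG e0 h g.c0
    have := (geo_cc hW hG e0 (g.ci c h).1 h1).2.2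
    rw [h2, h3, ← mul_assoc, right_eq_mul] at this
    exact ⟨_, inv_eq_of_mul_eq_one_left this⟩
  · exact ⟨c, by rw [kp, if_neg h, inv_one]⟩

theorem geo_sym (hW : Wrd E D) (hG : GeoOk D) (e0 : E.η 0 = 1) :
    MR.Sym D.nC D.ng (kp E D) (gs E D) fun a => (D.wt a : ℝ) := by
  have g := geo_gr hG.grp
  have k := fun a ha => g.g a ha
  simp only [Dat.gOk, an_iff, Nat.blt_eq] at k
  refine ⟨g.c0, fun M _ F k0 => ?_, fun a ha => by exact_mod_cast (k a ha).1,
    fun F h1 h2 => sum_congr rfl fun a ha => ?_⟩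
  · rcases le_or_gt D.nC k0 with h | h
    · simp only [kp, if_neg (not_lt.2 h), one_mul]
    · have hi := g.ci k0 h
      refine sum_nbij' (D.mc k0) (D.mc (D.ic k0)) (fun k hk => ?_) (fun k hk => ?_)
        (fun k hk => ?_) (fun k hk => ?_) (fun k hk => ?_)
      · exact mem_range.2 (geo_cc hW hG e0 h (mem_range.1 hk)).1
      · exact mem_range.2 (geo_cc hW hG e0 hi.1 (mem_range.1 hk)).1
      · exact (geo_cc hW hG e0 h (mem_range.1 hk)).2.1
      · have := (geo_cc hW hG e0 hi.1 (mem_range.1 hk)).2.1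
        rwa [hi.2] at this
      · rw [(geo_cc hW hG e0 h (mem_range.1 hk)).2.2]
  · obtain ⟨-, k1, k2, k3⟩ := k a (mem_range.1 ha)
    have := hW.rel _ _ _ _ _ _ _ g.nX k3
    rw [geo_kp k1, geo_kp k2, geo_el (a := 0) (by norm_num), e0, mul_one, mul_one] at this
    obtain ⟨c, e⟩ := geo_cinv hW hG e0 (bits (D.sy a) 10 1023)
    rw [show (gs E D a)⁻¹ = kp E D c * gs E D a * kp E D (Nat.land (D.sy a) 1023) by
      rw [← e, ← this, gs]
      group, h2, h1]

theorem geo_kd (c : ℕ) : kp E D c ∈ Del E D := Subgroup.subset_closure (Or.inl ⟨c, rfl⟩)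

theorem geo_me (hW : Wrd E D) (g : geoGr D) (e0 : E.η 0 = 1) :
    ∀ t < D.nM, el E (D.me t) ∈ Del E D := fun t => by
  induction t using Nat.strong_induction_on with
  | _ t ih =>
    intro ht
    rcases Nat.eq_zero_or_pos t with rfl | h0
    · rw [g.m0, geo_el (by norm_num), e0]
      exact one_mem _
    · have h := g.me t h0 (by omega)
      simp only [Dat.meOk, an_iff, Nat.blt_eq] at h
      obtain ⟨h1, h2, h3⟩ := h
      have := hW.rel _ _ _ _ _ _ _ g.nX h3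
      rw [geo_el (a := 0) (by norm_num), e0, mul_one, mul_one, mul_one] at this
      rw [← this]
      refine mul_mem (ih _ h1 (by omega)) ?_
      generalize Nat.shiftRight (D.mp t) 16 = y at h2
      replace h2 : y < D.nC + D.ng := h2
      rw [Dat.gen]
      rcases e : Nat.blt y D.nC with _ | _
      · have : ¬ y < D.nC := fun k => by simp [Nat.blt_eq.mpr k] at e
        exact Subgroup.subset_closure (Or.inr ⟨y - D.nC, Set.mem_Iio.2 (by omega), rfl⟩)
      · exact geo_kp (E := E) (Nat.blt_eq.mp e) ▸ geo_kd y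

theorem geo_mu (hW : Wrd E D) (g : geoGr D) (e0 : E.η 0 = 1) : ∀ u < D.nU, E.η u ∈ Del E D :=
  fun u hu => by
    have := geo_me hW g e0 _ (g.mu u hu).1
    rwa [(g.mu u hu).2, geo_el (hu.trans_le g.nU)] at this

theorem geo_mi (hM : Model E D) (hW : Wrd E D) (g : geoGr D) (e0 : E.η 0 = 1) (w : P) :
    E.ι w ∈ Del E D := by
  have : Subgroup.closure (Set.range E.X) ≤ (Del E D).comap E.ι := by
    refine (Subgroup.closure_le _).2 ?_
    rintro _ ⟨l, rfl⟩
    change E.ι (E.X l) ∈ Del E D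
    by_cases h : l = 0 ∨ D.nX < l
    · rw [hM.x0 l h, map_one]
      exact one_mem _
    · obtain ⟨h1, h2⟩ := g.mx l (by omega) (by omega)
      have := geo_me hW g e0 _ h1
      have n := g.nX
      rwa [h2, el, show 2048 * l / 1024 = 2 * l by omega, show 2048 * l % 1024 = 0 by omega, e0,
        mul_one, hW.two l (by omega)] at this
  exact this (hM.top ▸ Subgroup.mem_top w)

theorem geo_adj (hW : Wrd E D) (g : geoGr D) (e0 : E.η 0 = 1) {j x j2 w : ℕ} (ht : D.pt j < D.nT)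
    (hx : x < D.nS) (h : D.adj j x j2 w = true) :
    ∃ c, del E D j * sl E D x = del E D j2 * kp E D c := by
  have k := g.ht _ ht x hx
  simp only [Dat.htOk, Dat.adj, an_iff, Nat.blt_eq, Nat.beq_eq] at h k
  have e := hW.rel _ _ _ _ _ _ _ g.nX k.2.2
  rw [geo_kp k.2.1, geo_kp (show D.sc x < D.nC from Nat.mod_lt _ g.c0), geo_sh e0, hW.rv,
    h.1] at e
  refine ⟨Dat.fC (D.ht (D.pt j) x), ?_⟩
  rw [del, del, ← h.2, hW.mvs, hW.dv, map_mul, sl, mul_assoc, ← mul_assoc (sg E D _)]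
  exact (congrArg (E.ι _ * ·) e).trans (by simp only [sg, mul_assoc])

theorem geo_dl (hW : Wrd E D) (hG : GeoOk D) (e0 : E.η 0 = 1) {H : Type} [NormedAddCommGroup H]
    {f : G → H} (hf : Eqv (kp E D) f) {b : ℕ} (hb : b < D.nB) (n : ℕ) : ∀ s < D.sz b,
    D.dl (D.ob b + s) = n → √(ph f (del E D (D.ob b + s))) ≤ n * √(MR.enr D.ng (gs E D) f) := by
  have g := geo_gr hG.grp
  have p := (geo_fib (hG.fib b hb)).2.2.2.1
  induction n using Nat.strong_induction_on with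
  | _ n ih =>
    intro s hs hn
    have h := ((an_iff _ _).1 (p s hs)).2
    generalize D.ob b + s = j at h hn
    generalize D.pa j = v at h
    rcases v with _ | v
    · replace h : an (isz (D.pn j)) (isz (D.pt j)) = true := h
      simp only [an_iff, isz, Nat.beq_eq] at h
      rw [del, h.1, h.2, sg, g.s0, geo_ev0, geo_el (by norm_num), e0, map_one, mul_one, ph_one,
        Real.sqrt_zero]
      positivity
    · obtain ⟨h1, h⟩ := (an_iff _ _).1 h
      obtain ⟨h2, h⟩ := (an_iff _ _).1 h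
      obtain ⟨h3, h⟩ := (an_iff _ _).1 h
      rw [Nat.blt_eq] at h1 h2 h3
      replace h3 : D.dl (D.ob b + Nat.land v 1023) < n := hn ▸ h3
      obtain ⟨c, e⟩ := geo_adj hW g e0 (geo_t (p _ h1)) h2 h
      have k : √(ph f (sl E D (Nat.shiftRight v 10))) ≤ √(MR.enr D.ng (gs E D) f) := by
        rw [sl, hf.left]
        exact Real.sqrt_le_sqrt (single_le_sum (f := fun a => ‖f (gs E D a) - f 1‖ ^ 2)
          (fun _ _ => sq_nonneg _) (mem_range.2 (Nat.div_lt_of_lt_mul (by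
            rw [mul_comm]
            exact h2))))
      have k' : ((D.dl (D.ob b + Nat.land v 1023) : ℕ) : ℝ) + 1 ≤ n := by exact_mod_cast h3
      have := ih _ h3 _ h1 rfl
      rw [← hf.right _ c, ← e]
      refine (hf.tri _ _).trans ((add_le_add this k).trans ?_)
      nlinarith [Real.sqrt_nonneg (MR.enr D.ng (gs E D) f)]

theorem geoSt : GeoSt := fun P G _ _ E D hM hW hG => by
  have g := geo_gr hG.grp
  have e0 := geo_e0 hM hW g
  have kmul : ∀ a < D.nK, ∀ b < D.nK, D.mul a b < D.nK ∧ D.mul (D.inv a) (D.mul a b) = b ∧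
      E.η (D.mul a b) = E.η a * E.η b := fun a ha b hb => by
    have h := hG.kk a ha b hb
    have n := g.kU.trans g.nU
    simp only [Dat.kOk, an_iff, Nat.beq_eq, Nat.blt_eq] at h
    have := hW.rel _ _ _ _ _ _ _ g.nX h.2.2
    rw [geo_el (ha.trans_le n), geo_el (hb.trans_le n), geo_el (h.1.trans_le n),
      geo_el (a := 0) (by norm_num), e0] at this
    exact ⟨h.1, h.2.1, by simpa using this.symm⟩
  have pt : ∀ j < D.nP, D.pt j < D.nT := fun j hj => by
    obtain ⟨b, hb, s, hs, rfl⟩ := geo_pt hG hj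
    exact geo_t ((geo_fib (hG.fib b hb)).2.2.2.1 s hs)
  refine ⟨e0, g.k0, g.kU, kmul, fun a ha => ⟨(g.ki a ha).1, (g.ki a ha).2, ?_⟩, geo_sym hW hG e0,
    geo_cinv hW hG e0, geo_mi hM hW g e0, geo_mu hW g e0, fun j hj => ?_, fun b hb => ?_, ?_,
    fun u hu j hj => ?_, fun b hb e he => ?_, fun H _ f hf j hj => ?_⟩
  · obtain ⟨h1, h2, h3⟩ := kmul a ha 0 g.k0
    have := (kmul _ (g.ki a ha).1 _ h1).2.2
    rw [h2, h3, e0, mul_one] at this
    exact eq_inv_of_mul_eq_one_left this.symm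
  · have h := hG.et 0 (g.k0.trans_le g.kU) _ (pt j hj)
    simp only [Dat.etOk, Dat.rel, Dat.uOk, an_iff, Nat.blt_eq] at h
    have k := h.2.2.2.2.1
    rw [show 1023 = 2 ^ 10 - 1 from rfl, land_eq] at k
    exact mul_mem (geo_mi hM hW g e0 _) (mul_mem (geo_mi hM hW g e0 _) (geo_mu hW g e0 _ k))
  · obtain ⟨h1, h2, h3, -⟩ := geo_fib (hG.fib b hb)
    exact ⟨h1, h2, h3⟩
  · have h0 := hG.off
    simp only [Dat.offOk, an_iff, isz, Nat.beq_eq] at h0
    exact h0.1
  · have h := hG.et u hu _ (pt j hj)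
    have k := hG.am u hu j hj
    simp only [Dat.etOk, Dat.amOk, an_iff, Nat.blt_eq, Nat.beq_eq] at h k
    have e := hW.rel _ _ _ _ _ _ _ g.nX h.2.2
    rw [geo_kp h.2.1, geo_sh e0, geo_el (hu.trans_le g.nU), geo_el (a := 0) (by norm_num), e0,
      mul_one] at e
    refine ⟨Dat.fC (D.et u (D.pt j)), ?_⟩
    rw [← k.2, k.1, hW.mvs, hW.si (E.ρ (E.η u)).toMonoidHom _
      (hW.tb _ _ (hM.wh u hu).1), mul_assoc, sg, ← e, del, sg, mul_inv_rev, inv_inv, map_mul,
      map_inv, show E.ι ((E.ρ (E.η u)).toMonoidHom _) = _ from (hW.cj _ _).symm]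
    group
  · obtain ⟨-, -, -, p, q⟩ := geo_fib (hG.fib b hb)
    have h := q e he
    simp only [Dat.inOk, an_iff, Nat.blt_eq, allLT_iff] at h
    exact ⟨h.1, fun x hx => ⟨(h.2 x hx).1, geo_adj hW g e0 (geo_t (p _ h.1)) hx (h.2 x hx).2⟩⟩
  · obtain ⟨b, hb, s, hs, rfl⟩ := geo_pt hG hj
    have := geo_dl hW hG e0 hf hb _ s hs rfl
    rwa [ph, Real.sqrt_sq (norm_nonneg _)] at this

end Pool.Agent.MQ
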