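import Pool.Agent.Lib.MP_c86c76_al.Q.St
import Pool.Agent.Lib.MP_c86c76_al.C.SosA

/-!
The packed arithmetic of the sum of squares of a relative certificate.
-/

set_option autoImplicit false

noncomputable section

namespace Pool.Agent.MQ

open Pool.Agent.MC Finset
open Pool.Agent.MC.SA (P P_pk P_congr P_add P_sub P_mul P_sum P_zero P_natsub P_toNat P_lane
  and_split sum_shift)

theorem lan_mask (n x k : ℕ) (hk : k ≤ 96) : x &&& (on n * (2 ^ k - 1)) =
    pk 96 n fun l => x / 2 ^ (96 * l) % 2 ^ k := by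
  have h1 : on n * (2 ^ k - 1) = pk 96 n fun _ => 2 ^ k - 1 := by
    rw [on, pk_eq, pk_eq, sum_mul]
    exact sum_congr rfl fun l _ => by rw [mul_one]
  have h2 : 2 ^ k - 1 < 2 ^ 96 :=
    lt_of_lt_of_le (Nat.sub_lt (by positivity) one_pos) (Nat.pow_le_pow_right (by norm_num) hk)
  rw [h1]
  clear h1
  induction n with
  | zero => exact Nat.and_zero x
  | succ n ih =>
    rw [pk_succ, pk_succ, and_split _ _ _ _ (pk_lt 96 n _ fun _ _ => h2), ih,
      Nat.and_two_pow_sub_one_eq_mod]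

theorem lan_abs (n : ℕ) (F : ℕ → ℤ) (h : ∀ l < n, |F l| < 2 ^ 96) : |P n F| < 2 ^ (96 * n) := by
  induction n with
  | zero => simp [P]
  | succ n ih =>
    have h1 := ih fun l hl => h l (by omega)
    have h2 : |F n| + 1 ≤ 2 ^ 96 := h n (by omega)
    have h3 : (0 : ℤ) < 2 ^ (96 * n) := by positivity
    have h4 : P (n + 1) F = P n F + 2 ^ (96 * n) * F n := sum_range_succ _ _
    have h5 := abs_add_le (P n F) (2 ^ (96 * n) * F n)
    rw [abs_mul, abs_of_pos h3] at h5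
    rw [h4, mul_add, mul_one, pow_add]
    have := mul_le_mul_of_nonneg_left h2 h3.le
    nlinarith

theorem lan_zero (n : ℕ) (F : ℕ → ℤ) (h : ∀ l < n, |F l| < 2 ^ 96) (h0 : P n F = 0) :
    ∀ l < n, F l = 0 := by
  induction n with
  | zero => omega
  | succ n ih =>
    have h1 := lan_abs n F fun l hl => h l (by omega)
    have h3 : (0 : ℤ) < 2 ^ (96 * n) := by positivity
    have h4 : P (n + 1) F = P n F + 2 ^ (96 * n) * F n := sum_range_succ _ _
    have h5 : F n = 0 := by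
      have h6 : P n F = -(2 ^ (96 * n) * F n) := by omega
      rw [h6, abs_neg, abs_mul, abs_of_pos h3] at h1
      have h7 : |F n| < 1 := lt_of_mul_lt_mul_left (by rwa [mul_one]) h3.le
      exact Int.abs_lt_one_iff.1 h7
    intro l hl
    rcases Nat.lt_succ_iff_lt_or_eq.1 hl with h6 | rfl
    · exact ih (fun l hl => h l (by omega)) (by rw [h4, h5, mul_zero, add_zero] at h0; exact h0) l h6
    · exact h5

theorem lan_app (n m : ℕ) (F G : ℕ → ℤ) : P n F + 2 ^ (96 * n) * P m G =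
    P (n + m) fun l => if l < n then F l else G (l - n) := by
  rw [P, P, P, sum_range_add, mul_sum]
  congr 1
  · exact sum_congr rfl fun l hl => by rw [if_pos (mem_range.1 hl)]
  · exact sum_congr rfl fun l _ => by
      rw [if_neg (by omega), Nat.add_sub_cancel_left, mul_add, pow_add, mul_assoc]

theorem lan_cut {n N : ℕ} (h : n ≤ N) (F : ℕ → ℤ) :
    P n F = P N fun l => if l < n then F l else 0 := by
  obtain ⟨m, rfl⟩ := Nat.exists_eq_add_of_le h
  rw [← lan_app n m F fun _ => 0, P_zero, mul_zero, add_zero]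

theorem lan_md {R n N : ℕ} {F : ℕ → ℤ} (hn : n ≤ N) (h : (R : ℤ) = P N F) (h0 : ∀ l < N, 0 ≤ F l)
    (h1 : ∀ l < N, F l < 2 ^ 96) : (md R (96 * n) : ℤ) = P N fun l => if l < n then F l else 0 := by
  rw [← lan_cut hn]
  obtain ⟨m, rfl⟩ := Nat.exists_eq_add_of_le hn
  have h2 : P (n + m) F = P n F + 2 ^ (96 * n) * P m fun l => F (n + l) := by
    rw [lan_app]
    refine P_congr fun l _ => ?_
    split_ifs with h3
    · rfl
    · rw [Nat.add_sub_cancel' (by omega)]
  have h3 : 0 ≤ P n F :=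
    sum_nonneg fun l hl => mul_nonneg (by positivity) (h0 l (by have := mem_range.1 hl; omega))
  have h4 := lan_abs n F fun l hl => by rw [abs_of_nonneg (h0 l (by omega))]; exact h1 l (by omega)
  rw [abs_of_nonneg h3] at h4
  show ((R % (1 <<< (96 * n)) : ℕ) : ℤ) = _
  rw [Nat.one_shiftLeft, Int.natCast_mod, h, h2, Nat.cast_pow, Nat.cast_ofNat,
    Int.add_mul_emod_self_left, Int.emod_eq_of_lt h3 h4]

theorem lan_one {i N : ℕ} (hi : i < N) (t : ℤ) :
    t * 2 ^ (96 * i) = P N fun l => if l = i then t else 0 := by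
  rw [P, sum_eq_single i (fun l _ hl => by rw [if_neg hl, mul_zero])
    (fun h => absurd (mem_range.2 hi) h), if_pos rfl, mul_comm]

theorem lan_on (n : ℕ) : (on n : ℤ) = P n fun _ => 1 := P_pk _ _

/-- Digit `u` of lane `l`. -/
def lanD (h l u : ℕ) : ℕ := h / 2 ^ (96 * l + 32 * u) % 2 ^ 30

theorem lanD_lt (h l u : ℕ) : lanD h l u < 2 ^ 30 := Nat.mod_lt _ (by positivity)

theorem lanD_eq (h l u : ℕ) : lanD h l u = h / 2 ^ (96 * l) / 2 ^ (32 * u) % 2 ^ 30 := by
  rw [lanD, Nat.div_div_eq_div_mul, ← pow_add]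

theorem lan_l96 (h i : ℕ) : l96 h i = h / 2 ^ (96 * i) % 2 ^ 96 := bits_eq _ _ 96

variable (D : Dat) (b i : ℕ)

theorem lan_mk (h u : ℕ) :
    (bits h (32 * u) (D.mk3 b) : ℤ) = P (D.ob (b + 1)) fun l => lanD h l u := by
  have h2 : bits h (32 * u) (D.mk3 b) =
      (h / 2 ^ (32 * u)) &&& (on (D.ob (b + 1)) * (2 ^ 30 - 1)) := by
    rw [← Nat.shiftRight_eq_div_pow]; rfl
  rw [h2, lan_mask _ _ _ (by norm_num), P_pk]
  exact P_congr fun l _ => by rw [lanD, Nat.div_div_eq_div_mul, ← pow_add, add_comm]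

theorem lan_tri (h1 h2 : ℕ) : (Dat.tri (l96 h1 i) h2 (D.mk3 b) : ℤ) =
    P (D.ob (b + 1)) fun l => ∑ u ∈ range 3, (lanD h1 i u : ℤ) * lanD h2 l u := by
  have e0 : Nat.land (l96 h1 i) 1073741823 = lanD h1 i 0 := by
    rw [show 1073741823 = 2 ^ 30 - 1 from rfl, land_eq, lan_l96, lanD_eq]; omega
  have e1 : bits (l96 h1 i) 32 1073741823 = lanD h1 i 1 := by
    rw [show 1073741823 = 2 ^ 30 - 1 from rfl, bits_eq, lan_l96, lanD_eq]; omega
  have e2 : bits (l96 h1 i) 64 1073741823 = lanD h1 i 2 := by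
    rw [show 1073741823 = 2 ^ 30 - 1 from rfl, bits_eq, lan_l96, lanD_eq]; omega
  rw [Dat.tri, e0, e1, e2]
  show ((_ * bits h2 (32 * 0) _ + _ * bits h2 (32 * 1) _ + _ * bits h2 (32 * 2) _ : ℕ) : ℤ) = _
  rw [Nat.cast_add, Nat.cast_add, Nat.cast_mul, Nat.cast_mul, Nat.cast_mul, lan_mk, lan_mk, lan_mk,
    P_mul, P_mul, P_mul, P_add, P_add]
  exact P_congr fun l _ => by simp [sum_range_succ]

theorem lan_dot (l1 l2 : List ℕ) (hl : l1.length = l2.length) : (D.dot b i l1 l2 : ℤ) =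
    P (D.ob (b + 1)) fun l => ∑ q ∈ range l1.length, ∑ u ∈ range 3,
      (lanD (l1.getD q 0) i u : ℤ) * lanD (l2.getD q 0) l u := by
  induction l1 generalizing l2 with
  | nil => exact P_zero.symm
  | cons h1 t1 ih =>
    rcases l2 with _ | ⟨h2, t2⟩
    · simp at hl
    show ((Dat.tri (l96 h1 i) h2 (D.mk3 b) + D.dot b i t1 t2 : ℕ) : ℤ) = _
    rw [Nat.cast_add, lan_tri, ih t2 (by simpa using hl), P_add]
    exact P_congr fun l _ => by rw [List.length_cons, sum_range_succ' _ t1.length, add_comm]; rfl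

theorem lan_smm (l1 : List ℕ) : (D.smm b l1 : ℤ) = P (D.ob (b + 1)) fun l =>
    ∑ q ∈ range l1.length, ∑ u ∈ range 3, (lanD (l1.getD q 0) l u : ℤ) := by
  induction l1 with
  | nil => exact P_zero.symm
  | cons h t ih =>
    show ((bits h (32 * 0) _ + bits h (32 * 1) _ + bits h (32 * 2) _ + D.smm b t : ℕ) : ℤ) = _
    rw [Nat.cast_add, Nat.cast_add, Nat.cast_add, lan_mk, lan_mk, lan_mk, ih, P_add, P_add, P_add]
    refine P_congr fun l _ => ?_
    rw [List.length_cons, sum_range_succ' _ t.length, add_comm]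
    simp [sum_range_succ]

theorem lan_col (y a : ℕ) : D.col y a b = (D.LL y a).drop (D.dr y b) := by
  rw [Dat.col]
  induction D.dr y b with
  | zero => rfl
  | succ n ih =>
    show List.rec (motive := fun _ => List ℕ) [] (fun _ t _ => t) (Cer.drp n _) = _
    rw [ih, ← List.tail_drop]
    cases List.drop n (D.LL y a) <;> rfl

theorem lan_get (y a q : ℕ) : (D.col y a b).getD q 0 = (D.LL y a).getD (D.dr y b + q) 0 := by
  rw [lan_col, List.getD_eq_getElem?_getD, List.getD_eq_getElem?_getD, List.getElem?_drop]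

/-- The Gram entry of the lanes `i` and `l`. -/
def lanM (y a a' l : ℕ) : ℤ := ∑ q ∈ range (D.nG y - D.dr y b), ∑ u ∈ range 3,
  ((lanD ((D.col y a b).getD q 0) i u : ℤ) - 2 ^ 29) * (lanD ((D.col y a' b).getD q 0) l u - 2 ^ 29)

/-- The sign of a code. -/
def lanS (w : ℕ) : ℤ := if w % 2 = 0 then 1 else -1

variable {D b i}

theorem lan_lOk {y : ℕ} (h : D.lOk y = true) : D.nG y ≤ 2730 ∧
    (∀ a < D.db y, ∀ b, (D.col y a b).length = D.nG y - D.dr y b) ∧
      ∀ c b, c ≤ b → b < D.nB → D.dr y c ≤ D.dr y b := by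
  simp only [Dat.lOk, an_iff, allLT_iff, Nat.beq_eq, Nat.ble_eq] at h
  refine ⟨h.1, fun a ha b => by rw [lan_col, List.length_drop, h.2.1 a ha], fun c b hc => ?_⟩
  induction b, hc using Nat.le_induction with
  | base => exact fun _ => le_rfl
  | succ j _ ih => exact fun h1 => (ih (by omega)).trans (h.2.2 j (by omega)).1

theorem lanM_bd {y : ℕ} (h : D.nG y ≤ 2730) (a a' l : ℕ) : |lanM D b i y a a' l| ≤ 2 ^ 71 := by
  have hL : ∀ x l u, |(lanD x l u : ℤ) - 2 ^ 29| ≤ 2 ^ 29 := fun x l u => by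
    have := lanD_lt x l u
    rw [abs_le]; omega
  refine (abs_sum_le_sum_abs _ _).trans ((sum_le_card_nsmul _ _ (3 * 2 ^ 58) fun p _ =>
    (abs_sum_le_sum_abs _ _).trans ((sum_le_card_nsmul _ _ (2 ^ 58) fun u _ => ?_).trans ?_)).trans ?_)
  · rw [abs_mul]
    exact (mul_le_mul (hL _ _ _) (hL _ _ _) (abs_nonneg _) (by norm_num)).trans (by norm_num)
  · simp
  · rw [card_range, nsmul_eq_mul]; omega

theorem lanM_eq {y c : ℕ} (h : D.dr y c ≤ D.dr y b) (a s a' s' : ℕ) :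
    Mz D y a b s a' c s' = lanM D b (D.ob b + s) y a a' (D.ob c + s') := by
  rw [Mz, sum_shift _ (D.dr y b) _ fun p hp => sum_eq_zero fun u _ => by
    rw [Lz, if_neg (by omega), zero_mul]]
  refine sum_congr rfl fun q _ => sum_congr rfl fun u _ => ?_
  rw [Lz, Lz, if_pos (by omega), if_pos (by omega), lan_get, lan_get]
  rfl

theorem lan_wq {y a a' : ℕ} (h : D.lOk y = true) (hi : i < D.ob (b + 1)) (ha : a < D.db y)
    (ha' : a' < D.db y) :
    (D.wq b i y a a' : ℤ) = P (D.ob (b + 1)) fun l => lanM D b i y a a' l + 2 ^ 72 := by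
  obtain ⟨h1, h2, -⟩ := lan_lOk h
  have hs : (l96 (D.scl y a b) i : ℤ) = ∑ q ∈ range (D.nG y - D.dr y b), ∑ u ∈ range 3,
      (lanD ((D.col y a b).getD q 0) i u : ℤ) := by
    have h3 := lan_smm D b (D.col y a b)
    rw [h2 a ha] at h3
    refine P_lane h3 (fun l _ => by positivity) (fun l _ => ?_) hi
    refine lt_of_le_of_lt (sum_le_card_nsmul _ _ (3 * 2 ^ 30) fun q _ =>
      (sum_le_card_nsmul _ _ (2 ^ 30) fun u _ => ?_).trans (by simp)) ?_
    · exact_mod_cast (lanD_lt _ _ _).le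
    · rw [card_range, nsmul_eq_mul]; omega
  refine P_natsub ?_ fun l _ => by have := abs_le.1 (lanM_bd (b := b) (i := i) h1 a a' l); omega
  show ((D.dot b i _ _ + ((D.nG y - D.dr y b) * 864691128455135232 + 4722366482869645213696) *
    on (D.ob (b + 1)) : ℕ) : ℤ) - ((536870912 * (D.smm b (D.col y a' b) +
      l96 (D.scl y a b) i * on (D.ob (b + 1))) : ℕ) : ℤ) = _
  rw [Nat.cast_add, Nat.cast_mul, Nat.cast_mul, Nat.cast_add (D.smm _ _),
    Nat.cast_mul, hs, lan_dot _ _ _ _ _ (by rw [h2 a ha, h2 a' ha']), lan_smm, lan_on, P_mul, P_mul,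
    P_add, P_add, P_mul, P_sub, h2 a ha, h2 a' ha']
  refine P_congr fun l _ => ?_
  simp only [lanM, sub_mul, mul_sub, sum_sub_distrib, ← mul_sum, ← sum_mul, sum_const, card_range,
    nsmul_eq_mul]
  push_cast
  ring

theorem lan_ws {y a a' : ℕ} (h : D.lOk y = true) (hi : i < D.ob (b + 1)) (ha : a < D.db y)
    (ha' : a' < D.db y) (w : ℕ) : (D.ws b i y a a' w : ℤ) = P (D.ob (b + 1)) fun l =>
      ((w / 2 : ℕ) : ℤ) * (lanS w * lanM D b i y a a' l + 2 ^ 72) := by
  have h1 : Nat.shiftRight w 1 = w / 2 := Nat.shiftRight_eq_div_pow w 1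
  have h2 : Nat.land w 1 = w % 2 := land_eq w 1
  have h3 := lan_wq h hi ha ha'
  rw [Dat.ws, h1, h2, ← P_mul, lanS]
  refine (Nat.cast_mul _ _).trans (congrArg _ ?_)
  rcases Nat.mod_two_eq_zero_or_one w with h4 | h4 <;> rw [h4]
  · rw [if_pos rfl]
    exact h3.trans (P_congr fun l _ => by rw [one_mul])
  · rw [if_neg one_ne_zero]
    refine P_natsub ?_ fun l _ => by
      have := abs_le.1 (lanM_bd (b := b) (i := i) (lan_lOk h).1 a a' l); omega
    show ((9444732965739290427392 * on (D.ob (b + 1)) : ℕ) : ℤ) - D.wq b i y a a' = _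
    rw [Nat.cast_mul, h3, lan_on, P_mul, P_sub]
    exact P_congr fun l _ => by push_cast; ring

theorem lan_w {y k a a' w : ℕ} (h : D.wOk1 y k a a' w = true) :
    Wz D y k a a' = ((w / 2 : ℕ) : ℤ) * lanS w := by
  have h1 : Nat.shiftRight w 1 = w / 2 := Nat.shiftRight_eq_div_pow w 1
  have h2 : Nat.land w 1 = w % 2 := land_eq w 1
  rw [Dat.wOk1, h1, h2, sumLT_eq, sumLT_eq] at h
  have h3 : ∑ x ∈ range D.nK, D.tt y x a * D.tt y (D.mul x k) a' + D.nK * 1048576 + w % 2 * (w / 2) =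
      1024 * ∑ x ∈ range D.nK, (D.tt y x a + D.tt y (D.mul x k) a') + (1 - w % 2) * (w / 2) :=
    Nat.eq_of_beq_eq_true h
  have h4 : Wz D y k a a' = ((∑ x ∈ range D.nK, D.tt y x a * D.tt y (D.mul x k) a' : ℕ) : ℤ) +
      D.nK * 1048576 - 1024 * ((∑ x ∈ range D.nK, (D.tt y x a + D.tt y (D.mul x k) a') : ℕ) : ℤ) := by
    simp only [Wz, Tz, sub_mul, mul_sub, sum_sub_distrib, ← mul_sum, ← sum_mul, sum_const, card_range,
      nsmul_eq_mul, sum_add_distrib]
    push_cast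
    ring
  rw [h4, lanS]
  generalize ∑ x ∈ range D.nK, D.tt y x a * D.tt y (D.mul x k) a' = A at h3
  generalize ∑ x ∈ range D.nK, (D.tt y x a + D.tt y (D.mul x k) a') = B at h3
  rcases Nat.mod_two_eq_zero_or_one w with h5 | h5 <;> rw [h5] at h3 ⊢
  · rw [if_pos rfl]; omega
  · rw [if_neg one_ne_zero]; omega

theorem lan_s3 (F : ℕ → ℕ → ℕ → ℕ) : (D.s3 F : ℤ) =
    ∑ y ∈ range D.nY, ∑ a ∈ range (D.db y), ∑ a' ∈ range (D.db y), (F y a a' : ℤ) := by
  simp only [Dat.s3, sumLT_eq, Nat.cast_sum]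

variable (D b i) in
/-- The sum of squares on the lane `l`. -/
def lanC (k l : ℕ) : ℤ := ∑ y ∈ range D.nY, ∑ a ∈ range (D.db y), ∑ a' ∈ range (D.db y),
  ((D.ww y k a a' / 2 : ℕ) : ℤ) * (lanS (D.ww y k a a') * lanM D b i y a a' l)

theorem lan_cn (k : ℕ) (c : ℤ) : D.cn k * c =
    ∑ y ∈ range D.nY, ∑ a ∈ range (D.db y), ∑ a' ∈ range (D.db y),
      ((D.ww y k a a' / 2 : ℕ) : ℤ) * c := by
  rw [Dat.cn, lan_s3]
  simp only [sum_mul]
  refine sum_congr rfl fun y _ => sum_congr rfl fun a _ => sum_congr rfl fun a' _ => ?_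
  rw [show Nat.shiftRight (D.ww y k a a') 1 = D.ww y k a a' / 2 from Nat.shiftRight_eq_div_pow _ 1]

theorem lan_mrow (h : ∀ y < D.nY, D.lOk y = true) (hi : i < D.ob (b + 1)) (k : ℕ) :
    (D.mrow b i k : ℤ) = P (D.ob (b + 1)) fun l => lanC D b i k l + D.cn k * 2 ^ 72 := by
  simp only [Dat.mrow, lan_s3, lanC, lan_cn, ← sum_add_distrib, ← mul_add, ← P_sum]
  exact sum_congr rfl fun y hy => sum_congr rfl fun a ha => sum_congr rfl fun a' ha' =>
    lan_ws (h y (mem_range.1 hy)) hi (mem_range.1 ha) (mem_range.1 ha') _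

theorem lanC_bd (h : ∀ y < D.nY, D.lOk y = true) (k l : ℕ) :
    |lanC D b i k l| ≤ D.cn k * 2 ^ 71 := by
  rw [lan_cn]
  refine (abs_sum_le_sum_abs _ _).trans (sum_le_sum fun y hy =>
    (abs_sum_le_sum_abs _ _).trans (sum_le_sum fun a _ =>
      (abs_sum_le_sum_abs _ _).trans (sum_le_sum fun a' _ => ?_)))
  have h1 : |lanS (D.ww y k a a')| = 1 := by rw [lanS]; split_ifs <;> simp
  rw [abs_mul, abs_mul, h1, one_mul, abs_of_nonneg (by positivity)]
  exact mul_le_mul_of_nonneg_left (lanM_bd (lan_lOk (h y (mem_range.1 hy))).1 _ _ _) (by positivity)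

theorem lan_mono (hS : Siz D) {c m : ℕ} (hc : c ≤ m) (hm : m ≤ D.nB) : D.ob c ≤ D.ob m := by
  induction m, hc using Nat.le_induction with
  | base => exact le_rfl
  | succ j _ ih => have := (hS.ob j (by omega)).1; have := ih (by omega); omega

theorem lan_long (hS : Siz D) (hY : Yn D) (hb : b < D.nB) (k : ℕ) {s : ℕ} (hs : s < D.sz b)
    (m : ℕ) (hm : m ≤ b + 1) : ∃ Y : ℕ → ℤ,
    ((∑ c ∈ range m, D.yn b k c s <<< (96 * D.ob c) : ℕ) : ℤ) = P (D.ob m) (fun l => Y l + 2 ^ 50) ∧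
      (∀ l < D.ob m, |Y l| < 2 ^ 50) ∧ ∀ c < m, ∀ s' < D.sz c, Y (D.ob c + s') = Yz D b k c s s' := by
  induction m with
  | zero => exact ⟨fun _ => 0, by rw [hS.o0]; rfl, by rw [hS.o0]; omega, by omega⟩
  | succ m ih =>
    obtain ⟨Y, h1, h2, h3⟩ := ih (by omega)
    obtain ⟨h4, h5⟩ := hY b hb m (by omega) k s hs
    have h6 := (hS.ob m (by omega)).1
    refine ⟨fun l => if l < D.ob m then Y l else Yz D b k m s (l - D.ob m), ?_, fun l hl => ?_,
      fun c hc s' hs' => ?_⟩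
    · rw [sum_range_succ, Nat.cast_add, h1, Nat.shiftLeft_eq, h5, Nat.cast_mul, P_pk, mul_comm,
        Nat.cast_pow, Nat.cast_ofNat, lan_app, h6]
      refine P_congr fun l hl => ?_
      beta_reduce
      split_ifs with h7
      · rfl
      · have := abs_lt.1 (h4 (l - D.ob m) (by omega))
        exact Int.toNat_of_nonneg (by omega)
    · beta_reduce
      split_ifs with h7
      exacts [h2 l h7, h4 _ (by omega)]
    · rcases Nat.lt_succ_iff_lt_or_eq.1 hc with h7 | rfl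
      · have := (hS.ob c (by omega)).1
        have := lan_mono hS (show c + 1 ≤ m from h7) (by omega)
        exact (if_pos (by omega)).trans (h3 c h7 s' hs')
      · exact (if_neg (by omega)).trans (by rw [Nat.add_sub_cancel_left])

theorem lanSt : LanSt := by
  intro D hS hY hO b hb s hs k hk c hc s' hs'
  have hob := (hS.ob b hb).1
  have hi : D.ob b + s < D.ob (b + 1) := by omega
  have hf := hO.fin
  have hw := hO.w k hk
  have hr := hO.row b hb s hs
  simp only [Dat.finOk, an_iff, Nat.ble_eq] at hf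
  simp only [Dat.wOk, an_iff, allLT_iff, Nat.ble_eq] at hw
  obtain ⟨hsh, hhh, htau, -⟩ := hf
  obtain ⟨hcn, hw⟩ := hw
  rw [Dat.rowOk, fc_eq, allLT_iff] at hr
  obtain ⟨Y, hY1, hY2, hY3⟩ := lan_long hS hY hb k hs (b + 1) le_rfl
  have hR := lan_mrow hO.l hi k
  have hC := fun l => abs_le.1 (lanC_bd (b := b) (i := D.ob b + s) hO.l k l)
  have hM := lan_md (show D.ob b ≤ D.ob (b + 1) by omega) hR (fun l _ => by have := hC l; omega)
    fun l _ => by have := hC l; omega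
  have hdg : (D.dg (D.ob b + s) k : ℤ) = P (D.ob (b + 1)) fun l =>
      if l = D.ob b + s then (if k = 0 then (D.tau : ℤ) else 0) else 0 := by
    rw [← lan_one hi]
    rcases k with _ | k
    · show ((D.tau <<< (96 * (D.ob b + s)) : ℕ) : ℤ) = _
      rw [Nat.shiftLeft_eq, if_pos rfl]; push_cast; rfl
    · rw [if_neg k.succ_ne_zero, zero_mul]; rfl
  obtain ⟨h1, h2⟩ := (an_iff _ _).1 (hr k hk)
  generalize hP : Nat.add (Nat.add (Nat.shiftLeft (D.ylong b k s) D.sh) _) _ = P0 at h1 h2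
  generalize hQ : Nat.add (Nat.add (D.mrow b _ k) _) _ = Q0 at h1 h2
  have h3 : P0 - Q0 = (P0 - Q0) &&& (on (D.ob (b + 1)) * (2 ^ (D.hh + 1) - 1)) := by
    rw [pow_succ', ← Nat.shiftLeft_eq]
    exact Nat.eq_of_beq_eq_true h2
  rw [lan_mask _ _ _ (by omega)] at h3
  obtain ⟨T, hT1, h4⟩ : ∃ T : ℕ → ℕ, (∀ l, (T l : ℤ) < 2 * 2 ^ D.hh) ∧
      (P0 : ℤ) - Q0 = P (D.ob (b + 1)) fun l => T l := by
    refine ⟨_, fun l => ?_, by rw [← Nat.cast_sub (Nat.le_of_ble_eq_true h1), h3, P_pk]⟩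
    rw [← pow_succ']
    exact_mod_cast Nat.mod_lt _ (by positivity)
  have hP1 : P0 = (∑ c ∈ range (b + 1), D.yn b k c s <<< (96 * D.ob c)) <<< D.sh +
      D.dg (D.ob b + s) k + (on (D.ob (b + 1)) <<< D.hh +
        D.cn k * 4722366482869645213696 * (on (D.ob (b + 1)) + on (D.ob b))) := by
    rw [← hP, Dat.ylong, sumLT_eq]; rfl
  have hQ1 : Q0 = D.mrow b (D.ob b + s) k + md (D.mrow b (D.ob b + s) k) (96 * D.ob b) +
      on (D.ob (b + 1)) <<< (50 + D.sh) := hQ.symm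
  have h5 : P (D.ob (b + 1)) (fun l => 2 ^ D.sh * Y l +
      (if l = D.ob b + s then (if k = 0 then (D.tau : ℤ) else 0) else 0) -
      (if l < D.ob b then 2 else 1) * lanC D b (D.ob b + s) k l + 2 ^ D.hh - T l) = 0 := by
    have h6 := sub_eq_zero.2 h4
    rw [hP1, hQ1, Nat.shiftLeft_eq, Nat.shiftLeft_eq, Nat.shiftLeft_eq] at h6
    simp only [Nat.cast_add, Nat.cast_mul] at h6
    rw [hY1, hdg, hM, hR, lan_on, lan_on, lan_cut (show D.ob b ≤ D.ob (b + 1) by omega) fun _ => 1,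
      mul_comm (P _ _), mul_comm (P _ _), mul_comm (P _ _)] at h6
    simp only [P_mul, P_add, P_sub] at h6
    refine (P_congr fun l _ => ?_).trans h6
    push_cast
    split_ifs <;> ring
  have hp1 : (2 : ℤ) ^ D.sh ≤ 2 ^ 40 := pow_le_pow_right₀ (by norm_num) hsh
  have hp2 : (2 : ℤ) ^ D.hh ≤ 2 ^ 90 := pow_le_pow_right₀ (by norm_num) hhh
  have hp3 : (0 : ℤ) < 2 ^ D.hh := by positivity
  have hl : D.ob c + s' < D.ob (c + 1) := by have := (hS.ob c (by omega)).1; omega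
  have hl1 := lan_mono hS (show c + 1 ≤ b + 1 by omega) hb
  have h7 := lan_zero _ _ (fun l hl => by
    have e1 : |2 ^ D.sh * Y l| ≤ 2 ^ 40 * 2 ^ 50 := by
      rw [abs_mul, abs_of_pos (by positivity)]
      exact mul_le_mul hp1 (hY2 l hl).le (abs_nonneg _) (by norm_num)
    have e2 := abs_le.1 e1
    have e3 := hC l
    have e4 := hT1 l
    rw [abs_lt]
    split_ifs <;> omega) h5 (D.ob c + s') (by omega)
  have h8 : Cz D b s k c s' = lanC D b (D.ob b + s) k (D.ob c + s') :=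
    sum_congr rfl fun y hy => sum_congr rfl fun a ha => sum_congr rfl fun a' ha' => by
      rw [lan_w (hw y (mem_range.1 hy) a (mem_range.1 ha) a' (mem_range.1 ha')),
        lanM_eq ((lan_lOk (hO.l y (mem_range.1 hy))).2.2 c b hc hb), mul_assoc]
  rw [hY3 c (by omega) s' hs'] at h7
  have h9 := hT1 (D.ob c + s')
  rw [h8, abs_le]
  rcases hc.lt_or_eq with h10 | rfl
  · have := lan_mono hS (show c + 1 ≤ b from h10) hb.le
    rw [if_neg (by omega), if_pos (by omega)] at h7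
    rw [if_neg (by omega), if_neg (by omega)]
    omega
  · rw [if_neg (show ¬ D.ob c + s' < D.ob c by omega)] at h7
    rw [if_pos rfl]
    split_ifs at h7 ⊢ <;> omega

end Pool.Agent.MQ
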