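import Pool.Agent.Lib.MP_c86c76_al.Q.St
import Pool.Agent.Lib.MP_c86c76_al.C.Can
import Pool.Agent.Lib.MP_c86c76_al.C.SosA

/-!
The harmonic rows and the balance of the multipliers.
-/

set_option autoImplicit false

noncomputable section

namespace Pool.Agent.MQ

open Pool.Agent.MC Finset

theorem row_pz (D : Dat) {b e : ℕ} (h1 : D.it b e < D.sz b) (h2 : ∀ x < D.nS, D.nb b e x < D.sz b)
    (F : ℕ → ℝ) : ∑ s ∈ range (D.sz b), (pz D b e s : ℝ) * F s =
      ∑ x ∈ range D.nS, (D.wt (x / D.nC) : ℝ) * (F (D.nb b e x) - F (D.it b e)) := by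
  have hW : (D.WW : ℝ) = ∑ x ∈ range D.nS, (D.wt (x / D.nC) : ℝ) := by
    rw [Dat.WW, sumLT_eq, Nat.cast_sum]; rfl
  simp only [pz, Int.cast_sub, Int.cast_sum, sub_mul, sum_sub_distrib, mul_sub, sum_mul,
    apply_ite (Int.cast : ℤ → ℝ), Int.cast_natCast, Int.cast_zero, ite_mul, zero_mul]
  rw [sum_comm, sum_ite_eq, if_pos (mem_range.2 h1), hW, sum_mul]
  congr 1
  refine sum_congr rfl fun x hx => ?_
  rw [sum_ite_eq, if_pos (mem_range.2 (h2 x (mem_range.1 hx)))]

section Row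

variable {P G : Type} [Group P] [Group G] {E : Env P G} {D : Dat}
variable {H : Type} [NormedAddCommGroup H] [InnerProductSpace ℝ H] {f : G → H}

theorem row_one (hG : Geo E D) (hf : Eqv (kp E D) f) {b e : ℕ} (hb : b < D.nB) (he : e < D.ni b)
    (g : G) : ∑ s ∈ range (D.sz b), (pz D b e s : ℝ) * ph f ((del E D (D.ob b + s))⁻¹ * g) =
      D.nC * ∑ a ∈ range D.ng, (D.wt a : ℝ) * ph f (gs E D a) +
        2 * inner ℝ (f ((del E D (D.ob b + D.it b e))⁻¹ * g) - f 1)
          (MR.lpl D.nC D.ng (kp E D) (gs E D) (fun a => (D.wt a : ℝ)) f) := by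
  obtain ⟨h1, h2⟩ := hG.nb b hb e he
  rw [row_pz D h1 fun x hx => (h2 x hx).1]
  generalize hz : (del E D (D.ob b + D.it b e))⁻¹ * g = z
  have h3 : ∀ x ∈ range D.nS, (D.wt (x / D.nC) : ℝ) *
      (ph f ((del E D (D.ob b + D.nb b e x))⁻¹ * g) - ph f z) =
      (D.wt (x / D.nC) : ℝ) * (ph f (gs E D (x / D.nC)) +
        2 * inner ℝ (f z - f 1) (f 1 - f (kp E D (x % D.nC) * gs E D (x / D.nC)))) := by
    intro x hx
    obtain ⟨c, hc⟩ := (h2 x (mem_range.1 hx)).2
    have e1 : (del E D (D.ob b + D.nb b e x))⁻¹ * g = kp E D c * ((sl E D x)⁻¹ * z) := by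
      rw [← hz, eq_mul_inv_of_mul_eq hc.symm]; group
    have e2 : f z - f (sl E D x) = (f z - f 1) + (f 1 - f (sl E D x)) := by abel
    rw [e1, hf.left, ← hf.dist, e2, norm_add_sq_real, ← hf.left (gs E D (x / D.nC)) (x % D.nC),
      norm_sub_rev (f 1)]
    simp only [ph, sl]
    ring
  rw [sum_congr rfl h3, show D.nS = D.nC * D.ng from Nat.mul_comm _ _,
    sum_mod_div D.nC D.ng fun t u => (D.wt t : ℝ) * (ph f (gs E D t) +
      2 * inner ℝ (f z - f 1) (f 1 - f (kp E D u * gs E D t)))]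
  simp only [MR.lpl, inner_sum, inner_smul_right, mul_add, sum_add_distrib, sum_const, card_range,
    nsmul_eq_mul, mul_sum]
  congr 1
  refine sum_congr rfl fun a _ => sum_congr rfl fun c _ => by ring

theorem rowSt : RowSt := by
  intro P G _ _ E D hG H _ _ f hf
  simp only [par, mus, sumB, ← sum_add_distrib]
  refine sum_congr rfl fun b hb => sum_congr rfl fun c hc => sum_congr rfl fun k _ => ?_
  have hb' := mem_range.1 hb
  have hc' : c < D.nB := by have := mem_range.1 hc; omega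
  simp only [Yz, Int.cast_add, Int.cast_sum, Int.cast_mul, add_mul, sum_add_distrib, sum_mul,
    add_assoc, smul_eq_mul]
  congr 1
  congr 1
  · rw [sum_comm]
    simp only [← sum_comm (s := range (D.ni b)) (t := range (D.sz b))]
    rw [sum_comm]
    refine sum_congr rfl fun e he => sum_congr rfl fun s' _ => ?_
    simp only [zz, mul_assoc]
    rw [← row_one hG hf hb' (mem_range.1 he), mul_sum]
    exact sum_congr rfl fun s _ => by ring
  · simp only [← sum_comm (s := range (D.ni c)) (t := range (D.sz c))]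
    rw [sum_comm]
    refine sum_congr rfl fun e he => sum_congr rfl fun s _ => ?_
    have hz : ∀ s', (zz E D b s k c s')⁻¹ =
        (del E D (D.ob c + s'))⁻¹ * ((wB E b k c)⁻¹ * del E D (D.ob b + s)) := fun s' => by
      rw [zz]; group
    rw [hz, ← row_one hG hf hc' (mem_range.1 he), mul_sum]
    exact sum_congr rfl fun s' _ => by rw [← hz, hf.inv]; ring

end Row

theorem row_mod (n : ℕ) (f : ℕ → ℕ) : pk 96 n f % M96 = (∑ i ∈ range n, f i) % M96 := by
  induction n with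
  | zero => rfl
  | succ n ih =>
    have h : 2 ^ (96 * n) % M96 = 1 := by
      rw [pow_mul, Nat.pow_mod, show 2 ^ 96 % M96 = 1 by norm_num [M96], one_pow]; rfl
    rw [pk_succ, sum_range_succ, Nat.add_mod, ih, Nat.mul_mod, h, one_mul, Nat.mod_mod,
      ← Nat.add_mod]

theorem row_dig (x n : ℕ) (hn : n ≤ 1024) :
    ((Nat.mod (Nat.land x (Dat.m32 n)) M96 : ℕ) : ℝ) - 2147483648 * n =
      ∑ s ∈ range n, (d32 x s : ℝ) := by
  have h1 : Dat.m32 n = pk 96 n fun _ => 2 ^ 32 - 1 := by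
    show pk 96 n (fun _ => 1) * 4294967295 = _
    rw [pk_eq, pk_eq, sum_mul]
    exact sum_congr rfl fun i _ => by norm_num
  have h2 : ∑ i ∈ range n, x / 2 ^ (96 * i) % 2 ^ 32 ≤ n * 2 ^ 32 := by
    have := sum_le_card_nsmul (range n) (fun i => x / 2 ^ (96 * i) % 2 ^ 32) (2 ^ 32)
      fun i _ => (Nat.mod_lt _ (by positivity)).le
    simpa using this
  have h3 : Nat.mod (Nat.land x (Dat.m32 n)) M96 = ∑ i ∈ range n, x / 2 ^ (96 * i) % 2 ^ 32 := by
    show (x &&& Dat.m32 n) % M96 = _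
    rw [h1, SA.mask, row_mod, Nat.mod_eq_of_lt]
    rw [M96]
    omega
  rw [h3]
  simp only [d32, Int.cast_sub, Int.cast_natCast, sum_sub_distrib, Nat.cast_sum, sum_const,
    card_range, nsmul_eq_mul]
  norm_num [mul_comm]

theorem row_L (D : Dat) (x : ℕ) (h : D.sz (Dat.kC x) ≤ 1024) :
    ∑ e ∈ range (D.ni (Dat.kB x)), ∑ s' ∈ range (D.sz (Dat.kC x)),
      (Ml D (Dat.kB x) (Dat.kK x) (Dat.kC x) e s' : ℝ) = D.sL x - D.cL x := by
  rw [Dat.sL, sumLT_eq, Nat.cast_sum]
  simp only [Ml, ← row_dig _ _ h, sum_sub_distrib, sum_const, card_range, nsmul_eq_mul]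
  congr 1
  show _ = ((2147483648 * (D.ni (Dat.kB x) * D.sz (Dat.kC x)) : ℕ) : ℝ)
  push_cast
  ring

theorem row_R (D : Dat) (x : ℕ) (h : D.sz (Dat.kB x) ≤ 1024) :
    ∑ e ∈ range (D.ni (Dat.kC x)), ∑ s ∈ range (D.sz (Dat.kB x)),
      (Mr D (Dat.kB x) (Dat.kK x) (Dat.kC x) e s : ℝ) = D.sR x - D.cR x := by
  rw [Dat.sR, sumLT_eq, Nat.cast_sum]
  simp only [Mr, ← row_dig _ _ h, sum_sub_distrib, sum_const, card_range, nsmul_eq_mul]
  congr 1
  show _ = ((2147483648 * (D.ni (Dat.kC x) * D.sz (Dat.kB x)) : ℕ) : ℝ)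
  push_cast
  ring

theorem row_sB (D : Dat) (d : ℕ) (F : ℕ → ℕ) :
    (D.sB d F : ℝ) = ∑ B ∈ Ico (D.bo d) (D.bo (d + 1)), (F (D.bk B) : ℝ) := by
  rw [Dat.sB, sumIn, sumLT_eq, sum_Ico_eq_sum_range, Nat.cast_sum]; rfl

section Bal

variable {P G : Type} [Group P] [Group G] {E : Env P G} {D : Dat}

theorem row_del (hG : Geo E D) {b s : ℕ} (hb : b < D.nB) (hs : s < D.sz b) :
    del E D (D.ob b + s) ∈ Del E D := by
  refine hG.md _ ?_
  have h : ∀ n, b + 1 ≤ n → n ≤ D.nB → D.ob (b + 1) ≤ D.ob n := by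
    intro n hn
    induction n, hn using Nat.le_induction with
    | base => exact fun _ => le_rfl
    | succ n _ ih =>
      intro h2
      have := (hG.ob n h2).1
      have := ih (by omega)
      omega
  have h1 := h D.nB hb le_rfl
  have h2 := (hG.ob b hb).1
  show _ < D.ob D.nB
  omega

theorem balSt : BalSt := by
  intro P G _ _ E D r hG hF hP hB
  have hsz : ∀ d < D.nD, ∀ B ∈ Ico (D.bo d) (D.bo (d + 1)),
      Dat.kB (D.bk B) < D.nB ∧ Dat.kC (D.bk B) < D.nB := fun d hd B hB => by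
    obtain ⟨h1, h2, -⟩ := hF.blk d hd B (mem_Ico.1 hB).1 (mem_Ico.1 hB).2
    omega
  refine ⟨?_, fun M _ _ a ha hr => ?_⟩
  · rw [mus, ← hP, ← sum_sub_distrib]
    refine sum_congr rfl fun d hd => ?_
    have h := hB d (mem_range.1 hd)
    simp only [Dat.balOk, an_iff, Nat.beq_eq, Nat.add_eq] at h
    have h1 := congrArg (Nat.cast : ℕ → ℝ) h.2.2
    rw [Nat.cast_add, Nat.cast_add, row_sB, row_sB] at h1
    rw [← sub_eq_sub_iff_add_eq_add.2 (h1.trans (add_comm _ _)), ← sum_sub_distrib]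
    refine sum_congr rfl fun B hB => ?_
    obtain ⟨h2, h3⟩ := hsz d (mem_range.1 hd) B hB
    simp only [smul_eq_mul, mul_one]
    rw [row_L D _ (hG.ob _ h3).2.1, row_R D _ (hG.ob _ h2).2.1]
    push_cast
    ring
  · have hl : ∀ x, ∀ d ∈ Del E D, a (d * x) = a x := fun x d hd => by
      rw [← neg_inj, ← ha, ← ha, mul_inv_rev, hr _ _ (inv_mem hd)]
    have hz : ∀ b < D.nB, ∀ s < D.sz b, ∀ k, ∀ c < D.nB, ∀ s' < D.sz c,
        a (zz E D b s k c s') = a (wB E b k c) := fun b hb s hs k c hc s' hs' => by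
      rw [zz, hr _ _ (row_del hG hc hs'), hl _ _ (inv_mem (row_del hG hb hs))]
    have hw : ∀ d < D.nD, ∀ B, D.bo d ≤ B → B < D.bo (d + 1) → ∀ f < Dat.kN (D.bk B),
        a (pw (wB E (Dat.kB (D.bk B)) (Dat.kK (D.bk B)) (Dat.kC (D.bk B)))
          (D.gE (Dat.kG (D.bk B) + f))) = a (r d) := fun d hd B h1 h2 f hf => by
      obtain ⟨h3, h4, h5⟩ := (hF.blk d hd B h1 h2).2.2.2.2 f hf
      rw [h5, hr _ _ (hG.mu _ h4), hr _ _ (hG.mi _), hl _ _ (inv_mem (hG.mu _ h3))]
    rw [mus, ← hP]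
    refine sum_eq_zero fun d hd => ?_
    have hd' := mem_range.1 hd
    have h := hB d hd'
    simp only [Dat.balOk, an_iff] at h
    have h0 : ((D.sB d D.bp : ℝ) - D.sB d D.bq) • a (r d) = 0 := by
      have h1 := h.2.1
      generalize D.sm d = v at h1
      rcases v with _ | v
      · have h2 : D.sB d D.bp = D.sB d D.bq := Nat.eq_of_beq_eq_true h1
        rw [h2, sub_self, zero_smul]
      · have h2 : D.symOk d (Nat.shiftRight v 9) (Nat.land v 511) = true := h1
        generalize Nat.shiftRight v 9 = B at h2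
        generalize Nat.land v 511 = f at h2
        simp only [Dat.symOk, an_iff, Nat.beq_eq, Nat.blt_eq, Nat.ble_eq, Nat.add_eq] at h2
        obtain ⟨h3, h4, h5, h6⟩ := h2
        have h7 := hw d hd' B h3 h4 0 (by omega)
        have h8 := hw d hd' B h3 h4 f h5
        rw [add_zero] at h7
        have h9 : a (r d) = -a (r d) := by
          rcases Nat.eq_zero_or_pos (D.gE (Dat.kG (D.bk B))) with h10 | h10
          · rw [pw, if_pos h10] at h7
            rw [pw, if_neg (by omega), ha, h7] at h8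
            exact h8.symm
          · rw [pw, if_pos (by omega)] at h8
            rw [pw, if_neg h10.ne', ha, h8] at h7
            exact h7.symm
        have h10 : (2 : ℝ) • a (r d) = 0 := by rw [two_smul]; exact eq_neg_iff_add_eq_zero.1 h9
        rw [(smul_eq_zero.1 h10).resolve_left two_ne_zero, smul_zero]
    rw [← h0, row_sB, row_sB, ← sum_sub_distrib, sum_smul]
    refine sum_congr rfl fun B hB => ?_
    obtain ⟨h2, h3⟩ := hsz d hd' B hB
    have h4 := hw d hd' B (mem_Ico.1 hB).1 (mem_Ico.1 hB).2 0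
      (hF.blk d hd' B (mem_Ico.1 hB).1 (mem_Ico.1 hB).2).2.2.2.1
    rw [add_zero] at h4
    generalize D.bk B = x at h2 h3 h4 ⊢
    rw [sum_congr rfl fun e he => sum_congr rfl fun s' hs' => congrArg (HSMul.hSMul _)
        (hz _ h2 _ (hG.nb _ h2 e (mem_range.1 he)).1 _ _ h3 s' (mem_range.1 hs')),
      sum_congr rfl fun e he => sum_congr rfl fun s hs => congrArg (HSMul.hSMul _)
        ((ha _).trans (congrArg Neg.neg
          (hz _ h2 s (mem_range.1 hs) _ _ h3 _ (hG.nb _ h3 e (mem_range.1 he)).1)))]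
    simp only [← sum_smul]
    rw [row_L D _ (hG.ob _ h3).2.1, row_R D _ (hG.ob _ h2).2.1, smul_neg, ← neg_smul, ← add_smul,
      Dat.bp, Dat.bq]
    generalize D.gE (Dat.kG x) = t at h4 ⊢
    rcases t with _ | t
    · rw [pw, if_pos rfl] at h4
      rw [h4]
      congr 1
      show _ = ((D.sL x + D.cR x : ℕ) : ℝ) - ((D.sR x + D.cL x : ℕ) : ℝ)
      push_cast
      ring
    · rw [pw, if_neg (Nat.succ_ne_zero t), ha] at h4
      rw [← h4, smul_neg, ← neg_smul]
      congr 1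
      show _ = -(((D.sR x + D.cL x : ℕ) : ℝ) - ((D.sL x + D.cR x : ℕ) : ℝ))
      push_cast
      ring

end Bal

end Pool.Agent.MQ
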