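import Pool.Agent.Lib.MP_c86c76_al.Q.St
import Pool.Agent.Lib.MP_c86c76_al.C.Can

/-!
From the integer coefficients to the sum of squares.
-/

set_option autoImplicit false

noncomputable section

namespace Pool.Agent.MQ

open Pool.Agent.MC Finset

theorem sos_fib {D : Dat} (h0 : D.ob 0 = 0) (h : ∀ b < D.nB, D.ob (b + 1) = D.ob b + D.sz b)
    (n : ℕ) (hn : n ≤ D.nB) : (∀ F : ℕ → ℝ, ∑ b ∈ range n, ∑ s ∈ range (D.sz b), F (D.ob b + s) =
      ∑ j ∈ range (D.ob n), F j) ∧ ∀ b < n, D.ob b + D.sz b ≤ D.ob n := by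
  induction n with
  | zero => simp [h0]
  | succ n ih =>
    obtain ⟨a, c⟩ := ih (by omega)
    rw [h n hn]
    refine ⟨fun F => by rw [sum_range_succ, a, sum_range_add], fun b hb => ?_⟩
    rcases Nat.lt_succ_iff_lt_or_eq.1 hb with h1 | rfl
    exacts [(c b h1).trans (Nat.le_add_right _ _), le_rfl]

theorem sos_c3 {A B : Finset ℕ} {C : ℕ → Finset ℕ} {F : ℕ → ℕ → ℕ → ℝ} :
    ∑ b ∈ A, ∑ c ∈ C b, ∑ i ∈ B, F b c i = ∑ i ∈ B, ∑ b ∈ A, ∑ c ∈ C b, F b c i :=
  (sum_congr rfl fun _ _ => sum_comm).trans sum_comm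

theorem sos_c4 {A B C I : Finset ℕ} {F : ℕ → ℕ → ℕ → ℕ → ℝ} :
    ∑ a ∈ A, ∑ b ∈ B, ∑ c ∈ C, ∑ i ∈ I, F a b c i = ∑ i ∈ I, ∑ a ∈ A, ∑ b ∈ B, ∑ c ∈ C, F a b c i :=
  (sum_congr rfl fun _ _ => sum_comm_cycle).trans sum_comm

/-- The coefficients of the squares. -/
def sosW (D : Dat) (y p u x b s : ℕ) : ℝ :=
  ∑ a ∈ range (D.db y), (Tz D y x a : ℝ) * Lz D y p u a b s

theorem sos_cz (D : Dat) (b s k c s' : ℕ) : (Cz D b s k c s' : ℝ) =
    ∑ y ∈ range D.nY, ∑ p ∈ range (D.nG y), ∑ u ∈ range 3, ∑ x ∈ range D.nK,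
      sosW D y p u x b s * sosW D y p u (D.mul x k) c s' := by
  simp only [Cz, Wz, Mz, sosW, Int.cast_sum, Int.cast_mul, sum_mul_sum (range (D.db _))]
  simp only [mul_sum]
  simp only [sum_mul]
  refine sum_congr rfl fun y _ => sum_comm_cycle.trans (sum_congr rfl fun p _ =>
    sum_comm_cycle.trans (sum_congr rfl fun u _ => sum_comm_cycle.trans (sum_congr rfl fun x _ =>
      sum_congr rfl fun a _ => sum_congr rfl fun a' _ => by ring)))

variable {H : Type} [NormedAddCommGroup H] [InnerProductSpace ℝ H]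

theorem sos_quad (p q r t : H) : 2 * inner ℝ (p - q) (r - t) =
    ‖p - t‖ ^ 2 + ‖q - r‖ ^ 2 - ‖p - r‖ ^ 2 - ‖q - t‖ ^ 2 := by
  simp only [norm_sub_sq_real, inner_sub_left, inner_sub_right]
  ring

theorem sos_tri (v : ℕ → H) (n : ℕ) :
    ∑ b ∈ range n, ∑ c ∈ range (b + 1), (if c = b then 1 else 2) * inner ℝ (v b) (v c) =
      inner ℝ (∑ b ∈ range n, v b) (∑ b ∈ range n, v b) := by
  induction n with
  | zero => simp
  | succ n ih =>
    rw [sum_range_succ, ih, sum_range_succ, sum_range_succ, real_inner_add_add_self, if_pos rfl,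
      sum_congr rfl (g := fun c => 2 * inner ℝ (v n) (v c)) fun c hc => by
        rw [if_neg (mem_range.1 hc).ne], ← mul_sum, ← inner_sum,
      real_inner_comm (v n) (∑ b ∈ range n, v b)]
    ring

theorem sosSt : SosSt := by
  intro P G _ _ E D hG hZ hL H _ _ f hf
  obtain ⟨F1, F2⟩ := sos_fib hG.o0 (fun b hb => (hG.ob b hb).1) D.nB le_rfl
  set e := MR.enr D.ng (gs E D) f
  have e0 : 0 ≤ e := sum_nonneg fun _ _ => sq_nonneg _
  set U : G → ℕ → ℕ → H := fun g b s => f (g * (E.b b * del E D (D.ob b + s))) - f (g * E.b b)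
    with hU
  set Gm : ℕ → ℕ → ℕ → ℕ → ℕ → ℝ := fun b s k c s' => inner ℝ (U 1 b s) (U (E.η k) c s') with hGm
  set d : ℕ → ℕ → ℝ := fun b s => D.dl (D.ob b + s) with hd
  have d0 : ∀ b s, 0 ≤ d b s := fun _ _ => Nat.cast_nonneg _
  have pol : ∀ a g b s c s', inner ℝ (U a b s) (U (a * g) c s') = inner ℝ (U 1 b s) (U g c s') :=
    fun a g b s c s' => mul_left_cancel₀ (two_ne_zero (α := ℝ)) (by
      simp only [hU, sos_quad, mul_assoc a, hf.iso, one_mul])
  have un : ∀ g, ∀ b < D.nB, ∀ s < D.sz b, ‖U g b s‖ ≤ d b s * √e := fun g b hb s hs => by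
    have := hf.iso (g * E.b b) (del E D (D.ob b + s)) 1
    rw [mul_one, mul_assoc] at this
    exact this.trans_le (hG.dl H f hf _ ((Nat.add_lt_add_left hs _).trans_le (F2 b hb)))
  have gm : ∀ b < D.nB, ∀ s < D.sz b, ∀ k, ∀ c ≤ b, ∀ s' < D.sz c,
      |Gm b s k c s'| ≤ d b s * d c s' * e := fun b hb s hs k c hc s' hs' =>
    (abs_real_inner_le_norm _ _).trans ((mul_le_mul (un _ b hb s hs) (un _ c (hc.trans_lt hb) s' hs')
      (norm_nonneg _) (mul_nonneg (d0 b s) (Real.sqrt_nonneg _))).trans_eq (by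
        rw [mul_mul_mul_comm, Real.mul_self_sqrt e0]))
  have pos : 0 ≤ ∑ b ∈ range D.nB, ∑ c ∈ range (b + 1), ∑ k ∈ range D.nK, ∑ s ∈ range (D.sz b),
      ∑ s' ∈ range (D.sz c), (if c = b then 1 else 2) * ((Cz D b s k c s' : ℝ) * Gm b s k c s') := by
    set v : ℕ → ℕ → ℕ → ℕ → H := fun y p u b => ∑ x ∈ range D.nK, ∑ s ∈ range (D.sz b),
      sosW D y p u x b s • U (E.η x) b s with hv
    have T : ∀ b c, ∑ k ∈ range D.nK, ∑ s ∈ range (D.sz b), ∑ s' ∈ range (D.sz c),
        (Cz D b s k c s' : ℝ) * Gm b s k c s' = ∑ y ∈ range D.nY, ∑ p ∈ range (D.nG y),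
          ∑ u ∈ range 3, inner ℝ (v y p u b) (v y p u c) := fun b c => by
      simp only [sos_cz, sum_mul, hv, sum_inner]
      simp only [inner_sum, real_inner_smul_left, real_inner_smul_right]
      refine sos_c4.trans (sum_congr rfl fun y _ => sos_c4.trans (sum_congr rfl fun p _ =>
        sos_c4.trans (sum_congr rfl fun u _ => sos_c4.trans (sum_congr rfl fun x hx =>
          sum_comm.trans (sum_congr rfl fun s _ => ?_)))))
      have hx := mem_range.1 hx
      rw [sum_of_linv D.nK (D.mul x) (D.mul (D.inv x)) (F := fun x' => ∑ s' ∈ range (D.sz c),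
        sosW D y p u x' c s' * (sosW D y p u x b s * inner ℝ (U (E.η x) b s) (U (E.η x') c s')))
        fun k hk => by
          have := hG.kmul _ (hG.kinv x hx).1 k hk
          rw [(hG.kinv x hx).2.1] at this
          exact ⟨this.1, this.2.1⟩]
      refine sum_congr rfl fun k hk => sum_congr rfl fun s' _ => ?_
      rw [(hG.kmul x hx k (mem_range.1 hk)).2.2, pol, mul_assoc, mul_left_comm]
    simp only [← mul_sum, T]
    simp only [mul_sum]
    rw [sos_c3]
    refine sum_nonneg fun y _ => ?_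
    rw [sos_c3]
    refine sum_nonneg fun p _ => ?_
    rw [sos_c3]
    refine sum_nonneg fun u _ => ?_
    rw [sos_tri]
    exact real_inner_self_nonneg
  have dia : ∑ b ∈ range D.nB, ∑ c ∈ range (b + 1), ∑ k ∈ range D.nK, ∑ s ∈ range (D.sz b),
      ∑ s' ∈ range (D.sz c), (if k = 0 ∧ c = b ∧ s' = s then (D.tau : ℝ) else 0) *
        (d b s * d c s' * e) = D.tau * S2 D * e := by
    rw [S2, Nat.cast_sum, Dat.nP, ← F1, mul_sum, sum_mul]
    refine sum_congr rfl fun b _ => ?_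
    rw [sum_eq_single_of_mem b (by simp) fun c _ h => by simp [h],
      sum_eq_single_of_mem 0 (mem_range.2 hG.k0) fun k _ h => by simp [h], mul_sum, sum_mul]
    refine sum_congr rfl fun s hs => ?_
    rw [sum_eq_single_of_mem s hs fun s' _ h => by simp [h], if_pos ⟨rfl, rfl, rfl⟩, Nat.cast_mul,
      ← mul_assoc]
  have off : ∑ b ∈ range D.nB, ∑ c ∈ range (b + 1), ∑ k ∈ range D.nK, ∑ s ∈ range (D.sz b),
      ∑ s' ∈ range (D.sz c), (2 : ℝ) ^ D.hh * (d b s * d c s' * e) ≤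
        2 ^ D.hh * D.nK * (S1 D * S1 D) * e := by
    rw [S1, Nat.cast_sum, Dat.nP, ← F1, sum_mul_sum, mul_sum, sum_mul]
    refine sum_le_sum fun b hb => ?_
    rw [mul_sum, sum_mul]
    refine le_trans (le_of_eq (sum_congr rfl fun c _ => ?_)) (sum_le_sum_of_subset_of_nonneg
      (range_mono (mem_range.1 hb)) fun c _ _ => by positivity)
    simp only [← mul_sum, ← sum_mul, sum_const, card_range, nsmul_eq_mul, hd]
    ring
  have blk : ∀ b ∈ range D.nB, ∀ c ∈ range (b + 1), ∀ k ∈ range D.nK,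
      ∑ s ∈ range (D.sz b), ∑ s' ∈ range (D.sz c),
        (Yz D b k c s s' : ℝ) * ph f (zz E D b s k c s') =
      ∑ s ∈ range (D.sz b), ∑ s' ∈ range (D.sz c),
        -2 * ((Yz D b k c s s' : ℝ) * Gm b s k c s') := fun b hb c hc k hk => by
    obtain ⟨z1, z2⟩ := hZ b (mem_range.1 hb) c (Nat.lt_succ_iff.1 (mem_range.1 hc)) k
      (mem_range.1 hk)
    have q : ∀ s s', (Yz D b k c s s' : ℝ) * ph f (zz E D b s k c s') =
        -2 * (Yz D b k c s s' * Gm b s k c s') + (Yz D b k c s s' *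
          (‖f (1 * (E.b b * del E D (D.ob b + s))) - f (E.η k * E.b c)‖ ^ 2 -
            ‖f (1 * E.b b) - f (E.η k * E.b c)‖ ^ 2) + Yz D b k c s s' *
          ‖f (1 * E.b b) - f (E.η k * (E.b c * del E D (D.ob c + s')))‖ ^ 2) := fun s s' => by
      have : ph f (zz E D b s k c s') = ‖f (1 * (E.b b * del E D (D.ob b + s))) -
          f (E.η k * (E.b c * del E D (D.ob c + s')))‖ ^ 2 := by
        rw [norm_sub_rev, hf.dist, zz, wB]
        congr 1
        group
      rw [this]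
      linear_combination (Yz D b k c s s' : ℝ) * sos_quad (f (1 * (E.b b * del E D (D.ob b + s))))
        (f (1 * E.b b)) (f (E.η k * (E.b c * del E D (D.ob c + s')))) (f (E.η k * E.b c))
    simp only [q, sum_add_distrib]
    rw [add_eq_left, sum_comm (t := range (D.sz c)) (f := fun s s' => _ * ‖f (1 * E.b b) - f
      (E.η k * (E.b c * del E D (D.ob c + s')))‖ ^ 2), sum_eq_zero fun s hs => ?_,
      sum_eq_zero fun s hs => ?_, add_zero]
    · rw [← sum_mul, ← Int.cast_sum, z2 s (mem_range.1 hs), Int.cast_zero, zero_mul]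
    · rw [← sum_mul, ← Int.cast_sum, z1 s (mem_range.1 hs), Int.cast_zero, zero_mul]
  have fin : 2 ^ D.sh * par E D (Yz D) f ≤ ∑ b ∈ range D.nB, ∑ c ∈ range (b + 1),
      ∑ k ∈ range D.nK, ∑ s ∈ range (D.sz b), ∑ s' ∈ range (D.sz c),
      2 * ((if k = 0 ∧ c = b ∧ s' = s then (D.tau : ℝ) else 0) * (d b s * d c s' * e) +
        2 ^ D.hh * (d b s * d c s' * e) -
        (if c = b then 1 else 2) * ((Cz D b s k c s' : ℝ) * Gm b s k c s')) := by
    rw [par, sumB, sum_congr rfl fun b hb => sum_congr rfl fun c hc => sum_congr rfl (blk b hb c hc)]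
    simp only [mul_sum]
    refine sum_le_sum fun b hb => sum_le_sum fun c hc => sum_le_sum fun k hk =>
      sum_le_sum fun s hs => sum_le_sum fun s' hs' => ?_
    have hc := Nat.lt_succ_iff.1 (mem_range.1 hc)
    have g := gm b (mem_range.1 hb) s (mem_range.1 hs) k c hc s' (mem_range.1 hs')
    have l := (Int.cast_le (R := ℝ)).2 (hL b (mem_range.1 hb) s (mem_range.1 hs) k (mem_range.1 hk)
      c hc s' (mem_range.1 hs'))
    push_cast at l
    have m := (neg_abs_le _).trans' (neg_le_neg ((abs_mul _ _).trans_le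
      (mul_le_mul l g (abs_nonneg _) (by positivity))))
    have t := mul_le_mul_of_nonneg_left ((le_abs_self _).trans g)
      (show 0 ≤ (if k = 0 ∧ c = b ∧ s' = s then (D.tau : ℝ) else 0) by positivity)
    linarith
  simp only [← mul_sum, sum_sub_distrib, sum_add_distrib] at fin
  simp only [← mul_sum] at pos dia off
  linarith

end Pool.Agent.MQ
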