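import Pool.Agent.Lib.MP_c86c76_al.Q.St

/-!
The assembly of the engine.
-/

set_option autoImplicit false

noncomputable section

namespace Pool.Agent.MQ

open Pool.Agent.MC Finset

variable {P G : Type} [Group P] [Group G] (E : Env P G) (D : Dat)

theorem top_map {M N : Type} [AddCommGroup M] [Module ℝ M] [AddCommGroup N] [Module ℝ N]
    (L : M →ₗ[ℝ] N) (a : G → M) : L (mus E D a) = mus E D fun x => L (a x) := by
  simp only [mus, sumB, map_sum, map_add, map_smul]

theorem top_enum (s : Finset G) : ∃ z : ℕ → G, ∀ (M : Type) [AddCommMonoid M] (g : G → M),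
    ∑ x ∈ s, g x = ∑ v ∈ range s.card, g (z v) := by
  refine ⟨fun v => if h : v < s.card then (s.equivFin.symm ⟨v, h⟩).1 else 1, fun M _ g => ?_⟩
  rw [sum_range, ← sum_coe_sort, ← s.equivFin.symm.sum_comp]
  exact sum_congr rfl fun i _ => by simp only [dif_pos i.2]

theorem top_rep : ∃ (nv : ℕ) (μ : ℕ → ℝ) (z : ℕ → G), ∀ (M : Type) [AddCommGroup M] [Module ℝ M]
    (a : G → M), mus E D a = ∑ v ∈ range nv, μ v • a (z v) := by
  obtain ⟨ω, hω⟩ : ∃ ω : G →₀ ℝ, ω = mus E D fun x => Finsupp.single x 1 := ⟨_, rfl⟩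
  obtain ⟨z, hz⟩ := top_enum ω.support
  refine ⟨ω.support.card, fun v => ω (z v), z, fun M _ _ a => ?_⟩
  have := top_map E D (Finsupp.linearCombination ℝ a) fun x => Finsupp.single x 1
  simp only [Finsupp.linearCombination_single, one_smul] at this
  rw [← this, ← hω, Finsupp.linearCombination_apply, Finsupp.sum, hz]

theorem top_fin (h : D.finOk = true) :
    2 * ((D.tau : ℝ) * S2 D + 2 ^ D.hh * D.nK * (S1 D * S1 D)) <
      2 ^ D.sh * D.nC * (∑ d ∈ range D.nD, (D.tp d : ℝ) - ∑ d ∈ range D.nD, (D.tq d : ℝ)) := by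
  simp only [Dat.finOk, an_iff, Nat.blt_eq, sumLT_eq] at h
  have h1 : (∑ d ∈ range D.nD, D.tq d) <<< D.sh * D.nC +
      2 * (D.tau * S2 D + D.nK <<< D.hh * (S1 D * S1 D)) <
      (∑ d ∈ range D.nD, D.tp d) <<< D.sh * D.nC := h.2.2.2
  simp only [Nat.shiftLeft_eq] at h1
  have h2 := (Nat.cast_lt (α := ℝ)).2 h1
  push_cast at h2
  linarith

theorem topSt : TopSt := by
  intro hW hG hF hP hE hA hY hL hS hR hB P G _ _ E D hM ok H _ _ _ α
  have w := hW P G E D hM
  have g := hG P G E D hM w ok.geo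
  obtain ⟨r, fa⟩ := hF P G E D hM w ok.geo g ok.blk
  have pe := hP D ok.geo.off ok.blk ok.bal
  have en := hE P G E D r hM w g fa
  have sz : Siz D := ⟨g.o0, g.ob, fun b hb e he =>
    ⟨(g.nb b hb e he).1, fun x hx => ((g.nb b hb e he).2 x hx).1⟩⟩
  obtain ⟨y1, y2⟩ := hY D sz
  have so := hS P G E D g (y2 ok.zs) (hL D sz y1 ok.sos)
  obtain ⟨b1, b2⟩ := hB P G E D r g fa pe ok.bal
  obtain ⟨nv, μ, z, hz⟩ := top_rep E D
  have fi := top_fin D ok.sos.fin
  refine (MR.rf_fix (nv := nv) (μ := fun v => -(2 ^ D.sh * 2) * μ v) (z := z) g.sym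
    (sub_pos.2 fi) (fun H _ _ f hf => ?_) (fun M _ _ a h1 h2 => ?_) H α).imp
    fun y hy v => hy _ (g.mi v)
  · obtain ⟨e1, e2, e3⟩ := en H f hf
    have x0 : par E D (Xz D) f = 0 := by
      rw [par, ← pe]
      exact sum_eq_zero fun d hd => hA D d (ok.gat d (mem_range.1 hd))
        (fun y => ph f (cls E D r d y))
        (fun B s s' => ph f (zz E D (Dat.kB (D.bk B)) s (Dat.kK (D.bk B)) (Dat.kC (D.bk B)) s'))
        (e1 d (mem_range.1 hd)) (fun h t ht => h ▸ e2 t ht)
        fun y y' v a b => congrArg (ph f) (e3 d y y' v a b)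
    have s1 := so H f hf
    rw [hR P G E D g H f hf, x0, zero_add, hz] at s1
    rw [hz] at b1
    have le : MR.enr D.ng (gs E D) f ≤ ∑ a ∈ range D.ng, (D.wt a : ℝ) * ph f (gs E D a) := by
      refine sum_le_sum fun a ha => le_mul_of_one_le_left (sq_nonneg _) ?_
      have := g.sym.wt0 a (mem_range.1 ha)
      exact_mod_cast this
    generalize ∑ a ∈ range D.ng, (D.wt a : ℝ) * ph f (gs E D a) = W at s1 le
    simp only [smul_eq_mul, mul_one, mul_add (μ _), sum_add_distrib, ← sum_mul,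
      mul_left_comm (μ _) 2, ← mul_sum] at s1 b1
    simp only [mul_assoc _ (μ _), ← mul_sum]
    have p : 0 ≤ 2 * ((D.tau : ℝ) * S2 D + 2 ^ D.hh * D.nK * (S1 D * S1 D)) := by positivity
    have := mul_le_mul_of_nonneg_left le (p.trans fi.le)
    rw [b1] at s1
    linarith
  · simp only [mul_smul, ← smul_sum, ← hz]
    rw [b2 M a h1 h2, smul_zero]

end Pool.Agent.MQ
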