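import Pool.Agent.Lib.MP_c86c76_al.Q.St
import Pool.Agent.Lib.MP_c86c76_al.C.SosA

/-!
The rows of the matrix without the harmonic rows as packed numbers.
-/

set_option autoImplicit false

noncomputable section

namespace Pool.Agent.MQ

open Pool.Agent.MC Pool.Agent.MC.SA Finset

/-- The low digit of a lane. -/
def ynD (x l : ℕ) : ℤ := ((x / 2 ^ (96 * l) % 2 ^ 32 : ℕ) : ℤ)

theorem ynD_bd (x l : ℕ) : 0 ≤ ynD x l ∧ ynD x l < 2 ^ 32 := by
  have : x / 2 ^ (96 * l) % 2 ^ 32 < 2 ^ 32 := Nat.mod_lt _ (by positivity)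
  rw [ynD]
  omega

theorem yn_d32 (x l : ℕ) : |d32 x l| ≤ 2 ^ 31 := by
  have := ynD_bd x l
  show |ynD x l - 2 ^ 31| ≤ _
  rw [abs_le]
  omega

theorem yn_on (n : ℕ) : (on n : ℤ) = P n fun _ => 1 := P_pk _ _

theorem yn_m32 (x n : ℕ) : (Nat.land x (Dat.m32 n) : ℤ) = P n (ynD x) := by
  have h1 : Dat.m32 n = pk 96 n fun _ => 2 ^ 32 - 1 := by
    show pk 96 n (fun _ => 1) * 4294967295 = _
    rw [pk_eq, pk_eq, sum_mul]
    exact sum_congr rfl fun l _ => by norm_num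
  show ((x &&& Dat.m32 n : ℕ) : ℤ) = _
  rw [h1, mask, P_pk]
  rfl

theorem yn_l96 {R N : ℕ} {F : ℕ → ℤ} (h : (R : ℤ) = P N F) (h0 : ∀ l < N, 0 ≤ F l)
    (h1 : ∀ l < N, F l < 2 ^ 96) {l : ℕ} (hl : l < N) : (l96 R l : ℤ) = F l :=
  P_lane h h0 h1 hl

theorem yn_one (N t w : ℕ) (ht : t < N) :
    ((Nat.shiftLeft w (Nat.mul 96 t) : ℕ) : ℤ) = P N fun s => if t = s then (w : ℤ) else 0 := by
  show ((w <<< (96 * t) : ℕ) : ℤ) = _
  rw [Nat.shiftLeft_eq, P, sum_eq_single t]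
  · rw [if_pos rfl]; push_cast; ring
  · intro s _ hs
    rw [if_neg (Ne.symm hs), mul_zero]
  · intro h
    exact absurd (mem_range.2 ht) h

theorem yn_xr (D : Dat) (A n s l : ℕ) (hl : l < n) :
    ynD (D.xr A n s) l = ynD (D.xb A) (n * s + l) := by
  have h1 : D.xr A n s = D.xb A / 2 ^ (96 * n * s) % 2 ^ (96 * n) := by
    show (D.xb A >>> (96 * n * s)) % (1 <<< (96 * n)) = _
    rw [Nat.shiftRight_eq_div_pow, Nat.shiftLeft_eq, one_mul]
  obtain ⟨r, rfl⟩ : ∃ r, n = l + 1 + r := ⟨n - (l + 1), by omega⟩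
  rw [ynD, ynD, h1, show 96 * (l + 1 + r) = 96 * l + (32 + (64 + 96 * r)) by ring, pow_add 2 (96 * l),
    Nat.mod_mul_right_div_self, Nat.mod_mod_of_dvd _ (pow_dvd_pow 2 (by omega)),
    Nat.div_div_eq_div_mul, ← pow_add]
  congr 4
  ring

theorem yn_mod (n : ℕ) (f : ℕ → ℕ) : pk 96 n f % M96 = (∑ l ∈ range n, f l) % M96 := by
  induction n with
  | zero => rfl
  | succ n ih =>
    have h1 : 2 ^ (96 * n) ≡ 1 [MOD M96] := by
      rw [pow_mul]
      have : 2 ^ 96 ≡ 1 [MOD M96] := by unfold Nat.ModEq M96; norm_num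
      simpa using this.pow n
    rw [pk_succ, sum_range_succ]
    have h2 := h1.mul_right (f n)
    rw [one_mul] at h2
    exact Nat.ModEq.add ih h2

variable (D : Dat)

def ynP (b e s : ℕ) : ℤ := ∑ x ∈ range D.nS, if D.nb b e x = s then (D.wt (x / D.nC) : ℤ) else 0
def ynN (b e s : ℕ) : ℤ := if D.it b e = s then (D.WW : ℤ) else 0
def ynS (b s : ℕ) : ℤ := ∑ e ∈ range (D.ni b), (ynP D b e s + ynN D b e s)

theorem ynP_bd (b e s : ℕ) : 0 ≤ ynP D b e s ∧ ynP D b e s ≤ D.WW := by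
  refine ⟨sum_nonneg fun x _ => by split_ifs <;> positivity, ?_⟩
  rw [Dat.WW, sumLT_eq, Nat.cast_sum]
  refine sum_le_sum fun x _ => ?_
  split_ifs
  · exact le_rfl
  · positivity

theorem ynN_bd (b e s : ℕ) : 0 ≤ ynN D b e s ∧ ynN D b e s ≤ D.WW := by
  rw [ynN]
  split_ifs <;> omega

theorem yn_pz (b e s : ℕ) : |pz D b e s| ≤ D.WW := by
  have := ynP_bd D b e s
  have := ynN_bd D b e s
  show |ynP D b e s - ynN D b e s| ≤ _
  rw [abs_le]
  omega

variable {D}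

theorem yn_W (h : Siz D) {b e : ℕ} (hb : b < D.nB) (he : e < D.ni b) : (D.WW : ℤ) ≤ 65536 := by
  have h1 := (h.ob b hb).2.2
  have h2 : D.WW * 1 ≤ D.WW * D.ni b := Nat.mul_le_mul_left _ (by omega)
  omega

theorem yn_pP (h : Siz D) {b e : ℕ} (hb : b < D.nB) (he : e < D.ni b) :
    (D.pP b e : ℤ) = P (D.sz b) (ynP D b e) := by
  rw [Dat.pP, sumLT_eq, Nat.cast_sum,
    sum_congr rfl fun x hx => yn_one _ _ _ ((h.nb b hb e he).2 x (mem_range.1 hx)), P_sum]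
  rfl

theorem yn_pN (h : Siz D) {b e : ℕ} (hb : b < D.nB) (he : e < D.ni b) :
    (D.pN b e : ℤ) = P (D.sz b) (ynN D b e) := yn_one _ _ _ (h.nb b hb e he).1

theorem yn_pS (h : Siz D) {b : ℕ} (hb : b < D.nB) : (D.pS b : ℤ) = P (D.sz b) (ynS D b) := by
  rw [Dat.pS, sumLT_eq, Nat.cast_sum, sum_congr rfl (g := fun e =>
    P (D.sz b) fun s => ynP D b e s + ynN D b e s) fun e he => ?_, P_sum]
  · rfl
  · show ((D.pP b e + D.pN b e : ℕ) : ℤ) = _
    rw [Nat.cast_add, yn_pP h hb (mem_range.1 he), yn_pN h hb (mem_range.1 he), P_add]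

theorem ynS_bd (h : Siz D) {b : ℕ} (hb : b < D.nB) (s : ℕ) :
    0 ≤ ynS D b s ∧ ynS D b s ≤ 131072 := by
  refine ⟨sum_nonneg fun e _ => add_nonneg (ynP_bd D b e s).1 (ynN_bd D b e s).1, ?_⟩
  have h1 : ynS D b s ≤ ∑ _e ∈ range (D.ni b), (2 * D.WW : ℤ) := sum_le_sum fun e _ => by
    have := (ynP_bd D b e s).2
    have := (ynN_bd D b e s).2
    omega
  have h2 : (D.WW : ℤ) * D.ni b ≤ 65536 := by exact_mod_cast (h.ob b hb).2.2
  rw [sum_const, card_range, nsmul_eq_mul] at h1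
  linarith

theorem yn_yL (h : Siz D) {b s : ℕ} (hb : b < D.nB) (hs : s < D.sz b) (A n : ℕ) :
    (D.yL A b n s : ℤ) = P n fun l => ∑ e ∈ range (D.ni b),
      (ynP D b e s * ynD (D.ml A e) l + ynN D b e s * (2 ^ 32 - ynD (D.ml A e) l)) := by
  rw [Dat.yL, sumLT_eq, Nat.cast_sum, ← P_sum]
  refine sum_congr rfl fun e he => ?_
  have he := mem_range.1 he
  have hW := yn_W h hb he
  have h1 : ((4294967296 * on n - D.mL A n e : ℕ) : ℤ) = P n fun l => 2 ^ 32 - ynD (D.ml A e) l := by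
    refine P_natsub ?_ fun l _ => by have := ynD_bd (D.ml A e) l; omega
    rw [Nat.cast_mul, yn_on, Dat.mL, yn_m32, P_mul, P_sub]
    exact P_congr fun l _ => by norm_num
  show ((l96 (D.pP b e) s * D.mL A n e + l96 (D.pN b e) s * (4294967296 * on n - D.mL A n e) : ℕ) :
    ℤ) = _
  rw [Nat.cast_add, Nat.cast_mul, Nat.cast_mul, h1, Dat.mL, yn_m32,
    yn_l96 (yn_pP h hb he) (fun l _ => (ynP_bd D b e l).1)
      (fun l _ => by have := (ynP_bd D b e l).2; omega) hs,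
    yn_l96 (yn_pN h hb he) (fun l _ => (ynN_bd D b e l).1)
      (fun l _ => by have := (ynN_bd D b e l).2; omega) hs, P_mul, P_mul, P_add]

theorem yn_yR (h : Siz D) {c n s : ℕ} (hc : c < D.nB) (hs : s < n) (A : ℕ) :
    (D.yR A c n s : ℤ) = P (D.sz c) fun l => ∑ e ∈ range (D.ni c),
      (ynD (D.mr A e) s * ynP D c e l + (2 ^ 32 - ynD (D.mr A e) s) * ynN D c e l) := by
  rw [Dat.yR, sumLT_eq, Nat.cast_sum, ← P_sum]
  refine sum_congr rfl fun e he => ?_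
  have he := mem_range.1 he
  have h1 : (l96 (D.mR A n e) s : ℤ) = ynD (D.mr A e) s :=
    yn_l96 (yn_m32 _ _) (fun l _ => (ynD_bd _ l).1)
      (fun l _ => by have := (ynD_bd (D.mr A e) l).2; omega) hs
  have h2 : ((4294967296 - l96 (D.mR A n e) s : ℕ) : ℤ) = 2 ^ 32 - ynD (D.mr A e) s := by
    have := ynD_bd (D.mr A e) s
    omega
  show ((l96 (D.mR A n e) s * D.pP c e + (4294967296 - l96 (D.mR A n e) s) * D.pN c e : ℕ) : ℤ) = _
  rw [Nat.cast_add, Nat.cast_mul, Nat.cast_mul, h1, h2, yn_pP h hc he, yn_pN h hc he, P_mul, P_mul,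
    P_add]

theorem yn_sum (h : Siz D) {b : ℕ} (hb : b < D.nB) (F : ℕ → ℤ)
    (hF : ∀ e, |F e| ≤ D.WW * 2 ^ 31) : |∑ e ∈ range (D.ni b), F e| ≤ 2 ^ 47 := by
  have h1 : |∑ e ∈ range (D.ni b), F e| ≤ ∑ _e ∈ range (D.ni b), (D.WW * 2 ^ 31 : ℤ) :=
    (abs_sum_le_sum_abs _ _).trans (sum_le_sum fun e _ => hF e)
  have h2 : (D.WW : ℤ) * D.ni b ≤ 65536 := by exact_mod_cast (h.ob b hb).2.2
  rw [sum_const, card_range, nsmul_eq_mul] at h1
  linarith

theorem yn_bd (h : Siz D) {b c : ℕ} (hb : b < D.nB) (hc : c < D.nB) (k s s' : ℕ) :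
    |Yz D b k c s s'| < 2 ^ 50 := by
  have h1 : |Xz D b k c s s'| ≤ 2 ^ 31 := yn_d32 _ _
  have h2 := yn_sum h hb (fun e => pz D b e s * Ml D b k c e s') fun e => by
    rw [abs_mul]
    exact mul_le_mul (yn_pz D b e s) (yn_d32 _ _) (abs_nonneg _) (by positivity)
  have h3 := yn_sum h hc (fun e => Mr D b k c e s * pz D c e s') fun e => by
    rw [abs_mul, mul_comm]
    exact mul_le_mul (yn_pz D c e s') (yn_d32 _ _) (abs_nonneg _) (by positivity)
  rw [abs_le] at h1 h2 h3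
  rw [Yz, abs_lt]
  omega

theorem yn_row (h : Siz D) {b c s : ℕ} (hb : b < D.nB) (hc : c < D.nB) (hs : s < D.sz b) (k : ℕ) :
    (D.yn b k c s : ℤ) = P (D.sz c) fun l => Yz D b k c s l + 2 ^ 50 := by
  show ((Nat.land (D.xr (D.adr b k c) (D.sz c) s) (Dat.m32 (D.sz c)) + 1125899906842624 * on (D.sz c) +
      (D.yL (D.adr b k c) b (D.sz c) s + D.yR (D.adr b k c) c (D.sz b) s) -
    2147483648 * ((l96 (D.pS b) s + 1) * on (D.sz c) + D.pS c) : ℕ) : ℤ) = _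
  refine P_natsub ?_ fun l _ => by
    have := yn_bd h hb hc k s l
    rw [abs_lt] at this
    omega
  simp only [Nat.cast_add, Nat.cast_mul]
  rw [yn_m32, yn_on, yn_yL h hb hs, yn_yR h hc hs, yn_pS h hc,
    yn_l96 (yn_pS h hb) (fun l _ => (ynS_bd h hb l).1)
      (fun l _ => by have := (ynS_bd h hb l).2; omega) hs, P_mul, P_mul, P_add, P_add, P_add, P_add,
    P_mul, P_sub]
  refine P_congr fun l hl => ?_
  have h1 : ∑ e ∈ range (D.ni b), pz D b e s * Ml D b k c e l = ∑ e ∈ range (D.ni b),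
      (ynP D b e s * ynD (D.ml (D.adr b k c) e) l +
        ynN D b e s * (2 ^ 32 - ynD (D.ml (D.adr b k c) e) l)) - 2 ^ 31 * ynS D b s := by
    rw [ynS, mul_sum, ← sum_sub_distrib]
    refine sum_congr rfl fun e _ => ?_
    show (ynP D b e s - ynN D b e s) * (ynD (D.ml (D.adr b k c) e) l - 2 ^ 31) = _
    ring
  have h2 : ∑ e ∈ range (D.ni c), Mr D b k c e s * pz D c e l = ∑ e ∈ range (D.ni c),
      (ynD (D.mr (D.adr b k c) e) s * ynP D c e l +
        (2 ^ 32 - ynD (D.mr (D.adr b k c) e) s) * ynN D c e l) - 2 ^ 31 * ynS D c l := by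
    rw [ynS, mul_sum, ← sum_sub_distrib]
    refine sum_congr rfl fun e _ => ?_
    show (ynD (D.mr (D.adr b k c) e) s - 2 ^ 31) * (ynP D c e l - ynN D c e l) = _
    ring
  have h3 : Xz D b k c s l = ynD (D.xb (D.adr b k c)) (D.sz c * s + l) - 2 ^ 31 := rfl
  rw [Yz, h1, h2, h3, yn_xr D _ _ _ _ hl]
  push_cast
  ring

theorem yn_yn (h : Siz D) : Yn D := fun b hb c hc k s hs =>
  ⟨fun s' _ => yn_bd h hb (by omega) k s s', P_toNat (yn_row h hb (by omega) hs k) fun l _ => by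
    have := yn_bd h hb (show c < D.nB by omega) k s l
    rw [abs_lt] at this
    omega⟩

theorem yn_tot {n : ℕ} (hn : n ≤ 1024) (F : ℕ → ℤ) (hF : ∀ l, |F l| < 2 ^ 50) :
    0 ≤ ∑ l ∈ range n, (F l + 2 ^ 50) ∧ ∑ l ∈ range n, (F l + 2 ^ 50) ≤ 2 ^ 61 := by
  refine ⟨sum_nonneg fun l _ => by have := abs_lt.1 (hF l); omega, ?_⟩
  have h1 : ∑ l ∈ range n, (F l + 2 ^ 50) ≤ ∑ _l ∈ range n, (2 ^ 51 : ℤ) :=
    sum_le_sum fun l _ => by have := abs_lt.1 (hF l); omega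
  rw [sum_const, card_range, nsmul_eq_mul] at h1
  omega

theorem yn_zs (h : Siz D) (hz : ZsOk D) : Zs D := by
  intro b hb c hc k hk
  have hc : c < D.nB := by omega
  have hb1 := (h.ob b hb).2.1
  have hc1 := (h.ob c hc).2.1
  obtain ⟨h1, h2⟩ := (an_iff _ _).1 (hz b hb c (by omega) k hk)
  refine ⟨fun s hs => ?_, fun l hl => ?_⟩
  · have h3 : D.yn b k c s % M96 = 1125899906842624 * D.sz c :=
      Nat.eq_of_beq_eq_true ((allLT_iff _ _).1 h1 s hs)
    have h4 : ((∑ l ∈ range (D.sz c), (Yz D b k c s l + 2 ^ 50).toNat : ℕ) : ℤ) =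
        ∑ l ∈ range (D.sz c), (Yz D b k c s l + 2 ^ 50) := by
      rw [Nat.cast_sum]
      exact sum_congr rfl fun l _ => by have := abs_lt.1 (yn_bd h hb hc k s l); omega
    have h5 := yn_tot hc1 (Yz D b k c s) (yn_bd h hb hc k s)
    rw [(yn_yn h b hb c (by omega) k s hs).2, yn_mod, Nat.mod_eq_of_lt (by rw [M96]; omega)] at h3
    rw [h3, sum_add_distrib, sum_const, card_range, nsmul_eq_mul] at h4
    push_cast at h4
    omega
  · have h3 : sumLT (D.sz b) (D.yn b k c) = 1125899906842624 * D.sz b * on (D.sz c) :=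
      Nat.eq_of_beq_eq_true h2
    have h4 : (sumLT (D.sz b) (D.yn b k c) : ℤ) =
        P (D.sz c) fun l => ∑ s ∈ range (D.sz b), (Yz D b k c s l + 2 ^ 50) := by
      rw [sumLT_eq, Nat.cast_sum, ← P_sum]
      exact sum_congr rfl fun s hs => yn_row h hb hc (mem_range.1 hs) k
    have h5 : (sumLT (D.sz b) (D.yn b k c) : ℤ) =
        P (D.sz c) fun _ => (1125899906842624 * D.sz b : ℤ) * 1 := by
      rw [h3, Nat.cast_mul, yn_on, P_mul, Nat.cast_mul]
      rfl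
    have h6 := fun l => yn_tot hb1 (fun s => Yz D b k c s l) fun s => yn_bd h hb hc k s l
    have h7 := yn_l96 h4 (fun l _ => (h6 l).1) (fun l _ => by have := (h6 l).2; omega) hl
    rw [yn_l96 h5 (fun l _ => by omega) (fun l _ => by omega) hl, sum_add_distrib, sum_const,
      card_range, nsmul_eq_mul] at h7
    omega

theorem ynSt : YnSt := fun _ h => ⟨yn_yn h, yn_zs h⟩

end Pool.Agent.MQ
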