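import Pool.Agent.Lib.MP_c86c76_al.Q.Wrd
import Pool.Agent.Lib.MP_c86c76_al.Q.Geo
import Pool.Agent.Lib.MP_c86c76_al.Q.Fac
import Pool.Agent.Lib.MP_c86c76_al.Q.Ent
import Pool.Agent.Lib.MP_c86c76_al.Q.Gat
import Pool.Agent.Lib.MP_c86c76_al.Q.Yn
import Pool.Agent.Lib.MP_c86c76_al.Q.Lan
import Pool.Agent.Lib.MP_c86c76_al.Q.Sos
import Pool.Agent.Lib.MP_c86c76_al.Q.Row
import Pool.Agent.Lib.MP_c86c76_al.Q.Top

/-!
The engine of a relative energy certificate.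
-/

set_option autoImplicit false

namespace Pool.Agent.MQ

theorem engSt : EngSt :=
  topSt wrdSt geoSt facSt permSt entSt gatSt ynSt lanSt sosSt rowSt balSt

end Pool.Agent.MQ
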