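import Pool.Agent.Lib.MP_c86c76_al.Q.St
import Pool.Agent.Lib.MP_c86c76_al.C.Tab

/-!
Tables of move lists, and splitting of the long checks.
-/

set_option autoImplicit false

noncomputable section

namespace Pool.Agent.MQ

open Pool.Agent.MC

/-- Lane `l` of a number that starts with its lane width. -/
def vl (N l : ℕ) : ℕ :=
  fc 0 N fun N' => fc 0 (Nat.mul 20 (Nat.land N' 255)) fun w =>
    bits N' (Nat.add 8 (Nat.mul w l)) (Nat.sub (Nat.shiftLeft 1 w) 1)

theorem fce {α : Type} (z : α) (v : ℕ) (k : ℕ → α) : fc z v k = k v := (fc_eq z v k).trans rfl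

theorem asmApp {a l a' l' L : ℕ} {p : ℕ → Bool} (h : allIn a l p = true) (h' : allIn a' l' p = true)
    (e : a + l = a') (e' : l + l' = L) : allIn a L p = true := e' ▸ allIn_app h (e ▸ h')

theorem all2 {n m : ℕ} {p : ℕ → ℕ → Bool} (h : allIn 0 n (fun a => allLT m (p a)) = true) :
    ∀ a < n, ∀ b < m, p a b = true := fun a ha => (allLT_iff _ _).1 (allIn_lt h a ha)

namespace Dat

variable (D : Dat) (dB gB : ℕ → ℕ) (nF : ℕ)

def pD (nA d : ℕ) : Bool :=
  allIn (D.bo d) (Nat.sub (D.bo (Nat.succ d)) (D.bo d)) fun B =>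
    an (Nat.beq (dB B) d) (Nat.blt B nA)

def pB1 (B d x : ℕ) : Bool :=
  an (Nat.blt (kB x) D.nB) (an (Nat.ble (kC x) (kB x)) (an (Nat.blt (kK x) D.nK)
    (an (Nat.blt 0 (kN x)) (an (Nat.beq (D.ip (D.ad x)) B) (an (D.vOk (D.vw d))
      (allIn (kG x) (kN x) fun g => an (Nat.beq (gB g) B) (Nat.blt g nF)))))))

def pB (B : ℕ) : Bool := fc false (dB B) fun d => fc false (D.bk B) (D.pB1 gB nF B d)

def pG (g : ℕ) : Bool :=
  fc false (gB g) fun B => fc false (dB B) fun d => fc false (D.bk B) fun x =>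
    fc false (kB x) fun b => fc false (kK x) fun k => fc false (kC x) fun c => D.fact d b k c g

def pZ (q : ℕ) : Bool :=
  fc false (Nat.div q 32) fun b => fc false (Nat.mod q 32) fun c =>
    Bool.rec (motive := fun _ => Bool) (allLT D.nK fun k => D.zsOk b k c) true (Nat.blt b c)

def pF (nP b : ℕ) : Bool :=
  allIn (D.ob b) (D.sz b) fun j => an (Nat.beq (dB j) b) (Nat.blt j nP)

def pR (j : ℕ) : Bool := fc false (dB j) fun b => fc false (Nat.sub j (D.ob b)) (D.rowOk b)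

end Dat

theorem blkOk_of {D : Dat} {dB gB : ℕ → ℕ} {nF nA : ℕ}
    (hD : allIn 0 D.nD (D.pD dB nA) = true) (hB : allIn 0 nA (D.pB dB gB nF) = true)
    (hG : allIn 0 nF (D.pG dB gB) = true) : BlkOk D := by
  intro d hd B h1 h2
  have h3 := (allIn_iff _ _ _).1 (allIn_lt hD d hd) B h1
    (by show B < D.bo d + (D.bo (d + 1) - D.bo d); omega)
  simp only [an_iff, Nat.beq_eq, Nat.blt_eq] at h3
  have h4 := allIn_lt hB B h3.2
  rw [Dat.pB, fce, fce, h3.1, Dat.pB1] at h4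
  simp only [an_iff] at h4
  rw [Dat.blkOk, fce, fce, fce, fce, Dat.blk1]
  simp only [an_iff]
  refine ⟨h4.1, h4.2.1, h4.2.2.1, h4.2.2.2.1, h4.2.2.2.2.1, h4.2.2.2.2.2.1, ?_⟩
  rw [allIn_iff]
  intro g g1 g2
  have h5 := (allIn_iff _ _ _).1 h4.2.2.2.2.2.2 g g1 g2
  simp only [an_iff, Nat.beq_eq, Nat.blt_eq] at h5
  have h6 := allIn_lt hG g h5.2
  rw [Dat.pG, fce, fce, fce, fce, fce, fce, h5.1, h3.1] at h6
  exact h6

theorem zsOk_of {D : Dat} (hn : D.nB ≤ 32) (h : allIn 0 (32 * D.nB) D.pZ = true) : ZsOk D := by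
  intro b hb c hc k hk
  have h1 := allIn_lt h (32 * b + c) (by omega)
  have e1 : Nat.div (32 * b + c) 32 = b := by show (32 * b + c) / 32 = b; omega
  have e2 : Nat.mod (32 * b + c) 32 = c := by show (32 * b + c) % 32 = c; omega
  have e3 : Nat.blt b c = false := by
    rw [← Bool.not_eq_true, Nat.blt_eq]; omega
  simp only [Dat.pZ, fc_eq, e1, e2, e3] at h1
  exact (allLT_iff _ _).1 h1 k hk

theorem rowOk_of {D : Dat} {fb : ℕ → ℕ} {nP : ℕ} (hF : allIn 0 D.nB (D.pF fb nP) = true)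
    (h : allIn 0 nP (D.pR fb) = true) : ∀ b < D.nB, ∀ s < D.sz b, D.rowOk b s = true := by
  intro b hb s hs
  have h3 := (allIn_iff _ _ _).1 (allIn_lt hF b hb) (D.ob b + s) (by omega) (by omega)
  simp only [an_iff, Nat.beq_eq, Nat.blt_eq] at h3
  have h4 := allIn_lt h _ h3.2
  have e : Nat.sub (D.ob b + s) (D.ob b) = s := by show D.ob b + s - D.ob b = s; omega
  rw [Dat.pR, fce, fce, h3.1, e] at h4
  exact h4

theorem sumIn_app (a m b : ℕ) (f : ℕ → ℕ) (h1 : a ≤ m) (h2 : m ≤ b) :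
    sumIn a b f = Nat.add (sumIn a m f) (sumIn m b f) := by
  have e : ∀ x y, sumIn x y f = ∑ i ∈ Finset.Ico x y, f i := by
    intro x y
    simp only [sumIn, sumLT_eq, fc_eq]
    rw [Finset.sum_Ico_eq_sum_range]
    rfl
  rw [e, e, e]
  exact (Finset.sum_Ico_consecutive f h1 h2).symm

end Pool.Agent.MQ
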