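import Pool.Agent.Lib.MP_c86c76_al.C.Defs

/-!
The checkers of a relative energy certificate. Words are numbers in base 32, the last letter is
the lowest digit.
-/

set_option autoImplicit false

noncomputable section

namespace Pool.Agent.MQ

open Pool.Agent.MC

/-- The number of digits. -/
def ln (x : ℕ) : ℕ := Nat.div (Nat.log2 (Nat.add (Nat.mul 32 x) 16)) 5

def dgt (x i : ℕ) : ℕ := bits x (Nat.mul 5 i) 31

/-- Multiplication by the inverse of a letter. -/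
def stp (r d : ℕ) : ℕ :=
  Bool.rec (motive := fun _ => ℕ) (Nat.add (Nat.mul 32 r) (Nat.xor d 1)) (Nat.shiftRight r 5)
    (Nat.beq (Nat.land r 31) d)

/-- `P * M⁻¹`. -/
def dv1 (P M : ℕ) : ℕ := Nat.rec (motive := fun _ => ℕ) P (fun i r => stp r (dgt M i)) (ln M)

def dv (P M : ℕ) : ℕ := fc 0 P fun P' => fc 0 M fun M' => dv1 P' M'

/-- The inverse word. -/
def rv (M : ℕ) : ℕ :=
  Nat.rec (motive := fun _ => ℕ) 0
    (fun i r => Nat.add (Nat.mul 32 r) (Nat.xor (dgt M i) 1)) (ln M)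

/-- `P * (φ w)⁻¹`. -/
def si1 (W : ℕ → ℕ) (P w : ℕ) : ℕ :=
  Nat.rec (motive := fun _ => ℕ) P (fun i r => fc 0 (dgt w i) fun d => dv r (W d)) (ln w)

def si (W : ℕ → ℕ) (P w : ℕ) : ℕ := fc 0 w fun w' => si1 W P w'

def lane (Wp l : ℕ) : ℕ := bits Wp (Nat.mul 320 l) (Nat.sub (Nat.shiftLeft 1 320) 1)

/-- The image of a letter. -/
def tb (Wp d : ℕ) : ℕ :=
  Nat.rec (motive := fun _ => ℕ) (lane Wp (Nat.shiftRight d 1))
    (fun _ _ => rv (lane Wp (Nat.shiftRight d 1))) (Nat.land d 1)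

def md (x s : ℕ) : ℕ := Nat.mod x (Nat.shiftLeft 1 s)

def on (n : ℕ) : ℕ := pk 96 n fun _ => 1
def on8 (n : ℕ) : ℕ := pk 80 n fun _ => 1
def M96 : ℕ := 79228162514264337593543950335
def l96 (x s : ℕ) : ℕ := bits x (Nat.mul 96 s) 79228162514264337593543950335

def sumIn (a b : ℕ) (f : ℕ → ℕ) : ℕ := sumLT (Nat.sub b a) fun u => fc 0 (Nat.add a u) f

def isz (x : ℕ) : Bool := Nat.beq x 0

/-- The data. -/
structure Dat where
  nX : ℕ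
  rl : ℕ → ℕ
  nU : ℕ
  wh : ℕ → ℕ
  wi : ℕ → ℕ
  nK : ℕ
  mul : ℕ → ℕ → ℕ
  inv : ℕ → ℕ
  nC : ℕ
  mc : ℕ → ℕ → ℕ
  ic : ℕ → ℕ
  kc : ℕ → ℕ
  ng : ℕ
  gs : ℕ → ℕ
  wt : ℕ → ℕ
  sy : ℕ → ℕ
  nT : ℕ
  sg : ℕ → ℕ
  et : ℕ → ℕ → ℕ
  ht : ℕ → ℕ → ℕ
  nM : ℕ
  me : ℕ → ℕ
  mp : ℕ → ℕ
  mu : ℕ → ℕ
  mx : ℕ → ℕ
  wr : ℕ → ℕ → ℕ → ℕ → ℕ
  nB : ℕ
  wb : ℕ → ℕ
  ob : ℕ → ℕ
  pn : ℕ → ℕ
  pt : ℕ → ℕ
  pa : ℕ → ℕ
  dl : ℕ → ℕ
  wp : ℕ → ℕ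
  ni : ℕ → ℕ
  it : ℕ → ℕ → ℕ
  nb : ℕ → ℕ → ℕ → ℕ
  wn : ℕ → ℕ → ℕ → ℕ
  am : ℕ → ℕ → ℕ
  wa : ℕ → ℕ → ℕ
  nD : ℕ
  vw : ℕ → ℕ
  bo : ℕ → ℕ
  bk : ℕ → ℕ
  ip : ℕ → ℕ
  fa : ℕ → ℕ
  wf : ℕ → ℕ → ℕ
  cw : ℕ → ℕ → ℕ
  tz : ℕ → ℕ
  tr : ℕ → ℕ
  nl : ℕ → ℕ
  ko : ℕ → ℕ
  kt : ℕ → ℕ
  sm : ℕ → ℕ
  tp : ℕ → ℕ
  tq : ℕ → ℕ
  xb : ℕ → ℕ
  ml : ℕ → ℕ → ℕ
  mr : ℕ → ℕ → ℕ
  nY : ℕ
  db : ℕ → ℕ
  tt : ℕ → ℕ → ℕ → ℕ
  ww : ℕ → ℕ → ℕ → ℕ → ℕ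
  nG : ℕ → ℕ
  dr : ℕ → ℕ → ℕ
  LL : ℕ → ℕ → List ℕ
  sh : ℕ
  tau : ℕ
  hh : ℕ

namespace Dat

variable (D : Dat)

/-! Moves. -/

def mv2 (x p5 R t5 : ℕ) : ℕ :=
  Nat.rec (motive := fun _ => ℕ)
    (Nat.add (Nat.shiftLeft (Nat.add
      (Nat.shiftLeft (Nat.shiftRight x (Nat.add p5 t5)) (Nat.sub (Nat.mul 5 (ln R)) t5))
      (md (rv R) (Nat.sub (Nat.mul 5 (ln R)) t5))) p5) (md x p5))
    (fun _ _ => x) (md (Nat.xor (Nat.shiftRight x p5) R) t5)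

def mv (x c : ℕ) : ℕ :=
  fc 0 x fun x' => fc 0 (bits c 8 63) fun j =>
    mv2 x' (Nat.mul 5 (Nat.land c 255)) (D.rl j) (Nat.mul 5 (bits c 14 31))

def mvs1 (x w : ℕ) : ℕ :=
  Nat.rec (motive := fun _ => ℕ) x (fun i r => D.mv r (bits w (Nat.mul 20 i) 1048575))
    (Nat.div (Nat.add (Nat.log2 w) 19) 20)

/-- A list of moves. -/
def mvs (x w : ℕ) : ℕ := Nat.rec (motive := fun _ => ℕ) x (fun v _ => D.mvs1 x (Nat.succ v)) w

/-! Relations between elements of the fibre group. -/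

def ap (x y : ℕ) : ℕ :=
  dv (si (tb (D.wh (Nat.land x 1023))) (Nat.shiftRight x 10) y) (Nat.shiftRight x 10)

def uOk (x : ℕ) : Bool := Nat.blt (Nat.land x 1023) D.nU

def rel (x1 x2 x3 y1 y2 y3 : ℕ) (w : ℕ → ℕ) : Bool :=
  an (D.uOk x1) (an (D.uOk x2) (an (D.uOk x3) (an (D.uOk y1) (an (D.uOk y2) (an (D.uOk y3)
    (allIn 1 D.nX fun l => Nat.beq (D.mvs (D.ap x1 (D.ap x2 (D.ap x3 (Nat.mul 2 l)))) (w l))
      (D.ap y1 (D.ap y2 (D.ap y3 (Nat.mul 2 l))))))))))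

def kOk (a b : ℕ) : Bool :=
  an (Nat.blt (D.mul a b) D.nK) (an (Nat.beq (D.mul (D.inv a) (D.mul a b)) b)
    (D.rel a b 0 (D.mul a b) 0 0 (D.wr 0 a b)))

def kiOk (a : ℕ) : Bool :=
  an (Nat.blt (D.inv a) D.nK) (Nat.beq (D.inv (D.inv a)) a)

def cOk (a b : ℕ) : Bool :=
  an (Nat.blt (D.mc a b) D.nC) (an (Nat.beq (D.mc (D.ic a) (D.mc a b)) b)
    (D.rel (D.kc a) (D.kc b) 0 (D.kc (D.mc a b)) 0 0 (D.wr 1 a b)))

def ciOk (a : ℕ) : Bool := an (Nat.blt (D.ic a) D.nC) (Nat.beq (D.ic (D.ic a)) a)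

def gOk (a : ℕ) : Bool :=
  an (Nat.blt 0 (D.wt a)) (an (Nat.blt (Nat.land (D.sy a) 1023) D.nC)
    (an (Nat.blt (bits (D.sy a) 10 1023) D.nC)
      (D.rel (D.gs a) (D.kc (Nat.land (D.sy a) 1023)) (D.gs a) (D.kc (bits (D.sy a) 10 1023)) 0 0
        (D.wr 2 a 0))))

/-- The fields of a table entry: type, element of the right group, inverse word. -/
def fT (E : ℕ) : ℕ := Nat.land E 31
def fC (E : ℕ) : ℕ := bits E 5 1023
def fW (E : ℕ) : ℕ := Nat.shiftRight E 15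

def etOk (u t : ℕ) : Bool :=
  an (Nat.blt (fT (D.et u t)) D.nT) (an (Nat.blt (fC (D.et u t)) D.nC)
    (D.rel (Nat.shiftLeft (fW (D.et u t)) 10) u (D.sg t) (D.sg (fT (D.et u t)))
      (D.kc (fC (D.et u t))) 0 (D.wr 3 u t)))

def nS : ℕ := Nat.mul D.ng D.nC
def sa (x : ℕ) : ℕ := Nat.div x D.nC
def sc (x : ℕ) : ℕ := Nat.mod x D.nC

def htOk (t x : ℕ) : Bool :=
  an (Nat.blt (fT (D.ht t x)) D.nT) (an (Nat.blt (fC (D.ht t x)) D.nC)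
    (D.rel (D.sg t) (D.kc (D.sc x)) (D.gs (D.sa x)) (Nat.shiftLeft (rv (fW (D.ht t x))) 10)
      (D.sg (fT (D.ht t x))) (D.kc (fC (D.ht t x))) (D.wr 4 t x)))

def gen (y : ℕ) : ℕ :=
  Bool.rec (motive := fun _ => ℕ) (D.gs (Nat.sub y D.nC)) (D.kc y) (Nat.blt y D.nC)

def meOk (t : ℕ) : Bool :=
  an (Nat.blt (Nat.land (D.mp t) 65535) t) (an (Nat.blt (Nat.shiftRight (D.mp t) 16)
    (Nat.add D.nC D.ng)) (D.rel (D.me (Nat.land (D.mp t) 65535))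
      (D.gen (Nat.shiftRight (D.mp t) 16)) 0 (D.me t) 0 0 (D.wr 5 t 0)))

def muOk (u : ℕ) : Bool := an (Nat.blt (D.mu u) D.nM) (Nat.beq (D.me (D.mu u)) u)

def mxOk (l : ℕ) : Bool :=
  an (Nat.blt (D.mx l) D.nM) (Nat.beq (D.me (D.mx l)) (Nat.mul 2048 l))

/-! Points. -/

def sz (b : ℕ) : ℕ := Nat.sub (D.ob (Nat.succ b)) (D.ob b)

/-- The point `j2` is the neighbour of the point `j` in the direction `x`. -/
def adj (j x j2 w : ℕ) : Bool :=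
  an (Nat.beq (fT (D.ht (D.pt j) x)) (D.pt j2))
    (Nat.beq (D.mvs (dv (D.pn j) (fW (D.ht (D.pt j) x))) w) (D.pn j2))

def paOk (b j : ℕ) : Bool :=
  an (Nat.blt (D.pt j) D.nT)
    (Nat.rec (motive := fun _ => Bool) (an (isz (D.pn j)) (isz (D.pt j))) (fun v _ =>
      an (Nat.blt (Nat.land v 1023) (D.sz b)) (an (Nat.blt (Nat.shiftRight v 10) D.nS)
        (an (Nat.blt (D.dl (Nat.add (D.ob b) (Nat.land v 1023))) (D.dl j))
          (D.adj (Nat.add (D.ob b) (Nat.land v 1023)) (Nat.shiftRight v 10) j (D.wp j)))))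
      (D.pa j))

def inOk (b e : ℕ) : Bool :=
  an (Nat.blt (D.it b e) (D.sz b)) (allLT D.nS fun x => an (Nat.blt (D.nb b e x) (D.sz b))
    (D.adj (Nat.add (D.ob b) (D.it b e)) x (Nat.add (D.ob b) (D.nb b e x)) (D.wn b e x)))

def WW : ℕ := sumLT D.nS fun x => D.wt (D.sa x)

def fibOk (b : ℕ) : Bool :=
  an (Nat.ble (D.ob b) (D.ob (Nat.succ b))) (an (Nat.ble (D.sz b) 1024)
    (an (Nat.ble (Nat.mul D.WW (D.ni b)) 65536)
      (an (allIn (D.ob b) (D.sz b) (D.paOk b)) (allLT (D.ni b) (D.inOk b)))))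

def aT (A : ℕ) : ℕ := Nat.land A 31
def aM (A : ℕ) : ℕ := Nat.shiftRight A 5
def aQ (A : ℕ) : ℕ := Nat.mul 5 (ln (aM A))
def aI (A : ℕ) : ℕ := Nat.add (Nat.shiftLeft (rv (aM A)) 10) (aT A)

def amOk (u j : ℕ) : Bool :=
  an (Nat.beq (aT (D.am u j)) (fT (D.et u (D.pt j))))
    (Nat.beq (D.mvs (si (tb (D.wh u)) (fW (D.et u (D.pt j))) (D.pn j)) (D.wa u j)) (aM (D.am u j)))

/-! Blocks and facts. -/

def kB (x : ℕ) : ℕ := Nat.land x 1023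
def kK (x : ℕ) : ℕ := bits x 10 1023
def kC (x : ℕ) : ℕ := bits x 20 1023
def kN (x : ℕ) : ℕ := bits x 30 511
def kG (x : ℕ) : ℕ := Nat.shiftRight x 39

def adr (b k c : ℕ) : ℕ :=
  Nat.add (Nat.mul (Nat.add (Nat.div (Nat.mul b (Nat.succ b)) 2) c) D.nK) k

def ad (x : ℕ) : ℕ := D.adr (kB x) (kK x) (kC x)

def gE (g : ℕ) : ℕ := Nat.land (D.fa g) 1
def gU (g : ℕ) : ℕ := bits (D.fa g) 1 1023
def gV (g : ℕ) : ℕ := bits (D.fa g) 11 1023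
def gM (g : ℕ) : ℕ := Nat.shiftRight (D.fa g) 21

def ck (k c v d : ℕ) : ℕ := si (tb (D.wh k)) 0 (si (tb (D.wb c)) 0 (tb (D.wi v) d))

def fact1 (d b k c g u v : ℕ) : Bool :=
  an (Nat.blt u D.nU) (an (Nat.blt v D.nU) (allIn 1 D.nX fun l =>
    Nat.beq (D.mvs (si (D.ck k c v) 0
        (dv (dv (D.gM g) (tb (D.vw d) (Nat.succ (Nat.mul 2 l)))) (D.gM g))) (D.wf g l))
      (si (tb (D.wb b)) 0 (lane (D.wi u) l))))

def fact (d b k c g : ℕ) : Bool :=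
  fc false (D.gU g) fun u => fc false (D.gV g) fun v =>
    Nat.rec (motive := fun _ => Bool) (D.fact1 d b k c g u v)
      (fun _ _ => fc false (D.inv k) fun k' => D.fact1 d c k' b g u v) (D.gE g)

/-- The unused lanes of a table are empty. -/
def vOk (Wp : ℕ) : Bool :=
  an (isz (lane Wp 0)) (Nat.blt Wp (Nat.shiftLeft 1 (Nat.mul 320 (Nat.succ D.nX))))

def blk1 (d B x b k c : ℕ) : Bool :=
  an (Nat.blt b D.nB) (an (Nat.ble c b) (an (Nat.blt k D.nK) (an (Nat.blt 0 (kN x))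
    (an (Nat.beq (D.ip (D.ad x)) B) (an (D.vOk (D.vw d)) (allIn (kG x) (kN x) (D.fact d b k c)))))))

def blkOk (d B : ℕ) : Bool :=
  fc false (D.bk B) fun x => fc false (kB x) fun b => fc false (kK x) fun k =>
    fc false (kC x) fun c => D.blk1 d B x b k c

/-! The sums over the classes. -/

def la (g j : ℕ) : ℕ := fc 0 (D.gU g) fun u => D.am u j
def ra (g j : ℕ) : ℕ := fc 0 (D.gV g) fun v => D.am v j

def ctr (d g o s : ℕ) : ℕ :=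
  fc 0 (Nat.add o s) fun j =>
    D.mvs (dv (si (tb (D.vw d)) 0 (rv (aM (D.la g j)))) (D.gM g)) (D.cw g s)

def lt5 (g o s : ℕ) : ℕ := fc 0 (Nat.add o s) fun j => Nat.mul 32 (aT (D.la g j))
def rc (g o s : ℕ) : ℕ := fc 0 (Nat.add o s) (D.ra g)

def key (d m : ℕ) : ℕ :=
  fc 0 (Nat.add (D.ko d) (Nat.shiftRight m 5)) fun h =>
    bits (D.kt h) (Nat.mul 160 (Nat.land m 31)) (Nat.sub (Nat.shiftLeft 1 160) 1)

def er2 (P L A t5 e y : ℕ) : ℕ :=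
  Nat.add (md (Nat.xor P (aM A)) t5)
    (Nat.xor y (Nat.add (Nat.add (Nat.shiftLeft (Nat.shiftRight P t5) e) (md (aI A) e)) L))

def er1 (P L A t5 y : ℕ) : ℕ := er2 P L A t5 (Nat.add (Nat.sub (aQ A) t5) 10) y

def er0 (d g o s o' s' r y : ℕ) : ℕ :=
  Nat.rec (motive := fun _ => ℕ)
    (er1 (D.ctr d g o s) (D.lt5 g o s) (D.rc g o' s') (Nat.mul 5 (bits r 52 15)) y)
    (fun _ _ => er1 (D.ctr d g o' s') (D.lt5 g o' s') (D.rc g o s) (Nat.mul 5 (bits r 52 15)) y)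
    (D.gE g)

/-- Zero if the entry has the key `y`. -/
def er (d g0 nf o s o' s' r y : ℕ) : ℕ :=
  fc 0 (Nat.add g0 (Nat.mod (bits r 56 511) nf)) fun g => D.er0 d g o s o' s' r y

def ent1 (d g0 nf o s o' s' r : ℕ) : ℕ :=
  Nat.rec (motive := fun _ => ℕ)
    (Nat.rec (motive := fun _ => ℕ) 0 (fun _ _ => Nat.rec (motive := fun _ => ℕ) 0 (fun _ _ => 1)
      (Nat.add d (D.er d g0 nf o s o' s' r (Nat.mul 33 (bits r 65 31)))))
      (Nat.xor (Nat.land r 4294967295) 2147483648))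
    (fun m _ => Nat.rec (motive := fun _ => ℕ)
      (Nat.shiftLeft (Nat.add (Nat.land r 4294967295) 72057594037927936) (Nat.add (Nat.mul 80 m) 80))
      (fun _ _ => 1) (D.er d g0 nf o s o' s' r (D.key d m)))
    (bits r 32 1048575)

def xr (A n s : ℕ) : ℕ := md (Nat.shiftRight (D.xb A) (Nat.mul (Nat.mul 96 n) s)) (Nat.mul 96 n)

def bac1 (d A g0 nf o n o' n' : ℕ) : ℕ :=
  sumLT n fun s => fc 0 (D.xr A n' s) fun R =>
    sumLT n' fun s' => D.ent1 d g0 nf o s o' s' (l96 R s')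

def bac (d B : ℕ) : ℕ :=
  fc 0 (D.bk B) fun x => fc 0 (D.ad x) fun A => fc 0 (kG x) fun g0 => fc 0 (kN x) fun nf =>
    fc 0 (D.ob (kB x)) fun o => fc 0 (D.sz (kB x)) fun n => fc 0 (D.ob (kC x)) fun o' =>
      fc 0 (D.sz (kC x)) fun n' => D.bac1 d A g0 nf o n o' n'

def trm1 (x m m' y y' : ℕ) : ℕ :=
  Nat.rec (motive := fun _ => ℕ)
    (Nat.add
      (Nat.shiftLeft (Nat.add (Nat.land x 4294967295) 72057594037927936) (Nat.add (Nat.mul 80 m) 80))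
      (Nat.shiftLeft (Nat.sub 72057598332895232 (Nat.land x 4294967295))
        (Nat.add (Nat.mul 80 m') 80)))
    (fun _ _ => 1)
    (Nat.add (Nat.land (Nat.xor y y') 1023)
      (Nat.xor (D.mvs (Nat.shiftRight y 10) (Nat.shiftRight x 72)) (Nat.shiftRight y' 10)))

def trm (d z : ℕ) : ℕ :=
  fc 0 (D.tr z) fun x => fc 0 (bits x 32 1048575) fun m => fc 0 (bits x 52 1048575) fun m' =>
    D.trm1 x m m' (D.key d m) (D.key d m')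

def acc (d : ℕ) : ℕ :=
  Nat.add (sumIn (D.bo d) (D.bo (Nat.succ d)) (D.bac d)) (sumIn (D.tz d) (D.tz (Nat.succ d)) (D.trm d))

def cnt (d : ℕ) : ℕ :=
  Nat.add (sumIn (D.bo d) (D.bo (Nat.succ d)) fun B =>
      Nat.mul (D.sz (kB (D.bk B))) (D.sz (kC (D.bk B))))
    (Nat.mul 2 (Nat.sub (D.tz (Nat.succ d)) (D.tz d)))

def fin2 (a o : ℕ) : Bool :=
  Nat.beq a (Nat.mul (Nat.land (Nat.shiftRight a 56) (Nat.mul o 16777215)) 72057596185411584)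

def fin1 (d a : ℕ) : Bool :=
  an (Nat.blt (D.cnt d) 16777216) (fc false (on8 (D.nl d)) (fin2 a))

def gatOk (d : ℕ) : Bool := fc false (D.acc d) (D.fin1 d)

/-! The multipliers. -/

def m32 (n : ℕ) : ℕ := Nat.mul (on n) 4294967295
def mL (A n e : ℕ) : ℕ := Nat.land (D.ml A e) (m32 n)
def mR (A n e : ℕ) : ℕ := Nat.land (D.mr A e) (m32 n)

def sL (x : ℕ) : ℕ := sumLT (D.ni (kB x)) fun e => Nat.mod (D.mL (D.ad x) (D.sz (kC x)) e) M96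
def sR (x : ℕ) : ℕ := sumLT (D.ni (kC x)) fun e => Nat.mod (D.mR (D.ad x) (D.sz (kB x)) e) M96
def cL (x : ℕ) : ℕ := Nat.mul 2147483648 (Nat.mul (D.ni (kB x)) (D.sz (kC x)))
def cR (x : ℕ) : ℕ := Nat.mul 2147483648 (Nat.mul (D.ni (kC x)) (D.sz (kB x)))
def b1 (x : ℕ) : ℕ := Nat.add (D.sL x) (D.cR x)
def b2 (x : ℕ) : ℕ := Nat.add (D.sR x) (D.cL x)

def bp (x : ℕ) : ℕ := Nat.rec (motive := fun _ => ℕ) (D.b1 x) (fun _ _ => D.b2 x) (D.gE (kG x))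
def bq (x : ℕ) : ℕ := Nat.rec (motive := fun _ => ℕ) (D.b2 x) (fun _ _ => D.b1 x) (D.gE (kG x))

def sB (d : ℕ) (F : ℕ → ℕ) : ℕ := sumIn (D.bo d) (D.bo (Nat.succ d)) fun B => fc 0 (D.bk B) F

def symOk (d B f : ℕ) : Bool :=
  an (Nat.ble (D.bo d) B) (an (Nat.blt B (D.bo (Nat.succ d))) (an (Nat.blt f (kN (D.bk B)))
    (Nat.beq (Nat.add (D.gE (kG (D.bk B))) (D.gE (Nat.add (kG (D.bk B)) f))) 1)))

def balOk (d : ℕ) : Bool :=
  an (Nat.ble (D.bo d) (D.bo (Nat.succ d)))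
    (an (Nat.rec (motive := fun _ => Bool) (Nat.beq (D.sB d D.bp) (D.sB d D.bq))
      (fun v _ => D.symOk d (Nat.shiftRight v 9) (Nat.land v 511)) (D.sm d))
    (Nat.beq (Nat.add (D.sB d fun x => Nat.add (D.sL x) (D.sR x)) (D.tq d))
      (Nat.add (D.sB d fun x => Nat.add (D.cL x) (D.cR x)) (D.tp d))))

/-! The matrix without the harmonic rows. -/

def pP (b e : ℕ) : ℕ := sumLT D.nS fun x => Nat.shiftLeft (D.wt (D.sa x)) (Nat.mul 96 (D.nb b e x))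
def pN (b e : ℕ) : ℕ := Nat.shiftLeft D.WW (Nat.mul 96 (D.it b e))
def pS (b : ℕ) : ℕ := sumLT (D.ni b) fun e => Nat.add (D.pP b e) (D.pN b e)

def yL (A b n' s : ℕ) : ℕ := sumLT (D.ni b) fun e =>
  Nat.add (Nat.mul (l96 (D.pP b e) s) (D.mL A n' e))
    (Nat.mul (l96 (D.pN b e) s) (Nat.sub (Nat.mul 4294967296 (on n')) (D.mL A n' e)))

def yR (A c n s : ℕ) : ℕ := sumLT (D.ni c) fun e =>
  Nat.add (Nat.mul (l96 (D.mR A n e) s) (D.pP c e))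
    (Nat.mul (Nat.sub 4294967296 (l96 (D.mR A n e) s)) (D.pN c e))

def yn1 (A b c n n' s : ℕ) : ℕ :=
  Nat.sub (Nat.add (Nat.add (Nat.land (D.xr A n' s) (m32 n')) (Nat.mul 1125899906842624 (on n')))
      (Nat.add (D.yL A b n' s) (D.yR A c n s)))
    (Nat.mul 2147483648 (Nat.add (Nat.mul (Nat.succ (l96 (D.pS b) s)) (on n')) (D.pS c)))

def yn (b k c s : ℕ) : ℕ :=
  fc 0 (D.adr b k c) fun A => fc 0 (D.sz b) fun n => fc 0 (D.sz c) fun n' => D.yn1 A b c n n' s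

def zsOk (b k c : ℕ) : Bool :=
  an (allLT (D.sz b) fun s =>
      Nat.beq (Nat.mod (D.yn b k c s) M96) (Nat.mul 1125899906842624 (D.sz c)))
    (Nat.beq (sumLT (D.sz b) (D.yn b k c)) (Nat.mul (Nat.mul 1125899906842624 (D.sz b)) (on (D.sz c))))

/-! The sum of squares. -/

def oN (b : ℕ) : ℕ := on (D.ob (Nat.succ b))
def mk3 (b : ℕ) : ℕ := Nat.mul (D.oN b) 1073741823

def col (y a b : ℕ) : List ℕ := Cer.drp (D.dr y b) (D.LL y a)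

def tri (x h M : ℕ) : ℕ :=
  Nat.add (Nat.add (Nat.mul (Nat.land x 1073741823) (Nat.land h M))
    (Nat.mul (bits x 32 1073741823) (bits h 32 M))) (Nat.mul (bits x 64 1073741823) (bits h 64 M))

def dot (b i : ℕ) (l1 : List ℕ) : List ℕ → ℕ :=
  List.rec (motive := fun _ => List ℕ → ℕ) (fun _ => 0) (fun h1 _ ih l2 =>
    List.rec (motive := fun _ => ℕ) 0
      (fun h2 t2 _ => Nat.add (tri (l96 h1 i) h2 (D.mk3 b)) (ih t2)) l2) l1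

def smm (b : ℕ) (l : List ℕ) : ℕ :=
  List.rec (motive := fun _ => ℕ) 0 (fun h _ ih => Nat.add (Nat.add (Nat.add
    (Nat.land h (D.mk3 b)) (bits h 32 (D.mk3 b))) (bits h 64 (D.mk3 b))) ih) l

def scl (y a b : ℕ) : ℕ := D.smm b (D.col y a b)

def wq (b i y a a' : ℕ) : ℕ :=
  Nat.sub (Nat.add (D.dot b i (D.col y a b) (D.col y a' b))
      (Nat.mul (Nat.add (Nat.mul (Nat.sub (D.nG y) (D.dr y b)) 864691128455135232)
        4722366482869645213696) (D.oN b)))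
    (Nat.mul 536870912 (Nat.add (D.scl y a' b) (Nat.mul (l96 (D.scl y a b) i) (D.oN b))))

def ws (b i y a a' w : ℕ) : ℕ :=
  Nat.mul (Nat.shiftRight w 1) (Nat.rec (motive := fun _ => ℕ) (D.wq b i y a a')
    (fun _ _ => Nat.sub (Nat.mul 9444732965739290427392 (D.oN b)) (D.wq b i y a a')) (Nat.land w 1))

def s3 (F : ℕ → ℕ → ℕ → ℕ) : ℕ :=
  sumLT D.nY fun y => sumLT (D.db y) fun a => sumLT (D.db y) fun a' => F y a a'

def mrow (b i k : ℕ) : ℕ := D.s3 fun y a a' => D.ws b i y a a' (D.ww y k a a')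

def cn (k : ℕ) : ℕ := D.s3 fun y a a' => Nat.shiftRight (D.ww y k a a') 1

def ylong (b k s : ℕ) : ℕ :=
  sumLT (Nat.succ b) fun c => Nat.shiftLeft (D.yn b k c s) (Nat.mul 96 (D.ob c))

def dg (i k : ℕ) : ℕ :=
  Nat.rec (motive := fun _ => ℕ) (Nat.shiftLeft D.tau (Nat.mul 96 i)) (fun _ _ => 0) k

def row2 (b P Q : ℕ) : Bool :=
  an (Nat.ble Q P) (Nat.beq (Nat.sub P Q) (Nat.land (Nat.sub P Q)
    (Nat.mul (D.oN b) (Nat.sub (Nat.shiftLeft 2 D.hh) 1))))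

def row1 (b i k s R : ℕ) : Bool :=
  D.row2 b
    (Nat.add (Nat.add (Nat.shiftLeft (D.ylong b k s) D.sh) (D.dg i k))
      (Nat.add (Nat.shiftLeft (D.oN b) D.hh)
        (Nat.mul (Nat.mul (D.cn k) 4722366482869645213696) (Nat.add (D.oN b) (on (D.ob b))))))
    (Nat.add (Nat.add R (md R (Nat.mul 96 (D.ob b)))) (Nat.shiftLeft (D.oN b) (Nat.add 50 D.sh)))

def rowOk (b s : ℕ) : Bool :=
  fc false (Nat.add (D.ob b) s) fun i => allLT D.nK fun k => D.row1 b i k s (D.mrow b i k)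

def wOk1 (y k a a' w : ℕ) : Bool :=
  Nat.beq (Nat.add (Nat.add (sumLT D.nK fun x => Nat.mul (D.tt y x a) (D.tt y (D.mul x k) a'))
      (Nat.mul D.nK 1048576)) (Nat.mul (Nat.land w 1) (Nat.shiftRight w 1)))
    (Nat.add (Nat.mul 1024 (sumLT D.nK fun x => Nat.add (D.tt y x a) (D.tt y (D.mul x k) a')))
      (Nat.mul (Nat.sub 1 (Nat.land w 1)) (Nat.shiftRight w 1)))

def wOk (k : ℕ) : Bool :=
  an (Nat.ble (D.cn k) 2097152) (allLT D.nY fun y => allLT (D.db y) fun a =>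
    allLT (D.db y) fun a' => D.wOk1 y k a a' (D.ww y k a a'))

def lOk (y : ℕ) : Bool :=
  an (Nat.ble (D.nG y) 2730) (an (allLT (D.db y) fun a => Nat.beq (D.LL y a).length (D.nG y))
    (allLT D.nB fun b => an (Nat.ble (D.dr y b) (D.dr y (Nat.succ b))) (Nat.ble (D.dr y b) (D.nG y))))

def nP : ℕ := D.ob D.nB

def finOk : Bool :=
  an (Nat.ble D.sh 40) (an (Nat.ble D.hh 90) (an (Nat.ble D.tau 1237940039285380274899124224)
    (Nat.blt (Nat.add (Nat.mul (Nat.shiftLeft (sumLT D.nD D.tq) D.sh) D.nC)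
        (Nat.mul 2 (Nat.add (Nat.mul D.tau (sumLT D.nP fun j => Nat.mul (D.dl j) (D.dl j)))
          (Nat.mul (Nat.shiftLeft D.nK D.hh) (Nat.mul (sumLT D.nP D.dl) (sumLT D.nP D.dl))))))
      (Nat.mul (Nat.shiftLeft (sumLT D.nD D.tp) D.sh) D.nC))))

def idOk (Wp : ℕ) : Bool := allIn 1 D.nX fun l => Nat.beq (lane Wp l) (Nat.mul 2 l)

/-- The tables of the fibre group. -/
def grpOk : Bool :=
  an (Nat.ble D.nX 15) (an (Nat.ble D.nU 1024) (an (Nat.blt 0 D.nK) (an (Nat.ble D.nK D.nU)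
    (an (Nat.blt 0 D.nC) (an (Nat.blt 0 D.nT) (an (Nat.ble D.nT 32) (an (isz (D.sg 0))
      (an (isz (D.me 0)) (an (D.idOk (D.wh 0)) (an (D.idOk (D.vw 0))
        (an (allLT D.nK D.kiOk) (an (allLT D.nC D.ciOk) (an (allLT D.ng D.gOk)
          (an (allLT D.nU D.muOk) (an (allIn 1 D.nX D.mxOk)
            (an (allIn 1 (Nat.sub D.nM 1) D.meOk)
              (allLT D.nT fun t => allLT D.nS (D.htOk t))))))))))))))))))

def offOk : Bool :=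
  an (isz (D.ob 0)) (an (isz (D.bo 0)) (an (Nat.ble D.nB 1024)
    (Nat.beq (D.bo D.nD) (D.adr D.nB 0 0))))

end Dat

end Pool.Agent.MQ
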