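import Pool.Agent.Lib.MP_c86c76_al.C.Wd

/-!
The model of a relative certificate in the automorphism group of a group with one relator.
-/

set_option autoImplicit false

noncomputable section

namespace Pool.Agent.MQ

open Pool.Agent.MC

/-- Three levels of Dehn reduction. -/
def deh (T T' s m : ℕ) : ℕ → ℕ → ℕ := pu T T' s m (pu T T' s m (pu T T' s m stp))

/-- The relator, the change of generators, the Dehn tables and the inverses of the base points. -/
structure MDat where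
  r : ℕ
  th : ℕ
  ti : ℕ
  tu : ℕ
  tv : ℕ
  T : ℕ
  C : ℕ
  T' : ℕ
  C' : ℕ
  s : ℕ
  m : ℕ
  wj : ℕ → ℕ
  cu : ℕ → ℕ
  cv : ℕ → ℕ

namespace MDat

variable (A : MDat) (D : Dat)

def wf (k : (ℕ → ℕ → ℕ) → Bool) : Bool :=
  fc false A.T fun T => fc false A.T' fun T' => fc false A.s fun s => fc false A.m fun m =>
    k (deh T T' s m)

def aOk (W W' u v : ℕ) : Bool :=
  A.wf fun f => fc false W fun a => fc false W' fun b => autOk f D.nX A.r (tb a) (tb b) u v

def uOk (u : ℕ) : Bool := A.aOk D (D.wh u) (D.wi u) 0 0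

def bOk (b : ℕ) : Bool := A.aOk D (D.wb b) (A.wj b) (A.cu b) (A.cv b)

/-- The change of generators from the relator `r0`, the Dehn tables, the relators. -/
def hdOk (r0 : ℕ) : Bool :=
  an (chgOk D.nX r0 A.r (tb A.th) (tb A.ti) A.tu A.tv)
    (an (tOk (dvf stp 0 A.r) A.T A.C) (an (tOk A.r A.T' A.C')
      (an (isz (Nat.mod A.s 5)) (an (Nat.beq (Nat.succ A.m) (Nat.shiftLeft 1 A.s))
        (A.wf fun f => allLT 64 fun j => isz (dvf f 0 (D.rl j)))))))

end MDat

/-- All checks of the model. -/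
structure ModOk (D : Dat) (A : MDat) (r0 : ℕ) : Prop where
  hd : A.hdOk D r0 = true
  rz : ∀ j, 64 ≤ j → D.rl j = 0
  hu : ∀ u < D.nU, A.uOk D u = true
  hb : ∀ b < D.nB, A.bOk D b = true

/-- A packed table is empty beyond its length. -/
theorem mod_bits {x w n j : ℕ} (m : ℕ) (h : x < 2 ^ (w * n)) (hj : n ≤ j) :
    bits x (w * j) m = 0 := by
  show (x >>> (w * j)) &&& m = 0
  rw [Nat.shiftRight_eq_div_pow, Nat.div_eq_of_lt
    (h.trans_le (Nat.pow_le_pow_right two_pos (Nat.mul_le_mul_left w hj))), Nat.zero_and]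

variable {Q : Type} [Group Q] {X : ℕ → Q}

theorem mod_rep {φ : MulAut Q} {W : ℕ} (h : RH X φ (tb W)) (l : ℕ) (hl : l < 16) :
    φ (X l) = ev X (lane W l) := by
  have := h (2 * l) (by omega)
  have e1 : Nat.land (2 * l) 1 = 0 := (land_eq _ 1).trans (by omega)
  have e2 : Nat.shiftRight (2 * l) 1 = l := (Nat.shiftRight_eq_div_pow _ 1).trans (by omega)
  rwa [lt_two, tb, e1, e2] at this

theorem mod_model {D : Dat} {r : ℕ} {f : ℕ → ℕ → ℕ} (M : Mark X D.nX r) (h : Snd X f)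
    {wj cu cv : ℕ → ℕ} (hR : ∀ j, ev X (D.rl j) = 1)
    (hU : ∀ u < D.nU, autOk f D.nX r (tb (D.wh u)) (tb (D.wi u)) 0 0 = true)
    (hB : ∀ b < D.nB, autOk f D.nX r (tb (D.wb b)) (tb (wj b)) (cu b) (cv b) = true) :
    ∃ η b : ℕ → MulAut Q, Model ⟨X, MonoidHom.id _, MulAut.conj, η, b⟩ D := by
  choose! η h1 h2 using fun u hu => M.aut h (hU u hu)
  choose! b h3 _ using fun u hu => M.aut h (hB u hu)
  exact ⟨η, b, fun _ _ e => e, fun _ => rfl, M.out, M.top, hR,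
    fun u hu => ⟨mod_rep (h1 u hu), mod_rep (h2 u hu rfl)⟩, fun u hu => mod_rep (h3 u hu)⟩

theorem mod_ok {D : Dat} {A : MDat} {r0 : ℕ} (M : Mark X D.nX r0) (h : ModOk D A r0) :
    ∃ η b : ℕ → MulAut Q,
      Model ⟨val X (tb A.th), MonoidHom.id _, MulAut.conj, η, b⟩ D := by
  have hd := h.hd
  simp only [MDat.hdOk, MDat.wf, fc_eq, an_iff, allLT_iff, isz, Nat.beq_eq] at hd
  obtain ⟨a1, a2, a3, a4, a5, a6⟩ := hd
  have M' := (M.chg a1).1
  have s0 := snd_stp (M'.out 0 (Or.inl rfl))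
  have q1 : ev (val X (tb A.th)) (dvf stp 0 A.r) = 1 := by rw [s0.dv0, M'.rel, inv_one]
  have e1 : A.s = 5 * (A.s / 5) := by
    have : A.s % 5 = 0 := a4
    omega
  have e2 : A.m = 2 ^ A.s - 1 := by
    have : A.m + 1 = 1 <<< A.s := a5
    rw [Nat.one_shiftLeft] at this
    omega
  have s3 : Snd _ (deh A.T A.T' A.s A.m) :=
    ((s0.pu q1 a2 M'.rel a3 _ e1 e2).pu q1 a2 M'.rel a3 _ e1 e2).pu q1 a2 M'.rel a3 _ e1 e2
  refine mod_model M' s3 (fun j => ?_) h.hu h.hb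
  rcases lt_or_ge j 64 with hj | hj
  · rw [← inv_eq_one, ← s3.dv0, a6 j hj, ev_zero]
  · rw [h.rz j hj, ev_zero]

/-- The inner automorphisms fix a point in every affine isometric action. -/
theorem mod_fix (hE : EngSt) {D : Dat} {A : MDat} {r0 : ℕ} (M : Mark X D.nX r0)
    (h : ModOk D A r0) (hA : AllOk D) (H : Type) [NormedAddCommGroup H] [InnerProductSpace ℂ H]
    [CompleteSpace H] (α : MulAut Q →* (H ≃ᵃⁱ[ℂ] H)) : ∃ y, ∀ w, α (MulAut.conj w) y = y := by
  obtain ⟨η, b, hM⟩ := mod_ok M h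
  exact hE _ _ _ D hM hA H α

end Pool.Agent.MQ
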