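import Pool.Agent.Lib.MP_c86c76_al.Q.Defs
import Pool.Agent.Lib.MP_c86c76_al.C.Bas
import Pool.Agent.Lib.MP_c86c76_al.R.An

/-!
Statements about the checkers of a relative energy certificate.
-/

set_option autoImplicit false

noncomputable section

namespace Pool.Agent.MQ

open Pool.Agent.MC Finset

section Sem

variable {P G : Type} [Group P] [Group G]

/-- The value of a letter. -/
def lt (X : ℕ → P) (d : ℕ) : P := pw (X (d / 2)) (d % 2)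

/-- The value of a word. -/
def ev (X : ℕ → P) (x : ℕ) : P := ((Nat.digits 32 x).reverse.map (lt X)).prod

/-- The groups and the named elements. -/
structure Env (P G : Type) [Group P] [Group G] where
  X : ℕ → P
  ρ : G →* MulAut P
  ι : P →* G
  η : ℕ → G
  b : ℕ → G

/-- The table `Wp` lists the images of the generators. -/
def Rep (E : Env P G) (φ : G) (Wp : ℕ) : Prop := ∀ l < 16, E.ρ φ (E.X l) = ev E.X (lane Wp l)

structure Model (E : Env P G) (D : Dat) : Prop where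
  inj : Function.Injective E.ρ
  inn : ∀ w, E.ρ (E.ι w) = MulAut.conj w
  x0 : ∀ l, l = 0 ∨ D.nX < l → E.X l = 1
  top : Subgroup.closure (Set.range E.X) = ⊤
  rl : ∀ j, ev E.X (D.rl j) = 1
  wh : ∀ u < D.nU, Rep E (E.η u) (D.wh u) ∧ Rep E (E.η u)⁻¹ (D.wi u)
  wb : ∀ b < D.nB, Rep E (E.b b) (D.wb b)

variable (E : Env P G) (D : Dat)

def el (x : ℕ) : G := E.ι (ev E.X (x / 1024)) * E.η (x % 1024)
def kp (c : ℕ) : G := if c < D.nC then el E (D.kc c) else 1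
def gs (a : ℕ) : G := el E (D.gs a)
def sg (t : ℕ) : G := el E (D.sg t)
def Del : Subgroup G := Subgroup.closure (Set.range (kp E D) ∪ gs E D '' Set.Iio D.ng)
def del (j : ℕ) : G := E.ι (ev E.X (D.pn j)) * sg E D (D.pt j)
def sl (x : ℕ) : G := kp E D (x % D.nC) * gs E D (x / D.nC)
def wB (b k c : ℕ) : G := (E.b b)⁻¹ * E.η k * E.b c
def zz (b s k c s' : ℕ) : G := (del E D (D.ob b + s))⁻¹ * wB E b k c * del E D (D.ob c + s')
def cls (r : ℕ → G) (d y : ℕ) : G :=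
  (sg E D (y / 32 % 32))⁻¹ * r d * E.ι (ev E.X (y / 1024)) * sg E D (y % 32)

/-- The word calculus. -/
structure Wrd : Prop where
  rv : ∀ M, ev E.X (rv M) = (ev E.X M)⁻¹
  dv : ∀ x M, ev E.X (dv x M) = ev E.X x * (ev E.X M)⁻¹
  si : ∀ (φ : P →* P) (W : ℕ → ℕ), (∀ d < 32, φ (lt E.X d) = ev E.X (W d)) →
    ∀ x w, ev E.X (si W x w) = ev E.X x * (φ (ev E.X w))⁻¹
  tb : ∀ (φ : P →* P) Wp, (∀ l < 16, φ (E.X l) = ev E.X (lane Wp l)) →
    ∀ d < 32, φ (lt E.X d) = ev E.X (tb Wp d)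
  mvs : ∀ x w, ev E.X (D.mvs x w) = ev E.X x
  two : ∀ l < 16, ev E.X (2 * l) = E.X l
  ext : ∀ x y : G, (∀ l, 1 ≤ l → l ≤ D.nX → E.ρ x (E.X l) = E.ρ y (E.X l)) → x = y
  cj : ∀ (x : G) w, x * E.ι w * x⁻¹ = E.ι (E.ρ x w)
  rel : ∀ x1 x2 x3 y1 y2 y3 w, D.nX ≤ 15 → D.rel x1 x2 x3 y1 y2 y3 w = true →
    el E x1 * el E x2 * el E x3 = el E y1 * el E y2 * el E y3
  er : ∀ x L A t y, L % 32 = 0 → L < 1024 → Dat.er1 x L A (5 * t) y = 0 →
    ev E.X (y / 1024) = ev E.X x * (ev E.X (Dat.aM A))⁻¹ ∧ y % 32 = Dat.aT A ∧ y / 32 % 32 = L / 32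

/-- The geometry of the fibres. -/
structure Geo : Prop where
  e0 : E.η 0 = 1
  k0 : 0 < D.nK
  kU : D.nK ≤ D.nU
  kmul : ∀ a < D.nK, ∀ b < D.nK, D.mul a b < D.nK ∧ D.mul (D.inv a) (D.mul a b) = b ∧
    E.η (D.mul a b) = E.η a * E.η b
  kinv : ∀ a < D.nK, D.inv a < D.nK ∧ D.inv (D.inv a) = a ∧ E.η (D.inv a) = (E.η a)⁻¹
  sym : MR.Sym D.nC D.ng (kp E D) (gs E D) fun a => (D.wt a : ℝ)
  cinv : ∀ c, ∃ c', (kp E D c)⁻¹ = kp E D c'
  mi : ∀ w, E.ι w ∈ Del E D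
  mu : ∀ u < D.nU, E.η u ∈ Del E D
  md : ∀ j < D.nP, del E D j ∈ Del E D
  ob : ∀ b < D.nB, D.ob (b + 1) = D.ob b + D.sz b ∧ D.sz b ≤ 1024 ∧ D.WW * D.ni b ≤ 65536
  o0 : D.ob 0 = 0
  am : ∀ u < D.nU, ∀ j < D.nP, ∃ c, E.η u * del E D j =
    E.ι (ev E.X (Dat.aM (D.am u j)))⁻¹ * sg E D (Dat.aT (D.am u j)) * kp E D c
  nb : ∀ b < D.nB, ∀ e < D.ni b, D.it b e < D.sz b ∧ ∀ x < D.nS, D.nb b e x < D.sz b ∧
    ∃ c, del E D (D.ob b + D.it b e) * sl E D x = del E D (D.ob b + D.nb b e x) * kp E D c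
  dl : ∀ (H : Type) [NormedAddCommGroup H] (f : G → H), Eqv (kp E D) f → ∀ j < D.nP,
    ‖f (del E D j) - f 1‖ ≤ D.dl j * √(MR.enr D.ng (gs E D) f)

/-- The facts of the blocks. -/
structure Fac (r : ℕ → G) : Prop where
  r0 : r 0 = 1
  rep : ∀ d < D.nD, D.bo d < D.bo (d + 1) → Rep E (r d)⁻¹ (D.vw d)
  blk : ∀ d < D.nD, ∀ B, D.bo d ≤ B → B < D.bo (d + 1) →
    Dat.kB (D.bk B) < D.nB ∧ Dat.kC (D.bk B) ≤ Dat.kB (D.bk B) ∧ Dat.kK (D.bk B) < D.nK ∧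
    0 < Dat.kN (D.bk B) ∧ ∀ f < Dat.kN (D.bk B), D.gU (Dat.kG (D.bk B) + f) < D.nU ∧
      D.gV (Dat.kG (D.bk B) + f) < D.nU ∧
      pw (wB E (Dat.kB (D.bk B)) (Dat.kK (D.bk B)) (Dat.kC (D.bk B))) (D.gE (Dat.kG (D.bk B) + f)) =
        (E.η (D.gU (Dat.kG (D.bk B) + f)))⁻¹ * r d * E.ι (ev E.X (D.gM (Dat.kG (D.bk B) + f)))⁻¹ *
          E.η (D.gV (Dat.kG (D.bk B) + f))

end Sem

/-- Sum over all blocks. -/
def sumB {M : Type} [AddCommMonoid M] (D : Dat) (F : ℕ → ℕ → ℕ → M) : M :=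
  ∑ b ∈ range D.nB, ∑ c ∈ range (b + 1), ∑ k ∈ range D.nK, F b k c

/-- The blocks sorted by double cosets are all blocks. -/
def Perm (D : Dat) : Prop := ∀ (M : Type) [AddCommMonoid M] (F : ℕ → ℕ → ℕ → M),
  ∑ d ∈ range D.nD, ∑ B ∈ Ico (D.bo d) (D.bo (d + 1)),
    F (Dat.kB (D.bk B)) (Dat.kK (D.bk B)) (Dat.kC (D.bk B)) = sumB D F

def d32 (x s : ℕ) : ℤ := ((x / 2 ^ (96 * s) % 2 ^ 32 : ℕ) : ℤ) - 2 ^ 31

def Xz (D : Dat) (b k c s s' : ℕ) : ℤ := d32 (D.xb (D.adr b k c)) (D.sz c * s + s')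
def Ml (D : Dat) (b k c e s' : ℕ) : ℤ := d32 (D.ml (D.adr b k c) e) s'
def Mr (D : Dat) (b k c e s : ℕ) : ℤ := d32 (D.mr (D.adr b k c) e) s

/-- The Laplacian at an interior point. -/
def pz (D : Dat) (b e s : ℕ) : ℤ :=
  (∑ x ∈ range D.nS, if D.nb b e x = s then (D.wt (x / D.nC) : ℤ) else 0) -
    if D.it b e = s then (D.WW : ℤ) else 0

def Yz (D : Dat) (b k c s s' : ℕ) : ℤ :=
  Xz D b k c s s' + ∑ e ∈ range (D.ni b), pz D b e s * Ml D b k c e s' +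
    ∑ e ∈ range (D.ni c), Mr D b k c e s * pz D c e s'

def Lz (D : Dat) (y p u a b s : ℕ) : ℤ :=
  if D.dr y b ≤ p then
    (((D.LL y a).getD p 0 / 2 ^ (96 * (D.ob b + s) + 32 * u) % 2 ^ 30 : ℕ) : ℤ) - 2 ^ 29 else 0

def Mz (D : Dat) (y a b s a' c s' : ℕ) : ℤ :=
  ∑ p ∈ range (D.nG y), ∑ u ∈ range 3, Lz D y p u a b s * Lz D y p u a' c s'

def Tz (D : Dat) (y x a : ℕ) : ℤ := (D.tt y x a : ℤ) - 1024

def Wz (D : Dat) (y k a a' : ℕ) : ℤ := ∑ x ∈ range D.nK, Tz D y x a * Tz D y (D.mul x k) a'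

def Cz (D : Dat) (b s k c s' : ℕ) : ℤ :=
  ∑ y ∈ range D.nY, ∑ a ∈ range (D.db y), ∑ a' ∈ range (D.db y), Wz D y k a a' * Mz D y a b s a' c s'

/-- The sizes. -/
structure Siz (D : Dat) : Prop where
  o0 : D.ob 0 = 0
  ob : ∀ b < D.nB, D.ob (b + 1) = D.ob b + D.sz b ∧ D.sz b ≤ 1024 ∧ D.WW * D.ni b ≤ 65536
  nb : ∀ b < D.nB, ∀ e < D.ni b, D.it b e < D.sz b ∧ ∀ x < D.nS, D.nb b e x < D.sz b

/-- The rows of the matrix as numbers. -/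
def Yn (D : Dat) : Prop := ∀ b < D.nB, ∀ c ≤ b, ∀ k, ∀ s < D.sz b,
  (∀ s' < D.sz c, |Yz D b k c s s'| < 2 ^ 50) ∧
    D.yn b k c s = pk 96 (D.sz c) fun s' => (Yz D b k c s s' + 2 ^ 50).toNat

def Zs (D : Dat) : Prop := ∀ b < D.nB, ∀ c ≤ b, ∀ k < D.nK,
  (∀ s < D.sz b, ∑ s' ∈ range (D.sz c), Yz D b k c s s' = 0) ∧
    ∀ s' < D.sz c, ∑ s ∈ range (D.sz b), Yz D b k c s s' = 0

def Lanes (D : Dat) : Prop := ∀ b < D.nB, ∀ s < D.sz b, ∀ k < D.nK, ∀ c ≤ b, ∀ s' < D.sz c,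
  |2 ^ D.sh * Yz D b k c s s' + (if k = 0 ∧ c = b ∧ s' = s then (D.tau : ℤ) else 0) -
    (if c = b then 1 else 2) * Cz D b s k c s'| ≤ 2 ^ D.hh

structure GeoOk (D : Dat) : Prop where
  grp : D.grpOk = true
  off : D.offOk = true
  kk : ∀ a < D.nK, ∀ b < D.nK, D.kOk a b = true
  cc : ∀ a < D.nC, ∀ b < D.nC, D.cOk a b = true
  et : ∀ u < D.nU, ∀ t < D.nT, D.etOk u t = true
  fib : ∀ b < D.nB, D.fibOk b = true
  am : ∀ u < D.nU, ∀ j < D.nP, D.amOk u j = true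

def BlkOk (D : Dat) : Prop := ∀ d < D.nD, ∀ B, D.bo d ≤ B → B < D.bo (d + 1) → D.blkOk d B = true
def GatOk (D : Dat) : Prop := ∀ d < D.nD, D.gatOk d = true
def BalOk (D : Dat) : Prop := ∀ d < D.nD, D.balOk d = true
def ZsOk (D : Dat) : Prop := ∀ b < D.nB, ∀ c ≤ b, ∀ k < D.nK, D.zsOk b k c = true

structure SosOk (D : Dat) : Prop where
  w : ∀ k < D.nK, D.wOk k = true
  l : ∀ y < D.nY, D.lOk y = true
  row : ∀ b < D.nB, ∀ s < D.sz b, D.rowOk b s = true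
  fin : D.finOk = true

section Hil

variable {P G : Type} [Group P] [Group G] (E : Env P G) (D : Dat)
variable {H : Type} [NormedAddCommGroup H] [InnerProductSpace ℝ H]

/-- The pairing of a matrix with the squared distances. -/
def par (Z : ℕ → ℕ → ℕ → ℕ → ℕ → ℤ) (f : G → H) : ℝ :=
  sumB D fun b k c => ∑ s ∈ range (D.sz b), ∑ s' ∈ range (D.sz c),
    (Z b k c s s' : ℝ) * ph f (zz E D b s k c s')

def S1 : ℕ := ∑ j ∈ range D.nP, D.dl j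
def S2 : ℕ := ∑ j ∈ range D.nP, D.dl j * D.dl j

/-- The left and the right multipliers against a function. -/
def mus {M : Type} [AddCommGroup M] [Module ℝ M] (a : G → M) : M :=
  sumB D fun b k c =>
    ∑ e ∈ range (D.ni b), ∑ s' ∈ range (D.sz c),
        (Ml D b k c e s' : ℝ) • a (zz E D b (D.it b e) k c s') +
      ∑ e ∈ range (D.ni c), ∑ s ∈ range (D.sz b),
        (Mr D b k c e s : ℝ) • a (zz E D b s k c (D.it c e))⁻¹

end Hil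

def WrdSt : Prop := ∀ (P G : Type) [Group P] [Group G] (E : Env P G) (D : Dat),
  Model E D → Wrd E D

def GeoSt : Prop := ∀ (P G : Type) [Group P] [Group G] (E : Env P G) (D : Dat),
  Model E D → Wrd E D → GeoOk D → Geo E D

def FacSt : Prop := ∀ (P G : Type) [Group P] [Group G] (E : Env P G) (D : Dat),
  Model E D → Wrd E D → GeoOk D → Geo E D → BlkOk D → ∃ r, Fac E D r

def PermSt : Prop := ∀ D : Dat, D.offOk = true → BlkOk D → BalOk D → Perm D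

/-- An entry without error has the class of its key. -/
def Ent {P G : Type} [Group P] [Group G] (E : Env P G) (D : Dat) (r : ℕ → G) : Prop :=
  ∀ (H : Type) [NormedAddCommGroup H] (f : G → H), Eqv (kp E D) f →
    (∀ d < D.nD, ∀ B, D.bo d ≤ B → B < D.bo (d + 1) → ∀ s < D.sz (Dat.kB (D.bk B)),
      ∀ s' < D.sz (Dat.kC (D.bk B)), ∀ q y,
      D.er d (Dat.kG (D.bk B)) (Dat.kN (D.bk B)) (D.ob (Dat.kB (D.bk B))) s
        (D.ob (Dat.kC (D.bk B))) s' q y = 0 →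
      ph f (zz E D (Dat.kB (D.bk B)) s (Dat.kK (D.bk B)) (Dat.kC (D.bk B)) s') =
        ph f (cls E D r d y)) ∧
    (∀ t < 32, ph f (cls E D r 0 (33 * t)) = 0) ∧
    ∀ d y y' w, (y ^^^ y') &&& 1023 = 0 → D.mvs (y >>> 10) w = y' >>> 10 →
      cls E D r d y = cls E D r d y'

def EntSt : Prop := ∀ (P G : Type) [Group P] [Group G] (E : Env P G) (D : Dat) (r : ℕ → G),
  Model E D → Wrd E D → Geo E D → Fac E D r → Ent E D r

/-- The sums over the classes vanish. -/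
def GatSt : Prop := ∀ (D : Dat) (d : ℕ), D.gatOk d = true →
  ∀ (Φ : ℕ → ℝ) (Ψ : ℕ → ℕ → ℕ → ℝ),
  (∀ B, D.bo d ≤ B → B < D.bo (d + 1) → ∀ s < D.sz (Dat.kB (D.bk B)),
    ∀ s' < D.sz (Dat.kC (D.bk B)), ∀ q y,
    D.er d (Dat.kG (D.bk B)) (Dat.kN (D.bk B)) (D.ob (Dat.kB (D.bk B))) s
      (D.ob (Dat.kC (D.bk B))) s' q y = 0 → Ψ B s s' = Φ y) →
  (d = 0 → ∀ t < 32, Φ (33 * t) = 0) →
  (∀ y y' w, (y ^^^ y') &&& 1023 = 0 → D.mvs (y >>> 10) w = y' >>> 10 → Φ y = Φ y') →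
  ∑ B ∈ Ico (D.bo d) (D.bo (d + 1)), ∑ s ∈ range (D.sz (Dat.kB (D.bk B))),
    ∑ s' ∈ range (D.sz (Dat.kC (D.bk B))),
      (Xz D (Dat.kB (D.bk B)) (Dat.kK (D.bk B)) (Dat.kC (D.bk B)) s s' : ℝ) * Ψ B s s' = 0

def YnSt : Prop := ∀ D : Dat, Siz D → Yn D ∧ (ZsOk D → Zs D)

def LanSt : Prop := ∀ D : Dat, Siz D → Yn D → SosOk D → Lanes D

/-- The sum of squares. -/
def SosSt : Prop := ∀ (P G : Type) [Group P] [Group G] (E : Env P G) (D : Dat),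
  Geo E D → Zs D → Lanes D →
  ∀ (H : Type) [NormedAddCommGroup H] [InnerProductSpace ℝ H] (f : G → H), Eqv (kp E D) f →
    2 ^ D.sh * par E D (Yz D) f ≤
      2 * (D.tau * S2 D + 2 ^ D.hh * D.nK * (S1 D * S1 D)) * MR.enr D.ng (gs E D) f

/-- The harmonic rows. -/
def RowSt : Prop := ∀ (P G : Type) [Group P] [Group G] (E : Env P G) (D : Dat), Geo E D →
  ∀ (H : Type) [NormedAddCommGroup H] [InnerProductSpace ℝ H] (f : G → H), Eqv (kp E D) f →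
    par E D (Yz D) f = par E D (Xz D) f + mus E D fun z =>
      D.nC * ∑ a ∈ range D.ng, (D.wt a : ℝ) * ph f (gs E D a) + 2 * inner ℝ (f z - f 1)
        (MR.lpl D.nC D.ng (kp E D) (gs E D) (fun a => (D.wt a : ℝ)) f)

/-- The multipliers are balanced. -/
def BalSt : Prop := ∀ (P G : Type) [Group P] [Group G] (E : Env P G) (D : Dat) (r : ℕ → G),
  Geo E D → Fac E D r → Perm D → BalOk D →
  (mus E D (fun _ => (1 : ℝ)) = ∑ d ∈ range D.nD, (D.tp d : ℝ) - ∑ d ∈ range D.nD, (D.tq d : ℝ)) ∧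
  ∀ (M : Type) [AddCommGroup M] [Module ℝ M] (a : G → M), (∀ x, a x⁻¹ = -a x) →
    (∀ x, ∀ d ∈ Del E D, a (x * d) = a x) → mus E D a = 0

/-- All checks. -/
structure AllOk (D : Dat) : Prop where
  geo : GeoOk D
  blk : BlkOk D
  gat : GatOk D
  bal : BalOk D
  zs : ZsOk D
  sos : SosOk D

/-- The whole engine. -/
def EngSt : Prop := ∀ (P G : Type) [Group P] [Group G] (E : Env P G) (D : Dat),
  Model E D → AllOk D →
  ∀ (H : Type) [NormedAddCommGroup H] [InnerProductSpace ℂ H] [CompleteSpace H]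
    (α : G →* (H ≃ᵃⁱ[ℂ] H)), ∃ y, ∀ w, α (E.ι w) y = y

def TopSt : Prop := WrdSt → GeoSt → FacSt → PermSt → EntSt → GatSt → YnSt → LanSt → SosSt →
  RowSt → BalSt → EngSt

end Pool.Agent.MQ
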