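import Pool.Agent.Lib.MP_c86c76_al.Q.St

/-!
Soundness of the word calculus.
-/

set_option autoImplicit false

noncomputable section

namespace Pool.Agent.MQ

open Pool.Agent.MC Finset

theorem wrd_pow (t : ℕ) : 2 ^ (5 * t) = 32 ^ t := by rw [pow_mul]; rfl

theorem wrd_land (x : ℕ) : Nat.land x 31 = x % 32 := land_eq x 5

theorem wrd_dgt (M i : ℕ) : dgt M i = M / 32 ^ i % 32 := by
  rw [← wrd_pow]
  exact bits_eq M (5 * i) 5

theorem wrd_dgt_lt (M i : ℕ) : dgt M i < 32 := by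
  rw [wrd_dgt]
  exact Nat.mod_lt _ (by norm_num)

theorem wrd_md (x s : ℕ) : md x s = x % 2 ^ s := by
  show x % (1 <<< s) = _
  rw [Nat.one_shiftLeft]

theorem wrd_xor : ∀ d < 32, d ^^^ 1 < 32 ∧ (d ^^^ 1) / 2 = d / 2 ∧ (d ^^^ 1) % 2 = 1 - d % 2 := by
  decide

theorem wrd_ln (M : ℕ) : M < 32 ^ ln M := by
  have h1 : 32 * M + 16 < 2 ^ (Nat.log2 (32 * M + 16) + 1) := Nat.lt_log2_self
  have h2 : 2 ^ (Nat.log2 (32 * M + 16) + 1) ≤ 2 ^ (5 * (ln M + 1)) :=
    Nat.pow_le_pow_right (by norm_num) (by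
      show _ ≤ 5 * (Nat.log2 (32 * M + 16) / 5 + 1)
      omega)
  rw [wrd_pow, pow_succ] at h2
  omega

/-- The loop of the inverse word. -/
def wrdR (M n : ℕ) : ℕ :=
  Nat.rec (motive := fun _ => ℕ) 0
    (fun i r => Nat.add (Nat.mul 32 r) (Nat.xor (dgt M i) 1)) n

theorem wrd_R_mod (M t n : ℕ) : wrdR M (t + n) % 32 ^ n = wrdR (M / 32 ^ t) n := by
  induction n with
  | zero => exact Nat.mod_one _
  | succ n ih =>
    show (32 * wrdR M (t + n) + (dgt M (t + n) ^^^ 1)) % 32 ^ (n + 1) =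
      32 * wrdR (M / 32 ^ t) n + (dgt (M / 32 ^ t) n ^^^ 1)
    have e : dgt M (t + n) = dgt (M / 32 ^ t) n := by
      rw [wrd_dgt, wrd_dgt, Nat.div_div_eq_div_mul, pow_add]
    have h := (wrd_xor _ (wrd_dgt_lt (M / 32 ^ t) n)).1
    rw [e, ← ih, pow_succ', Nat.mod_mul]
    generalize dgt (M / 32 ^ t) n ^^^ 1 = d at h
    generalize wrdR M (t + n) = a
    rw [show (32 * a + d) / 32 = a by omega, show (32 * a + d) % 32 = d by omega, add_comm]

section Grp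

variable {P : Type} [Group P] {X : ℕ → P}

theorem wrd_zero : ev X 0 = 1 := by simp [ev]

theorem wrd_flip {d : ℕ} (h : d < 32) : lt X (d ^^^ 1) = (lt X d)⁻¹ := by
  rw [lt, (wrd_xor d h).2.1, (wrd_xor d h).2.2, pw_flip, lt]

variable (h0 : X 0 = 1)
include h0

theorem wrd_step (x : ℕ) : ev X x = ev X (x / 32) * lt X (x % 32) := by
  rcases Nat.eq_zero_or_pos x with rfl | hx
  · simp [wrd_zero, lt, pw, h0]
  · rw [ev, Nat.digits_def' (by norm_num) hx, List.reverse_cons, List.map_append,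
      List.prod_append, List.map_singleton, List.prod_singleton, ev]

theorem wrd_push (r : ℕ) {d : ℕ} (h : d < 32) : ev X (32 * r + d) = ev X r * lt X d := by
  rw [wrd_step h0, show (32 * r + d) / 32 = r by omega, show (32 * r + d) % 32 = d by omega]

theorem wrd_one {d : ℕ} (h : d < 32) : ev X d = lt X d := by
  have := wrd_push h0 0 h
  rwa [mul_zero, zero_add, wrd_zero, one_mul] at this

theorem wrd_cat (a m : ℕ) : ∀ b < 32 ^ m, ev X (a * 32 ^ m + b) = ev X a * ev X b := by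
  induction m with
  | zero =>
    intro b hb
    obtain rfl : b = 0 := by simpa using hb
    simp [wrd_zero]
  | succ m ih =>
    intro b hb
    rw [pow_succ] at hb
    rw [wrd_step h0 b, ← mul_assoc, ← ih _ (by omega), ← wrd_push h0 _ (Nat.mod_lt b (by norm_num)),
      pow_succ, ← mul_assoc]
    congr 1
    omega

theorem wrd_split (x m : ℕ) : ev X x = ev X (x / 32 ^ m) * ev X (x % 32 ^ m) := by
  rw [← wrd_cat h0 _ m _ (Nat.mod_lt _ (by positivity)), Nat.div_add_mod']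

theorem wrd_stp (r : ℕ) {d : ℕ} (h : d < 32) : ev X (stp r d) = ev X r * (lt X d)⁻¹ := by
  rw [stp]
  cases e : Nat.beq (Nat.land r 31) d
  · exact (wrd_push h0 r (wrd_xor d h).1).trans (by rw [wrd_flip h])
  · have e' : r % 32 = d := (wrd_land r).symm.trans (Nat.eq_of_beq_eq_true e)
    show ev X (r >>> 5) = _
    rw [Nat.shiftRight_eq_div_pow, wrd_step h0 r, e', mul_inv_cancel_right]

theorem wrd_loop (φ : P →* P) (S : ℕ → ℕ → ℕ)
    (hS : ∀ r, ∀ d < 32, ev X (S r d) = ev X r * (φ (lt X d))⁻¹) (x M n : ℕ) :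
    ev X (Nat.rec (motive := fun _ => ℕ) x (fun i r => S r (dgt M i)) n) =
      ev X x * (φ (ev X (M % 32 ^ n)))⁻¹ := by
  induction n with
  | zero => simp [Nat.mod_one, wrd_zero]
  | succ n ih =>
    refine (hS _ _ (wrd_dgt_lt M n)).trans ?_
    rw [ih, Nat.mod_pow_succ, ← wrd_dgt, add_comm, mul_comm,
      wrd_cat h0 _ n _ (Nat.mod_lt _ (by positivity)), wrd_one h0 (wrd_dgt_lt M n), map_mul,
      mul_inv_rev, mul_assoc]

theorem wrd_dv (x M : ℕ) : ev X (dv x M) = ev X x * (ev X M)⁻¹ := by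
  have := wrd_loop h0 (MonoidHom.id P) stp (fun r d h => wrd_stp h0 r h) x M (ln M)
  rwa [Nat.mod_eq_of_lt (wrd_ln M)] at this

theorem wrd_R (M n : ℕ) : ev X (wrdR M n) = (ev X (M % 32 ^ n))⁻¹ := by
  have := wrd_loop h0 (MonoidHom.id P) (fun r d => 32 * r + (d ^^^ 1))
    (fun r d h => (wrd_push h0 r (wrd_xor d h).1).trans (by rw [wrd_flip h]; rfl)) 0 M n
  rwa [wrd_zero, one_mul] at this

theorem wrd_rv (M : ℕ) : ev X (rv M) = (ev X M)⁻¹ := by
  have := wrd_R h0 M (ln M)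
  rwa [Nat.mod_eq_of_lt (wrd_ln M)] at this

theorem wrd_si (φ : P →* P) (W : ℕ → ℕ) (h : ∀ d < 32, φ (lt X d) = ev X (W d)) (x w : ℕ) :
    ev X (si W x w) = ev X x * (φ (ev X w))⁻¹ := by
  have := wrd_loop h0 φ (fun r d => dv r (W d)) (fun r d hd => by rw [wrd_dv h0, h d hd]) x w (ln w)
  rwa [Nat.mod_eq_of_lt (wrd_ln w)] at this

theorem wrd_tb (φ : P →* P) (Wp : ℕ) (h : ∀ l < 16, φ (X l) = ev X (lane Wp l)) (d : ℕ)
    (hd : d < 32) : φ (lt X d) = ev X (tb Wp d) := by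
  have e1 : Nat.land d 1 = d % 2 := land_eq d 1
  have e2 : Nat.shiftRight d 1 = d / 2 := Nat.shiftRight_eq_div_pow d 1
  have e3 := h (d / 2) (by omega)
  rw [tb, e1, e2, lt]
  rcases Nat.mod_two_eq_zero_or_one d with e | e <;> rw [e]
  · exact e3
  · show φ (X (d / 2))⁻¹ = ev X (rv _)
    rw [wrd_rv h0, map_inv, e3]

theorem wrd_tail (M t : ℕ) : ev X (rv M % 32 ^ (ln M - t)) = (ev X (M / 32 ^ t))⁻¹ := by
  have hM := wrd_ln M
  rcases le_total t (ln M) with h | h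
  · obtain ⟨n, hn⟩ := Nat.exists_eq_add_of_le h
    show ev X (wrdR M (ln M) % _) = _
    rw [hn] at hM ⊢
    rw [Nat.add_sub_cancel_left, wrd_R_mod, wrd_R h0, Nat.mod_eq_of_lt]
    rw [pow_add] at hM
    exact Nat.div_lt_of_lt_mul hM
  · rw [Nat.sub_eq_zero_of_le h, pow_zero, Nat.mod_one,
      Nat.div_eq_of_lt (hM.trans_le (Nat.pow_le_pow_right (by norm_num) h)), wrd_zero, inv_one]

theorem wrd_fast (x M t : ℕ) (h : md (x ^^^ M) (5 * t) = 0) :
    ev X (x / 32 ^ t * 32 ^ (ln M - t) + rv M % 32 ^ (ln M - t)) = ev X x * (ev X M)⁻¹ := by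
  rw [wrd_md, Nat.xor_mod_two_pow, wrd_pow] at h
  rw [wrd_cat h0 _ _ _ (Nat.mod_lt _ (by positivity)), wrd_tail h0, wrd_split h0 x t,
    wrd_split h0 M t, Nat.eq_of_xor_eq_zero h, mul_inv_rev, mul_assoc, mul_inv_cancel_left]

theorem wrd_mv2 (x p R t : ℕ) (hR : ev X R = 1) : ev X (Dat.mv2 x (5 * p) R (5 * t)) = ev X x := by
  rw [Dat.mv2]
  cases e : md (Nat.xor (Nat.shiftRight x (5 * p)) R) (5 * t)
  · have h := wrd_fast h0 (x >>> (5 * p)) R t e
    show ev X (((x >>> (5 * p + 5 * t)) <<< (5 * ln R - 5 * t) + md (rv R) (5 * ln R - 5 * t)) <<<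
      (5 * p) + md x (5 * p)) = _
    rw [hR, inv_one, mul_one] at h
    rw [← Nat.mul_sub, Nat.shiftRight_add]
    simp only [Nat.shiftRight_eq_div_pow, Nat.shiftLeft_eq, wrd_md, wrd_pow] at h ⊢
    rw [wrd_cat h0 _ _ _ (Nat.mod_lt _ (by positivity)), h, ← wrd_split h0]
  · rfl

theorem wrd_mvs (D : Dat) (hR : ∀ j, ev X (D.rl j) = 1) (x w : ℕ) : ev X (D.mvs x w) = ev X x := by
  rcases w with _ | w
  · rfl
  · show ev X (D.mvs1 x (w + 1)) = _
    rw [Dat.mvs1]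
    generalize Nat.div _ 20 = n
    induction n with
    | zero => rfl
    | succ n ih => exact (wrd_mv2 h0 _ _ _ _ (hR _)).trans ih

theorem wrd_er (x L A t y : ℕ) (h1 : L % 32 = 0) (h2 : L < 1024)
    (h : Dat.er1 x L A (5 * t) y = 0) :
    ev X (y / 1024) = ev X x * (ev X (Dat.aM A))⁻¹ ∧ y % 32 = Dat.aT A ∧ y / 32 % 32 = L / 32 := by
  change md (x ^^^ Dat.aM A) (5 * t) + (y ^^^ ((x >>> (5 * t)) <<< (5 * ln (Dat.aM A) - 5 * t + 10) +
    md (rv (Dat.aM A) <<< 10 + Dat.aT A) (5 * ln (Dat.aM A) - 5 * t + 10) + L)) = 0 at h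
  have a1 := wrd_fast h0 x (Dat.aM A) t (by omega)
  have a2 := Nat.eq_of_xor_eq_zero (Nat.eq_zero_of_add_eq_zero_left h)
  have a3 : Dat.aT A < 32 := by
    rw [Dat.aT, wrd_land]
    omega
  rw [← Nat.mul_sub, add_comm _ 10] at a2
  simp only [Nat.shiftRight_eq_div_pow, Nat.shiftLeft_eq, wrd_md, pow_add, wrd_pow] at a2
  rw [Nat.mod_mul, mul_left_comm] at a2
  rw [← a1]
  generalize Dat.aT A = u at a2 a3 ⊢
  generalize rv (Dat.aM A) = v at a2 ⊢
  rw [show (v * 2 ^ 10 + u) / 2 ^ 10 = v by omega, show (v * 2 ^ 10 + u) % 2 ^ 10 = u by omega] at a2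
  generalize v % _ = v' at a2 ⊢
  generalize x / 32 ^ t * _ = x' at a2 ⊢
  exact ⟨congrArg _ (by omega), by omega, by omega⟩

end Grp

theorem wrdSt : WrdSt := by
  intro P G _ _ E D hM
  have h0 := hM.x0 0 (Or.inl rfl)
  have two : ∀ l < 16, ev E.X (2 * l) = E.X l := fun l hl => by
    rw [wrd_one h0 (by omega), lt, Nat.mul_div_cancel_left _ two_pos, Nat.mul_mod_right]
    rfl
  have ext : ∀ x y : G, (∀ l, 1 ≤ l → l ≤ D.nX → E.ρ x (E.X l) = E.ρ y (E.X l)) → x = y := by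
    intro x y h
    refine hM.inj (MulEquiv.toMonoidHom_injective (MonoidHom.eq_of_eqOn_dense hM.top ?_))
    rintro _ ⟨l, rfl⟩
    by_cases hl : l = 0 ∨ D.nX < l
    · rw [hM.x0 l hl, map_one, map_one]
    · exact h l (by omega) (by omega)
  have ap : ∀ x y, D.uOk x = true → ev E.X (D.ap x y) = (E.ρ (el E x) (ev E.X y))⁻¹ := by
    intro x y hx
    have e1 : Nat.land x 1023 = x % 1024 := land_eq x 10
    have e2 : Nat.shiftRight x 10 = x / 1024 := Nat.shiftRight_eq_div_pow x 10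
    rw [Dat.uOk, e1, Nat.blt_eq] at hx
    rw [Dat.ap, e1, e2, wrd_dv h0, wrd_si h0 (E.ρ (E.η (x % 1024))).toMonoidHom _
      (wrd_tb h0 _ _ (hM.wh _ hx).1), el, map_mul, hM.inn]
    simp [mul_assoc]
  refine ⟨wrd_rv h0, wrd_dv h0, wrd_si h0, wrd_tb h0, wrd_mvs h0 D hM.rl, two, ext,
    fun x w => hM.inj ?_, fun x1 x2 x3 y1 y2 y3 w hn h => ?_, wrd_er h0⟩
  · rw [map_mul, map_mul, map_inv, hM.inn, hM.inn]
    ext y
    simp
  · simp only [Dat.rel, an_iff, allIn_iff, Nat.beq_eq] at h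
    obtain ⟨a1, a2, a3, b1, b2, b3, h⟩ := h
    refine ext _ _ fun l h1 h2 => ?_
    have := congrArg (ev E.X) (h l h1 (by omega))
    rw [wrd_mvs h0 D hM.rl, ap _ _ a1, ap _ _ a2, ap _ _ a3, ap _ _ b1, ap _ _ b2, ap _ _ b3,
      show Nat.mul 2 l = 2 * l from rfl, two l (by omega)] at this
    simpa using this

end Pool.Agent.MQ
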